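import Pool.Agent.Helper77.LM.Dens3

/-!
The average of the density over a facet.
-/

set_option autoImplicit false

noncomputable section

open MeasureTheory Set Filter Topology
open scoped ENNReal

namespace Pool.Agent.Helper77.LM

variable {n m : ℕ}

lemma one_add_le_rpow {t z : ℝ} (ht : 0 < t) (hz : z ≤ 0) : 1 + z * (t - 1) ≤ t ^ z := by
  rw [Real.rpow_def_of_pos ht]
  have h1 := Real.add_one_le_exp (Real.log t * z)
  have h2 := Real.log_le_sub_one_of_pos ht
  nlinarith

/-- the tangent line inequality -/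
lemma tangent {a b z : ℝ} (ha : 0 < a) (hb : 0 < b) (hz : z ≤ 0) :
    a ^ z + z * a ^ (z - 1) * (b - a) ≤ b ^ z := by
  have h1 := one_add_le_rpow (t := b / a) (by positivity) hz
  rw [Real.div_rpow hb.le ha.le] at h1
  have ha' : 0 < a ^ z := Real.rpow_pos_of_pos ha z
  rw [le_div_iff₀ ha'] at h1
  refine le_trans (le_of_eq ?_) h1
  rw [Real.rpow_sub_one ha.ne']
  field_simp

/-- Tonelli for the density -/
lemma tonelli {p : ℝ} (hp : 0 < p) {S : Set (Fin n → ℝ)} (hS : MeasurableSet S)
    (hSB : S ⊆ Big p) :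
    ∫⁻ y, ENNReal.ofReal (ww p y) * ∫⁻ x in S, ENNReal.ofReal (Real.exp (p * dp x y))
      = ∫⁻ x in S, ENNReal.ofReal (Nr p x) := by
  have hmeas : Measurable fun q : (Fin n → ℝ) × (Fin n → ℝ) =>
      ENNReal.ofReal (Real.exp (p * dp q.2 q.1)) :=
    (Real.continuous_exp.comp (continuous_const.mul
      (continuous_dp.comp (continuous_snd.prodMk continuous_fst)))).measurable.ennreal_ofReal
  have h1 : ∀ y : Fin n → ℝ,
      ENNReal.ofReal (ww p y) * ∫⁻ x in S, ENNReal.ofReal (Real.exp (p * dp x y))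
      = ∫⁻ x in S, ENNReal.ofReal (Real.exp (p * dp x y) * ww p y) := by
    intro y
    rw [← lintegral_const_mul']
    · refine lintegral_congr fun x => ?_
      rw [ENNReal.ofReal_mul (Real.exp_pos _).le, mul_comm]
    · exact ENNReal.ofReal_ne_top
  simp only [h1]
  rw [lintegral_lintegral_swap]
  · refine setLIntegral_congr_fun hS ?_
    intro x hx
    simp only [Nr]
    rw [ofReal_integral_eq_lintegral_ofReal (integrable_N hp (hSB hx))]
    exact Filter.Eventually.of_forall fun y => (mul_pos (Real.exp_pos _) (ww_pos hp y)).le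
  · have : Measurable fun q : (Fin n → ℝ) × (Fin n → ℝ) =>
        ENNReal.ofReal (Real.exp (p * dp q.2 q.1) * ww p q.1) := by
      refine Measurable.ennreal_ofReal ?_
      refine Measurable.mul ?_ ((measurable_ww p).comp measurable_fst)
      exact (Real.continuous_exp.comp (continuous_const.mul
        (continuous_dp.comp (continuous_snd.prodMk continuous_fst)))).measurable
    exact this.aemeasurable

/-- the enlarged simplex `r Δ` as a set -/
def rD (n : ℕ) (r : ℝ) : Set (Fin n → ℝ) := {x | r⁻¹ • x ∈ Dl n}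

lemma isClosed_rD (r : ℝ) : IsClosed (rD n r) :=
  isClosed_Dl.preimage (continuous_const_smul r⁻¹)

lemma Dl_sub_rD {r : ℝ} (hr : 1 ≤ r) : Dl n ⊆ rD n r := fun _ hx =>
  smul_mem_Dl hx (by positivity) (inv_le_one_of_one_le₀ hr)

lemma rD_sub_Big {p : ℝ} (hp : 0 < p) {r : ℝ} (hr : 1 ≤ r) (hr2 : r ≤ 1 + 1 / (4 * p)) :
    rD n r ⊆ Big p := by
  intro x hx
  have h0 : 0 < r := by linarith
  have := smul_mem_Big hp hx h0.le hr2
  rwa [smul_smul, mul_inv_cancel₀ h0.ne', one_smul] at this

lemma lint_rD {r : ℝ} (hr : 1 ≤ r) (p : ℝ) (y : Fin n → ℝ) :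
    ∫⁻ x in rD n r, ENNReal.ofReal (Real.exp (p * dp x y))
      = ENNReal.ofReal (r ^ n * II p (r • y)) := by
  have h0 : 0 < r := by linarith
  have hmeas : Measurable ((rD n r).indicator
      (fun x => ENNReal.ofReal (Real.exp (p * dp x y)))) := by
    refine Measurable.indicator ?_ (isClosed_rD r).measurableSet
    exact (Real.continuous_exp.comp (continuous_const.mul
      (continuous_dp.comp (continuous_id.prodMk continuous_const)))).measurable.ennreal_ofReal
  rw [← lintegral_indicator (isClosed_rD r).measurableSet, lint_smul _ hmeas h0,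
    ENNReal.ofReal_mul (by positivity), II, ofReal_integral_eq_lintegral_ofReal
      (integrableOn_exp p _ isCompact_Dl) (Filter.Eventually.of_forall fun x => (Real.exp_pos _).le),
    ← lintegral_indicator isClosed_Dl.measurableSet]
  congr 1
  refine lintegral_congr fun x => ?_
  have hiff : r • x ∈ rD n r ↔ x ∈ Dl n := by
    simp only [rD, Set.mem_ofPred_eq, smul_smul, inv_mul_cancel₀ h0.ne', one_smul]
  by_cases hx : x ∈ Dl n
  · rw [Set.indicator_of_mem hx, Set.indicator_of_mem (hiff.2 hx), dp_smul_left, dp_smul_right]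
  · rw [Set.indicator_of_notMem hx, Set.indicator_of_notMem (fun h => hx (hiff.1 h))]

/-- the first variation inequality under dilation -/
lemma dil {p : ℝ} (hp : 0 < p) (n : ℕ) {r : ℝ} (hr : 1 ≤ r) (hr2 : r ≤ 1 + 1 / (4 * p)) :
    ENNReal.ofReal (p * JJ p n * (1 - r ^ (-(n * (1 + 1 / p)))))
      ≤ ∫⁻ x in rD n r \ Dl n, ENNReal.ofReal (Nr p x) := by
  have h0 : 0 < r := by linarith
  have hJ := JJ_pos hp n
  -- pointwise
  have hpt : ∀ y : Fin n → ℝ, ENNReal.ofReal (uu p y)
      ≤ ENNReal.ofReal (r ^ (-(n * (1 / p))) * uu p (r • y))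
        + ENNReal.ofReal (1 / p) * (ENNReal.ofReal (ww p y) *
          ∫⁻ x in rD n r \ Dl n, ENNReal.ofReal (Real.exp (p * dp x y))) := by
    intro y
    have hI := II_pos hp y
    have hIr := II_pos hp (r • y)
    have e1 : ∫⁻ x in rD n r \ Dl n, ENNReal.ofReal (Real.exp (p * dp x y))
        = ENNReal.ofReal (r ^ n * II p (r • y) - II p y) := by
      have h1 := lint_rD (n := n) hr p y
      have h2 : ∫⁻ x in Dl n, ENNReal.ofReal (Real.exp (p * dp x y))
          = ENNReal.ofReal (II p y) := by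
        rw [II, ofReal_integral_eq_lintegral_ofReal
          (integrableOn_exp p _ isCompact_Dl)
          (Filter.Eventually.of_forall fun x => (Real.exp_pos _).le)]
      have h3 : ∫⁻ x in rD n r, ENNReal.ofReal (Real.exp (p * dp x y))
          = (∫⁻ x in Dl n, ENNReal.ofReal (Real.exp (p * dp x y)))
            + ∫⁻ x in rD n r \ Dl n, ENNReal.ofReal (Real.exp (p * dp x y)) := by
        conv_lhs => rw [← Set.union_sdiff_cancel (Dl_sub_rD (n := n) hr)]
        rw [lintegral_union ((isClosed_rD r).measurableSet.diff isClosed_Dl.measurableSet)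
          Set.disjoint_sdiff_right]
      rw [h1, h2] at h3
      rw [ENNReal.ofReal_sub _ hI.le, h3, ENNReal.add_sub_cancel_left ENNReal.ofReal_ne_top]
    have hz : -(1 / p) ≤ 0 := by
      have : 0 < 1 / p := by positivity
      linarith
    have h4 := tangent (a := II p y) (b := r ^ n * II p (r • y)) hI (by positivity) hz
    have e2 : (r ^ n * II p (r • y)) ^ (-(1 / p)) = r ^ (-(n * (1 / p))) * uu p (r • y) := by
      rw [Real.mul_rpow (by positivity) hIr.le, uu, ← Real.rpow_natCast, ← Real.rpow_mul h0.le]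
      congr 2
      ring
    rw [e2] at h4
    rw [e1, ← ENNReal.ofReal_mul (ww_pos hp y).le, ← ENNReal.ofReal_mul (by positivity)]
    refine le_trans (ENNReal.ofReal_le_ofReal ?_) ENNReal.ofReal_add_le
    change II p y ^ (-(1 / p)) ≤ _ + 1 / p * (II p y ^ (-(1 / p) - 1) * _)
    linarith
  have h5 : ENNReal.ofReal (JJ p n) ≤ ENNReal.ofReal (r ^ (-(n * (1 + 1 / p))) * JJ p n)
      + ENNReal.ofReal (1 / p) * ∫⁻ x in rD n r \ Dl n, ENNReal.ofReal (Nr p x) := by
    have e0 : ENNReal.ofReal (JJ p n) = ∫⁻ y : Fin n → ℝ, ENNReal.ofReal (uu p y) := by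
      rw [JJ, ofReal_integral_eq_lintegral_ofReal (integrable_uu hp n)
        (Filter.Eventually.of_forall fun y => (uu_pos hp y).le)]
    have e1 : ∫⁻ y : Fin n → ℝ, ENNReal.ofReal (r ^ (-(n * (1 / p))) * uu p (r • y))
        = ENNReal.ofReal (r ^ (-(n * (1 + 1 / p))) * JJ p n) := by
      have h6 := lint_smul (fun y : Fin n → ℝ => ENNReal.ofReal (uu p y))
        (measurable_uu p).ennreal_ofReal h0
      rw [← e0] at h6
      have h7 : ∫⁻ y : Fin n → ℝ, ENNReal.ofReal (r ^ (-(n * (1 / p))) * uu p (r • y))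
          = ENNReal.ofReal (r ^ (-(n * (1 / p)))) *
            ∫⁻ y : Fin n → ℝ, ENNReal.ofReal (uu p (r • y)) := by
        rw [← lintegral_const_mul' _ _ ENNReal.ofReal_ne_top]
        refine lintegral_congr fun y => ?_
        rw [ENNReal.ofReal_mul (by positivity)]
      have h8 : ∫⁻ y : Fin n → ℝ, ENNReal.ofReal (uu p (r • y))
          = ENNReal.ofReal ((r ^ n)⁻¹) * ENNReal.ofReal (JJ p n) := by
        rw [h6, ← mul_assoc, ← ENNReal.ofReal_mul (by positivity),
          inv_mul_cancel₀ (by positivity), ENNReal.ofReal_one, one_mul]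
      rw [h7, h8, ← ENNReal.ofReal_mul (by positivity), ← ENNReal.ofReal_mul (by positivity),
        ← mul_assoc]
      congr 2
      rw [← Real.rpow_natCast, ← Real.rpow_neg h0.le, ← Real.rpow_add h0]
      congr 1
      ring
    rw [e0, ← e1, ← tonelli hp ((isClosed_rD r).measurableSet.diff isClosed_Dl.measurableSet)
      (Set.sdiff_subset.trans (rD_sub_Big hp hr hr2)), ← lintegral_const_mul' _ _
        ENNReal.ofReal_ne_top, ← lintegral_add_left]
    · exact lintegral_mono hpt
    · exact (((measurable_uu p).comp (measurable_const_smul r)).const_mul _).ennreal_ofReal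
  -- conclusion
  have h9 : ENNReal.ofReal (JJ p n * (1 - r ^ (-(n * (1 + 1 / p)))))
      ≤ ENNReal.ofReal (1 / p) * ∫⁻ x in rD n r \ Dl n, ENNReal.ofReal (Nr p x) := by
    have : JJ p n * (1 - r ^ (-(n * (1 + 1 / p))))
        = JJ p n - r ^ (-(n * (1 + 1 / p))) * JJ p n := by ring
    rw [this, ENNReal.ofReal_sub _ (by positivity)]
    exact tsub_le_iff_left.2 h5
  have e : p * JJ p n * (1 - r ^ (-(n * (1 + 1 / p))))
      = p * (JJ p n * (1 - r ^ (-(n * (1 + 1 / p))))) := by ring
  rw [e, ENNReal.ofReal_mul hp.le]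
  calc _ ≤ ENNReal.ofReal p * (ENNReal.ofReal (1 / p) *
        ∫⁻ x in rD n r \ Dl n, ENNReal.ofReal (Nr p x)) := mul_le_mul_right h9 _
    _ = _ := by
      rw [← mul_assoc, ← ENNReal.ofReal_mul hp.le, mul_one_div_cancel hp.ne',
        ENNReal.ofReal_one, one_mul]

lemma perm_eq_Tl (σ : Equiv.Perm (Fin (m + 1))) (l : Fin (m + 1) → ℝ) :
    (fun i => l (σ i)) = Tl (ext0 σ) l := by
  apply bary_injective
  rw [bary_perm, bary_Tl]

lemma std_sub_Dl {l : Fin (m + 1) → ℝ} (hl : l ∈ stdSimplex ℝ (Fin (m + 1))) :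
    l ∈ Dl (m + 1) := by
  have := smul_std_mem hl zero_le_one le_rfl
  rwa [one_smul] at this

/-- the density on a facet -/
lemma bd_Nr {p : ℝ} (hp : 0 < p) (m : ℕ) : Bd m (Nr p : (Fin (m + 1) → ℝ) → ℝ) := by
  obtain ⟨C, _, hC⟩ := Nr_le hp (m + 1)
  refine ⟨measurable_Nr p, fun σ l => ?_, C, fun l hl => ?_⟩
  · rw [perm_eq_Tl, Nr_Tl]
  · rw [abs_of_nonneg (Nr_nonneg hp l)]
    exact hC l (Dl_sub_Big hp (std_sub_Dl hl))

lemma smul_rD {l : Fin (m + 1) → ℝ} (hl : l ∈ stdSimplex ℝ (Fin (m + 1))) {s r : ℝ}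
    (hs : 0 < s) (hr : 1 ≤ r) : s • l ∈ rD (m + 1) r \ Dl (m + 1) ↔ s ∈ Ioc 1 r := by
  have h0 : 0 < r := by linarith
  have h1 : s • l ∈ rD (m + 1) r ↔ s ≤ r := by
    simp only [rD, Set.mem_ofPred_eq, smul_smul]
    constructor
    · intro h
      by_contra hc
      refine smul_std_not_mem hl (s := r⁻¹ * s) ?_ h
      rw [inv_mul_eq_div, lt_div_iff₀ h0]
      linarith
    · intro h
      exact smul_std_mem hl (by positivity) (by rw [inv_mul_le_iff₀ h0]; linarith)
  have h2 : s • l ∈ Dl (m + 1) ↔ s ≤ 1 := by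
    constructor
    · intro h
      by_contra hc
      exact smul_std_not_mem hl (not_le.1 hc) h
    · intro h
      exact smul_std_mem hl hs.le h
  rw [Set.mem_sdiff, h1, h2, Set.mem_Ioc, not_le]
  tauto

/-- the upper bound of the first variation -/
lemma dil_upper {p : ℝ} (hp : 0 < p) (m : ℕ) : ∃ C > 0, ∀ r : ℝ, 1 ≤ r → r ≤ 1 + 1 / (4 * p) →
    ∫⁻ x in rD (m + 1) r \ Dl (m + 1), ENNReal.ofReal (Nr p x)
      ≤ ENNReal.ofReal ((m + 2) / (m + 1) * ((r - 1) * r ^ m *
        (A m (Nr p) + C * (r - 1) * V m))) := by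
  obtain ⟨C, hC, hray⟩ := Nr_ray hp (m + 1)
  refine ⟨C, hC, fun r hr hr2 => ?_⟩
  have h0 : 0 < r := by linarith
  have hbd := bd_Nr hp m
  have hmS : MeasurableSet (rD (m + 1) r \ Dl (m + 1)) :=
    (isClosed_rD r).measurableSet.diff isClosed_Dl.measurableSet
  set f : (Fin (m + 1) → ℝ) → ℝ≥0∞ :=
    (rD (m + 1) r \ Dl (m + 1)).indicator (fun x => ENNReal.ofReal (Nr p x)) with hf
  have hfm : Measurable f := (measurable_Nr p).ennreal_ofReal.indicator hmS
  have hsym : ∀ (σ : Equiv.Perm (Fin (m + 2))) (x : Fin (m + 1) → ℝ), f (Tl σ x) = f x := by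
    intro σ x
    have hiff : Tl σ x ∈ rD (m + 1) r \ Dl (m + 1) ↔ x ∈ rD (m + 1) r \ Dl (m + 1) := by
      simp only [rD, Set.mem_sdiff, Set.mem_ofPred_eq, ← map_smul, Tl_mem]
    by_cases hx : x ∈ rD (m + 1) r \ Dl (m + 1)
    · rw [hf, Set.indicator_of_mem (hiff.2 hx), Set.indicator_of_mem hx, Nr_Tl]
    · rw [hf, Set.indicator_of_notMem (fun h => hx (hiff.1 h)), Set.indicator_of_notMem hx]
  rw [← lintegral_indicator hmS, ← hf, lint_cone_radial f hfm]
  simp only [hsym, Finset.sum_const, Finset.card_univ, Fintype.card_fin, nsmul_eq_mul]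
  rw [← mul_assoc, ENNReal.ofReal_mul (by positivity)]
  have hA0 : 0 ≤ A m (Nr p) + C * (r - 1) * V m := by
    have h1 : 0 ≤ A m (Nr p) := integral_nonneg fun x => Nr_nonneg hp _
    have h2 := V_nonneg m
    have h3 : 0 ≤ r - 1 := by linarith
    positivity
  refine mul_le_mul' (le_of_eq ?_) ?_
  · rw [div_eq_mul_one_div ((m : ℝ) + 2), ENNReal.ofReal_mul (by positivity)]
    congr 1
    have : ((m : ℝ) + 2) = ((m + 1 + 1 : ℕ) : ℝ) := by push_cast; ring
    rw [this, ENNReal.ofReal_natCast]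
  · rw [← lintegral_indicator measurableSet_Ioi]
    have hle : ∀ s : ℝ, (Ioi (0 : ℝ)).indicator (fun s => ENNReal.ofReal (s ^ m) *
        ∫⁻ w in Dl m, f (s • bary w)) s
        ≤ (Ioc (1 : ℝ) r).indicator (fun _ => ENNReal.ofReal (r ^ m *
          (A m (Nr p) + C * (r - 1) * V m))) s := by
      intro s
      by_cases hs0 : s ∈ Ioi (0 : ℝ)
      · rw [Set.indicator_of_mem hs0]
        by_cases hs : s ∈ Ioc (1 : ℝ) r
        · rw [Set.indicator_of_mem hs, ENNReal.ofReal_mul (by positivity)]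
          refine mul_le_mul' (ENNReal.ofReal_le_ofReal
            (pow_le_pow_left₀ (le_of_lt hs0) hs.2 m)) ?_
          have hb2 : Bd m (fun l => Nr p l + C * (r - 1)) := hbd.add (Bd.const _)
          have e : A m (Nr p) + C * (r - 1) * V m = A m (fun l => Nr p l + C * (r - 1)) := by
            rw [A_add hbd (Bd.const _), A_const]
          rw [e, A, ofReal_integral_eq_lintegral_ofReal hb2.integrableOn]
          · refine setLIntegral_mono' isClosed_Dl.measurableSet fun w hw => ?_
            have hl := bary_mem_std hw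
            rw [hf, Set.indicator_of_mem ((smul_rD hl hs0 hr).2 hs)]
            refine ENNReal.ofReal_le_ofReal ?_
            have h3 := (hray _ (std_sub_Dl hl)).2 s hs.1.le (hs.2.trans hr2)
            have h4 : C * (s - 1) ≤ C * (r - 1) :=
              mul_le_mul_of_nonneg_left (by linarith [hs.2]) hC.le
            linarith
          · refine Filter.Eventually.of_forall fun w => ?_
            have := Nr_nonneg hp (bary w)
            have h3 : 0 ≤ C * (r - 1) := mul_nonneg hC.le (by linarith)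
            simp only [Pi.zero_apply]
            linarith
        · rw [Set.indicator_of_notMem hs]
          have : ∫⁻ w in Dl m, f (s • bary w) = 0 := by
            rw [setLIntegral_congr_fun (g := fun _ => 0) isClosed_Dl.measurableSet]
            · simp
            · intro w hw
              simp only [hf]
              rw [Set.indicator_of_notMem
                (fun h => hs ((smul_rD (bary_mem_std hw) hs0 hr).1 h))]
          rw [this, mul_zero]
      · rw [Set.indicator_of_notMem hs0]; exact zero_le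
    refine (lintegral_mono hle).trans (le_of_eq ?_)
    rw [lintegral_indicator measurableSet_Ioc, setLIntegral_const, Real.volume_Ioc,
      ← ENNReal.ofReal_mul (by positivity)]
    congr 1
    ring

/-- **The facet average.** -/
theorem facet_avg {p : ℝ} (hp : 0 < p) (m : ℕ) :
    (p + 1) * JJ p (m + 1) / V (m + 1) ≤ A m (Nr p) / V m := by
  obtain ⟨C, hC, hup⟩ := dil_upper hp m
  have hJ := JJ_pos hp (m + 1)
  have hV := V_pos m
  set q : ℝ := ((m + 1 : ℕ) : ℝ) * (1 + 1 / p) with hq
  have hq1 : 1 ≤ q := by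
    have h1 : (1 : ℝ) ≤ ((m + 1 : ℕ) : ℝ) := by
      push_cast; linarith [(Nat.cast_nonneg m : (0 : ℝ) ≤ m)]
    have h2 : (1 : ℝ) ≤ 1 + 1 / p := by
      have : 0 < 1 / p := by positivity
      linarith
    nlinarith
  have hA : 0 ≤ A m (Nr p) := integral_nonneg fun x => Nr_nonneg hp _
  have key : ∀ ε : ℝ, 0 < ε → ε ≤ 1 / (4 * p) →
      p * JJ p (m + 1) * (q / (1 + q * ε)) ≤ (m + 2) / (m + 1) * ((1 + ε) ^ m *
        (A m (Nr p) + C * ε * V m)) := by
    intro ε hε hε2
    have h1 := (dil hp (m + 1) (r := 1 + ε) (by linarith) (by linarith)).trans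
      (hup (1 + ε) (by linarith) (by linarith))
    rw [← hq] at h1
    have hr : 0 ≤ 1 + ε - 1 := by linarith
    rw [ENNReal.ofReal_le_ofReal_iff (by positivity)] at h1
    have e : 1 + ε - 1 = ε := by ring
    rw [e] at h1
    have h2 : 1 + q * ε ≤ (1 + ε) ^ q := one_add_mul_self_le_rpow_one_add (by linarith) hq1
    have h3 : 0 < 1 + q * ε := by positivity
    have h4 : (1 + ε) ^ (-q) ≤ 1 / (1 + q * ε) := by
      rw [Real.rpow_neg (by linarith), ← one_div]
      exact one_div_le_one_div_of_le h3 h2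
    have h5 : q * ε / (1 + q * ε) ≤ 1 - (1 + ε) ^ (-q) := by
      have : q * ε / (1 + q * ε) = 1 - 1 / (1 + q * ε) := by field_simp; ring
      rw [this]; linarith
    have h6 := (mul_le_mul_of_nonneg_left h5 (by positivity : 0 ≤ p * JJ p (m + 1))).trans h1
    have h7 : ε * (p * JJ p (m + 1) * (q / (1 + q * ε))) ≤ ε * ((m + 2) / (m + 1) * ((1 + ε) ^ m *
        (A m (Nr p) + C * ε * V m))) := by
      calc ε * (p * JJ p (m + 1) * (q / (1 + q * ε)))
          = p * JJ p (m + 1) * (q * ε / (1 + q * ε)) := by ring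
        _ ≤ _ := h6
        _ = _ := by ring
    exact le_of_mul_le_mul_left h7 hε
  -- the limit
  have hlim1 : Tendsto (fun ε : ℝ => p * JJ p (m + 1) * (q / (1 + q * ε))) (𝓝[>] 0)
      (𝓝 (p * JJ p (m + 1) * (q / (1 + q * 0)))) := by
    refine Tendsto.mono_left ?_ nhdsWithin_le_nhds
    refine ContinuousAt.tendsto ?_
    refine continuousAt_const.mul (continuousAt_const.div (by fun_prop) (by norm_num))
  have hlim2 : Tendsto (fun ε : ℝ => (m + 2) / (m + 1) * ((1 + ε) ^ m *
        (A m (Nr p) + C * ε * V m))) (𝓝[>] 0)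
      (𝓝 ((m + 2) / (m + 1) * ((1 + 0) ^ m * (A m (Nr p) + C * 0 * V m)))) := by
    refine Tendsto.mono_left ?_ nhdsWithin_le_nhds
    refine Continuous.tendsto (by fun_prop) 0
  have hev : ∀ᶠ ε : ℝ in 𝓝[>] 0, p * JJ p (m + 1) * (q / (1 + q * ε))
      ≤ (m + 2) / (m + 1) * ((1 + ε) ^ m * (A m (Nr p) + C * ε * V m)) := by
    have h1 : (0 : ℝ) < 1 / (4 * p) := by positivity
    filter_upwards [Ioc_mem_nhdsGT h1] with ε hε
    exact key ε hε.1 hε.2
  have hfin := le_of_tendsto_of_tendsto hlim1 hlim2 hev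
  simp only [mul_zero, add_zero, div_one, one_pow, one_mul, zero_mul] at hfin
  rw [div_le_div_iff₀ (V_pos _) hV, V_step]
  have e : p * JJ p (m + 1) * q = (m + 1) * ((p + 1) * JJ p (m + 1)) := by
    rw [hq]; push_cast; field_simp
  rw [e] at hfin
  have hm : (0 : ℝ) < m + 1 := by positivity
  have h8 : (p + 1) * JJ p (m + 1) ≤ A m (Nr p) * ((m + 2) / (m + 1) / (m + 1)) := by
    rw [← sub_nonneg] at hfin ⊢
    have : A m (Nr p) * ((m + 2) / (m + 1) / (m + 1)) - (p + 1) * JJ p (m + 1)
        = ((m + 2) / (m + 1) * A m (Nr p) - (m + 1) * ((p + 1) * JJ p (m + 1))) / (m + 1) := by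
      field_simp
    rw [this]
    exact div_nonneg hfin hm.le
  calc (p + 1) * JJ p (m + 1) * V m ≤ A m (Nr p) * ((m + 2) / (m + 1) / (m + 1)) * V m :=
        mul_le_mul_of_nonneg_right h8 hV.le
    _ = _ := by ring

end Pool.Agent.Helper77.LM

end
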