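import Pool.Agent.Helper77.LM.Gauge

/-!
Lower bound of the `L^p` Mahler volume of all translates of a convex set close to the simplex.
-/

set_option autoImplicit false

noncomputable section

open MeasureTheory Set Filter Topology
open scoped ENNReal

namespace Pool.Agent.Helper77.LM

variable {n m : ℕ}

lemma dp_neg_right (x y : Fin n → ℝ) : dp x (-y) = -dp x y := by
  simp [dp]

/-- half of the quadratic form -/
lemma box_half (n : ℕ) {a : ℝ} (ha : 0 < a) : ∃ c > 0, ∀ z : Fin n → ℝ,
    ∫ y in Bx n a, (max (dp z y) 0) ^ 2 = c * qf z := by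
  obtain ⟨c, hc, h⟩ := box_quad n ha
  refine ⟨c / 2, by positivity, fun z => ?_⟩
  have hcont : Continuous fun y : Fin n → ℝ => (max (dp z y) 0) ^ 2 := by
    unfold dp; fun_prop
  have hcont2 : Continuous fun y : Fin n → ℝ => (max (dp z (-y)) 0) ^ 2 := by
    unfold dp; fun_prop
  have h1 : ∫ y in Bx n a, (max (dp z (-y)) 0) ^ 2 = ∫ y in Bx n a, (max (dp z y) 0) ^ 2 := by
    have h2 := (Measure.measurePreserving_neg (volume : Measure (Fin n → ℝ))).setIntegral_preimage_emb
      (MeasurableEquiv.neg (Fin n → ℝ)).measurableEmbedding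
      (fun y => (max (dp z y) 0) ^ 2) (Bx n a)
    have h3 : (fun y : Fin n → ℝ => -y) ⁻¹' (Bx n a) = Bx n a := by
      ext y
      simp only [Bx, Set.mem_preimage, Set.mem_univ_pi, Set.mem_Icc, Pi.neg_apply]
      refine forall_congr' fun i => ?_
      constructor <;> rintro ⟨h1, h2⟩ <;> constructor <;> linarith
    change ∫ y in (fun y : Fin n → ℝ => -y) ⁻¹' (Bx n a), _ = _ at h2
    rw [h3] at h2
    exact h2
  have h4 : ∫ y in Bx n a, ((max (dp z y) 0) ^ 2 + (max (dp z (-y)) 0) ^ 2) = c * qf z := by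
    rw [← h z]
    refine setIntegral_congr_fun (measurableSet_Bx a) fun y _ => ?_
    simp only [dp_neg_right]
    rcases le_total 0 (dp z y) with h5 | h5
    · rw [max_eq_left h5, max_eq_right (by linarith)]; ring
    · rw [max_eq_right h5, max_eq_left (by linarith)]; ring
  rw [integral_add (integrableOn_box hcont a) (integrableOn_box hcont2 a), h1] at h4
  linarith

/-- the rotations sum to zero -/
lemma sum_rot (z : Fin n → ℝ) : ∑ k : Fin (n + 1), Tl (Equiv.addRight k) z = 0 := by
  funext j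
  simp only [Finset.sum_apply, Pi.zero_apply]
  have e : ∀ k : Fin (n + 1), Tl (Equiv.addRight k) z j
      = (Fin.cons 0 z : Fin (n + 1) → ℝ) (j.succ + k) - (Fin.cons 0 z : Fin (n + 1) → ℝ) (0 + k) :=
    fun k => rfl
  simp only [e, Finset.sum_sub_distrib]
  have h1 : ∀ i : Fin (n + 1), ∑ k, (Fin.cons 0 z : Fin (n + 1) → ℝ) (i + k)
      = ∑ k, (Fin.cons 0 z : Fin (n + 1) → ℝ) k := fun i =>
    Equiv.sum_comp (Equiv.addLeft i) _
  rw [h1, h1, sub_self]

lemma measurable_exp_dp (z : Fin n → ℝ) : Measurable fun y : Fin n → ℝ => Real.exp (dp z y) :=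
  (Real.continuous_exp.comp (continuous_dp.comp (continuous_const.prodMk continuous_id))).measurable

/-- invariance of the translated integral -/
lemma Q1_Tl (p : ℝ) (σ : Equiv.Perm (Fin (n + 1))) (z : Fin n → ℝ) :
    ∫⁻ y : Fin n → ℝ, ENNReal.ofReal (Real.exp (dp (Tl σ z) y) * uu p y)
      = ∫⁻ y : Fin n → ℝ, ENNReal.ofReal (Real.exp (dp z y) * uu p y) := by
  have h := (mp_Tt σ).lintegral_comp
    (((measurable_exp_dp z).mul (measurable_uu p)).ennreal_ofReal)
  simp only [Pi.mul_apply, uu_Tt] at h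
  simp only [dp_Tl]
  exact h

lemma exp_ge (s : ℝ) : 1 + s + (max s 0) ^ 2 / 2 ≤ Real.exp s := by
  rcases le_total 0 s with h | h
  · rw [max_eq_left h]
    exact Real.quadratic_le_exp_of_nonneg h
  · rw [max_eq_right h]
    have := Real.add_one_le_exp s
    linarith

/-- the zeroth order term -/
lemma Q1_low {p : ℝ} (hp : 0 < p) (n : ℕ) : ∃ κ > 0, ∀ z : Fin n → ℝ,
    ENNReal.ofReal (JJ p n + κ * qf z)
      ≤ ∫⁻ y : Fin n → ℝ, ENNReal.ofReal (Real.exp (dp z y) * uu p y) := by
  set a : ℝ := 1 / (n + 1) with ha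
  have ha0 : 0 < a := by positivity
  have hna : (n : ℝ) * a ≤ 1 := by
    rw [ha, mul_one_div, div_le_one (by positivity)]; linarith
  obtain ⟨c, hc, hq⟩ := box_half n ha0
  have hV := V_pos n
  have hn : (0 : ℝ) < n + 1 := by positivity
  set w1 : ℝ := (V n * Real.exp p) ^ (-(1 / p)) with hw1
  have hw1p : 0 < w1 := by positivity
  have hw : ∀ y ∈ Bx n a, w1 ≤ uu p y := by
    intro y hy
    refine Real.rpow_le_rpow_of_nonpos (II_pos hp y) ?_ (by
      have : 0 < 1 / p := by positivity
      linarith)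
    refine (II_le hp y).trans ?_
    refine mul_le_mul_of_nonneg_left (Real.exp_le_exp.2 ?_) hV.le
    have := hh_le_one hna hy
    nlinarith
  refine ⟨w1 * c / (2 * (n + 1)), by positivity, fun z => ?_⟩
  set q : (Fin n → ℝ) → ℝ := (Bx n a).indicator (fun y => w1 / (2 * (n + 1)) *
    (max (dp z y) 0) ^ 2) with hqd
  have hcont : Continuous fun y : Fin n → ℝ => w1 / (2 * (n + 1)) * (max (dp z y) 0) ^ 2 := by
    unfold dp; fun_prop
  have hqi : Integrable q := by
    rw [hqd, integrable_indicator_iff (measurableSet_Bx a)]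
    exact integrableOn_box hcont a
  have hqv : ∫ y, q y = w1 * c / (2 * (n + 1)) * qf z := by
    rw [hqd, integral_indicator (measurableSet_Bx a), integral_const_mul, hq z]
    ring
  have hsum : ∀ y : Fin n → ℝ, ((n : ℝ) + 1) * (uu p y + q y)
      ≤ ∑ k : Fin (n + 1), Real.exp (dp (Tl (Equiv.addRight k) z) y) * uu p y := by
    intro y
    rw [← Finset.sum_mul]
    have hu := uu_pos hp y
    have h0 : ∑ k : Fin (n + 1), dp (Tl (Equiv.addRight k) z) y = 0 := by
      have : ∑ k : Fin (n + 1), dp (Tl (Equiv.addRight k) z) y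
          = dp (∑ k : Fin (n + 1), Tl (Equiv.addRight k) z) y := by
        simp only [dp, Finset.sum_apply, Finset.sum_mul]
        exact Finset.sum_comm
      rw [this, sum_rot]
      simp [dp]
    have h1 : ∑ k : Fin (n + 1), (1 + dp (Tl (Equiv.addRight k) z) y
        + (max (dp (Tl (Equiv.addRight k) z) y) 0) ^ 2 / 2)
        ≤ ∑ k : Fin (n + 1), Real.exp (dp (Tl (Equiv.addRight k) z) y) :=
      Finset.sum_le_sum fun k _ => exp_ge _
    rw [Finset.sum_add_distrib, Finset.sum_add_distrib, h0] at h1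
    have h2 : (max (dp z y) 0) ^ 2 / 2 ≤ ∑ k : Fin (n + 1),
        (max (dp (Tl (Equiv.addRight k) z) y) 0) ^ 2 / 2 := by
      have e : Tl (Equiv.addRight (0 : Fin (n + 1))) z = z := by
        have : (Equiv.addRight (0 : Fin (n + 1))) = 1 := by
          ext i; simp
        rw [this, Tl_one]
      have := Finset.single_le_sum (f := fun k : Fin (n + 1) =>
        (max (dp (Tl (Equiv.addRight k) z) y) 0) ^ 2 / 2) (fun k _ => by positivity)
        (Finset.mem_univ (0 : Fin (n + 1)))
      simp only [e] at this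
      exact this
    simp only [Finset.sum_const, Finset.card_univ, Fintype.card_fin, nsmul_eq_mul, mul_one,
      add_zero] at h1
    push_cast at h1
    have h3 : ((n : ℝ) + 1) * q y ≤ (max (dp z y) 0) ^ 2 / 2 * uu p y := by
      by_cases hy : y ∈ Bx n a
      · rw [hqd, Set.indicator_of_mem hy]
        have h4 := hw y hy
        have h5 : 0 ≤ (max (dp z y) 0) ^ 2 / 2 := by positivity
        calc ((n : ℝ) + 1) * (w1 / (2 * (n + 1)) * (max (dp z y) 0) ^ 2)
            = (max (dp z y) 0) ^ 2 / 2 * w1 := by field_simp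
          _ ≤ _ := mul_le_mul_of_nonneg_left h4 h5
      · rw [hqd, Set.indicator_of_notMem hy, mul_zero]
        positivity
    have h6 : ((n : ℝ) + 1 + (max (dp z y) 0) ^ 2 / 2) * uu p y
        ≤ (∑ k : Fin (n + 1), Real.exp (dp (Tl (Equiv.addRight k) z) y)) * uu p y :=
      mul_le_mul_of_nonneg_right (by linarith) hu.le
    nlinarith
  -- integrate
  have hL : ENNReal.ofReal (((n : ℝ) + 1) * (JJ p n + w1 * c / (2 * (n + 1)) * qf z))
      ≤ ENNReal.ofReal ((n : ℝ) + 1) *
        ∫⁻ y : Fin n → ℝ, ENNReal.ofReal (Real.exp (dp z y) * uu p y) := by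
    have e1 : ((n : ℝ) + 1) * (JJ p n + w1 * c / (2 * (n + 1)) * qf z)
        = ∫ y : Fin n → ℝ, ((n : ℝ) + 1) * (uu p y + q y) := by
      rw [integral_const_mul, integral_add (integrable_uu hp n) hqi, hqv]
      rfl
    have hi : Integrable (fun y : Fin n → ℝ => ((n : ℝ) + 1) * (uu p y + q y)) :=
      ((integrable_uu hp n).add hqi).const_mul _
    rw [e1]
    refine (ofReal_integral_le hi).trans ?_
    refine (lintegral_mono fun y => ENNReal.ofReal_le_ofReal (hsum y)).trans ?_
    have e2 : ∀ y : Fin n → ℝ, ENNReal.ofReal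
        (∑ k : Fin (n + 1), Real.exp (dp (Tl (Equiv.addRight k) z) y) * uu p y)
        = ∑ k : Fin (n + 1), ENNReal.ofReal
          (Real.exp (dp (Tl (Equiv.addRight k) z) y) * uu p y) := fun y =>
      ENNReal.ofReal_sum_of_nonneg fun k _ => by
        have := uu_pos hp y
        positivity
    simp only [e2]
    rw [lintegral_finsetSum]
    · simp only [Q1_Tl, Finset.sum_const, Finset.card_univ, Fintype.card_fin, nsmul_eq_mul]
      refine le_of_eq ?_
      congr 1
      have : ((n : ℝ) + 1) = ((n + 1 : ℕ) : ℝ) := by push_cast; ring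
      rw [this, ENNReal.ofReal_natCast]
    · intro k _
      exact ((measurable_exp_dp _).mul (measurable_uu p)).ennreal_ofReal
  rw [ENNReal.ofReal_mul hn.le] at hL
  exact (ENNReal.mul_le_mul_iff_right (by simpa using hn) ENNReal.ofReal_ne_top).1 hL

/-- the exponential integral over a set -/
def IS (p : ℝ) (S : Set (Fin n → ℝ)) (y : Fin n → ℝ) : ℝ := ∫ x in S, Real.exp (p * dp x y)

lemma abs_dp_le (z y : Fin n → ℝ) : |dp z y| ≤ (∑ i, |z i|) * (n * hh y) := by
  calc |dp z y| ≤ ∑ i, |z i * y i| := Finset.abs_sum_le_sum_abs _ _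
    _ ≤ ∑ i, |z i| * (n * hh y) := by
      refine Finset.sum_le_sum fun i _ => ?_
      rw [abs_mul]
      exact mul_le_mul_of_nonneg_left (abs_le_hh y i) (abs_nonneg _)
    _ = _ := by rw [Finset.sum_mul]

lemma hh_exp (y : Fin n → ℝ) : hh y * Real.exp (-(1 / 2 * hh y)) ≤ 4 * Real.exp (-(1 / 4 * hh y)) := by
  have h1 := Real.add_one_le_exp (1 / 4 * hh y)
  have h2 := hh_nonneg y
  have h3 : hh y ≤ 4 * Real.exp (1 / 4 * hh y) := by linarith
  calc hh y * Real.exp (-(1 / 2 * hh y))
      ≤ 4 * Real.exp (1 / 4 * hh y) * Real.exp (-(1 / 2 * hh y)) :=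
        mul_le_mul_of_nonneg_right h3 (Real.exp_pos _).le
    _ = 4 * Real.exp (-(1 / 4 * hh y)) := by
      rw [mul_assoc, ← Real.exp_add]; congr 2; ring

lemma IS_le {p : ℝ} (hp : 0 < p) {D : Set (Fin n → ℝ)} (hD : MeasurableSet D) (hDs : D ⊆ Dl n)
    (y : Fin n → ℝ) : IS p D y ≤ (volume D).toReal * Real.exp (p * hh y) := by
  have hfin : volume D ≠ ∞ := ((measure_mono hDs).trans_lt isCompact_Dl.measure_lt_top).ne
  have h : IS p D y ≤ ∫ _x in D, Real.exp (p * hh y) := by
    refine setIntegral_mono_on ((integrableOn_exp p y isCompact_Dl).mono_set hDs) ?_ hD ?_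
    · exact integrableOn_const hfin
    · intro x hx
      exact Real.exp_le_exp.2 (mul_le_mul_of_nonneg_left (dp_le (hDs hx) y) hp.le)
  refine h.trans (le_of_eq ?_)
  simp only [integral_const, smul_eq_mul, Measure.real, Measure.restrict_apply_univ]

lemma IS_nonneg (p : ℝ) (D : Set (Fin n → ℝ)) (y : Fin n → ℝ) : 0 ≤ IS p D y :=
  integral_nonneg fun _ => (Real.exp_pos _).le

lemma measurable_IS (p : ℝ) (S : Set (Fin n → ℝ)) : Measurable (IS p S : (Fin n → ℝ) → ℝ) := by
  have h : Measurable (Function.uncurry fun (y x : Fin n → ℝ) => Real.exp (p * dp x y)) := by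
    refine (Real.continuous_exp.comp (continuous_const.mul
      (continuous_dp.comp (continuous_snd.prodMk continuous_fst)))).measurable
  exact (h.stronglyMeasurable.integral_prod_right' (ν := volume.restrict S)).measurable

/-- the first order term -/
lemma Q2_low {p : ℝ} (hp : 0 < p) (n : ℕ) : ∃ C > 0, ∀ (D : Set (Fin n → ℝ)), MeasurableSet D →
    D ⊆ Dl n → ∀ L : ℝ, ENNReal.ofReal L * volume D ≤ ∫⁻ x in D, ENNReal.ofReal (Nr p x) →
    ∀ z : Fin n → ℝ, ENNReal.ofReal (1 / p * (L * (volume D).toReal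
      - C * (volume D).toReal * ∑ i, |z i|))
      ≤ ∫⁻ y : Fin n → ℝ, ENNReal.ofReal (Real.exp (dp z y) * (1 / p * (ww p y * IS p D y))) := by
  obtain ⟨C, hC, hww⟩ := ww_le hp n
  have hi4 := integrable_exp_hh (n := n) (c := 1 / 4) (by norm_num)
  have hi2 := integrable_exp_hh (n := n) (c := 1 / 2) (by norm_num)
  have hI4 : 0 ≤ ∫ y : Fin n → ℝ, Real.exp (-(1 / 4 * hh y)) :=
    integral_nonneg fun y => (Real.exp_pos _).le
  refine ⟨C * n * 4 * (∫ y : Fin n → ℝ, Real.exp (-(1 / 4 * hh y))) + 1, by positivity, ?_⟩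
  intro D hD hDs L hL z
  have hfin : volume D ≠ ∞ := ((measure_mono hDs).trans_lt isCompact_Dl.measure_lt_top).ne
  set d : ℝ := (volume D).toReal with hd
  have hd0 : 0 ≤ d := ENNReal.toReal_nonneg
  set Z : ℝ := ∑ i, |z i| with hZ
  have hZ0 : 0 ≤ Z := Finset.sum_nonneg fun _ _ => abs_nonneg _
  -- pointwise bound
  have hb : ∀ y : Fin n → ℝ, ww p y * IS p D y ≤ C * d * Real.exp (-(1 / 2 * hh y)) := by
    intro y
    calc ww p y * IS p D y
        ≤ C * Real.exp (-((p + 1 / 2) * hh y)) * (d * Real.exp (p * hh y)) :=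
          mul_le_mul (hww y) (IS_le hp hD hDs y) (IS_nonneg p D y) (by positivity)
      _ = C * d * (Real.exp (-((p + 1 / 2) * hh y)) * Real.exp (p * hh y)) := by ring
      _ = _ := by rw [← Real.exp_add]; congr 2; ring
  have hn : ∀ y : Fin n → ℝ, 0 ≤ ww p y * IS p D y := fun y =>
    mul_nonneg (ww_pos hp y).le (IS_nonneg p D y)
  have hm : Measurable fun y : Fin n → ℝ => ww p y * IS p D y :=
    (measurable_ww p).mul (measurable_IS p D)
  have i1 : Integrable fun y : Fin n → ℝ => ww p y * IS p D y := by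
    refine (hi2.const_mul (C * d)).mono' hm.aestronglyMeasurable ?_
    refine Filter.Eventually.of_forall fun y => ?_
    rw [Real.norm_eq_abs, abs_of_nonneg (hn y)]
    exact hb y
  have hmd : Measurable fun y : Fin n → ℝ => dp z y :=
    (continuous_dp.comp (continuous_const.prodMk continuous_id)).measurable
  have hb2 : ∀ y : Fin n → ℝ, |dp z y * (ww p y * IS p D y)|
      ≤ (C * n * 4 * d * Z) * Real.exp (-(1 / 4 * hh y)) := by
    intro y
    rw [abs_mul, abs_of_nonneg (hn y)]
    have h1 := abs_dp_le z y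
    have h2 := hh_exp y
    have h3 := hh_nonneg y
    calc |dp z y| * (ww p y * IS p D y)
        ≤ (Z * (n * hh y)) * (C * d * Real.exp (-(1 / 2 * hh y))) :=
          mul_le_mul h1 (hb y) (hn y) (by positivity)
      _ = (C * n * d * Z) * (hh y * Real.exp (-(1 / 2 * hh y))) := by ring
      _ ≤ (C * n * d * Z) * (4 * Real.exp (-(1 / 4 * hh y))) :=
          mul_le_mul_of_nonneg_left h2 (by positivity)
      _ = _ := by ring
  have i2 : Integrable fun y : Fin n → ℝ => dp z y * (ww p y * IS p D y) := by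
    refine (hi4.const_mul (C * n * 4 * d * Z)).mono' (hmd.mul hm).aestronglyMeasurable ?_
    exact Filter.Eventually.of_forall hb2
  -- the two integrals
  have hA : L * d ≤ ∫ y : Fin n → ℝ, ww p y * IS p D y := by
    have h0 : 0 ≤ ∫ y : Fin n → ℝ, ww p y * IS p D y := integral_nonneg hn
    by_cases hL0 : L ≤ 0
    · exact (mul_nonpos_of_nonpos_of_nonneg hL0 hd0).trans h0
    rw [not_le] at hL0
    rw [← ENNReal.ofReal_le_ofReal_iff h0, ofReal_integral_eq_lintegral_ofReal i1
      (Filter.Eventually.of_forall hn), ENNReal.ofReal_mul hL0.le, hd, ENNReal.ofReal_toReal hfin]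
    refine hL.trans (le_of_eq ?_)
    rw [← tonelli hp hD (hDs.trans fun x hx => Dl_sub_Big hp hx)]
    refine lintegral_congr fun y => ?_
    rw [ENNReal.ofReal_mul (ww_pos hp y).le, IS, ofReal_integral_eq_lintegral_ofReal
      ((integrableOn_exp p y isCompact_Dl).mono_set hDs)
      (Filter.Eventually.of_forall fun x => (Real.exp_pos _).le)]
  have hB : -(C * n * 4 * (∫ y : Fin n → ℝ, Real.exp (-(1 / 4 * hh y))) * d * Z)
      ≤ ∫ y : Fin n → ℝ, dp z y * (ww p y * IS p D y) := by
    have h1 : ∫ y : Fin n → ℝ, -((C * n * 4 * d * Z) * Real.exp (-(1 / 4 * hh y)))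
        ≤ ∫ y : Fin n → ℝ, dp z y * (ww p y * IS p D y) :=
      integral_mono (hi4.const_mul _).neg i2 fun y => (abs_le.1 (hb2 y)).1
    rw [integral_neg, integral_const_mul] at h1
    linarith
  have i3 : Integrable fun y : Fin n → ℝ => 1 / p * (ww p y * IS p D y
      + dp z y * (ww p y * IS p D y)) := (i1.add i2).const_mul _
  refine le_trans ?_ ((ofReal_integral_le i3).trans ?_)
  · refine ENNReal.ofReal_le_ofReal ?_
    rw [integral_const_mul, integral_add i1 i2]
    refine mul_le_mul_of_nonneg_left ?_ (by positivity)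
    have : 0 ≤ d * Z := by positivity
    linarith
  · refine lintegral_mono fun y => ENNReal.ofReal_le_ofReal ?_
    have h1 := Real.add_one_le_exp (dp z y)
    have h2 : 0 ≤ 1 / p * (ww p y * IS p D y) := mul_nonneg (by positivity) (hn y)
    calc 1 / p * (ww p y * IS p D y + dp z y * (ww p y * IS p D y))
        = (dp z y + 1) * (1 / p * (ww p y * IS p D y)) := by ring
      _ ≤ _ := mul_le_mul_of_nonneg_right h1 h2

end Pool.Agent.Helper77.LM

end
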