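import Pool.Agent.Helper77.LM.Final

/-!
Simplices and the infimum over the translates of the standard simplex.
-/

set_option autoImplicit false

noncomputable section

open MeasureTheory Set Filter Topology
open scoped ENNReal Pointwise

namespace Pool.Agent.Helper77.LM

variable {n m : ℕ}

/-- the standard simplex -/
def stdS (n : ℕ) : Set (Fin n → ℝ) := {z | (∀ i, 0 ≤ z i) ∧ ∑ i, z i ≤ 1}

/-- simplices -/
def IsSimplex (T : Set (Fin n → ℝ)) : Prop :=
  ∃ (A : Matrix (Fin n) (Fin n) ℝ) (c : Fin n → ℝ), A.det ≠ 0 ∧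
    T = (fun x => A.mulVec x + c) '' stdS n

/-- the matrix of the inverse of the barycentric coordinates -/
def Bs (n : ℕ) : Matrix (Fin n) (Fin n) ℝ := LinearMap.toMatrix' (Lam n).symm.toLinearMap

lemma Bs_mulVec (u : Fin n → ℝ) : (Bs n).mulVec u = (Lam n).symm u := by
  rw [Bs, LinearMap.toMatrix'_mulVec]; rfl

lemma det_Bs : (Bs n).det ≠ 0 := by
  rw [Bs, LinearMap.det_toMatrix']
  exact (LinearEquiv.isUnit_det' (Lam n).symm).ne_zero

lemma mem_Dl_iff (u : Fin n → ℝ) : (Bs n).mulVec u + (fun _ => -1) ∈ Dl n ↔ u ∈ stdS n := by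
  set l : Fin (n + 1) → ℝ := Fin.cons (1 - ∑ j, u j) u with hl
  have hsum : ∑ i, l i = 1 := by rw [Fin.sum_univ_succ]; simp [hl]
  have e : (Bs n).mulVec u + (fun _ => -1) = un l := by
    funext j
    simp only [Bs_mulVec, Pi.add_apply, Lam_symm_apply, un, hl, Fin.cons_zero, Fin.cons_succ]
    ring
  rw [e]
  change (∀ i, 0 ≤ bary (un l) i) ↔ _
  rw [bary_un l hsum, Fin.forall_fin_succ]
  simp only [hl, Fin.cons_zero, Fin.cons_succ, stdS, Set.mem_ofPred_eq, sub_nonneg]
  tauto

lemma mulVec_inv {A : Matrix (Fin n) (Fin n) ℝ} (hA : A.det ≠ 0) (x : Fin n → ℝ) :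
    A.mulVec (A⁻¹.mulVec x) = x := by
  rw [Matrix.mulVec_mulVec, Matrix.mul_nonsing_inv A (isUnit_iff_ne_zero.2 hA), Matrix.one_mulVec]

lemma inv_mulVec {A : Matrix (Fin n) (Fin n) ℝ} (hA : A.det ≠ 0) (x : Fin n → ℝ) :
    A⁻¹.mulVec (A.mulVec x) = x := by
  rw [Matrix.mulVec_mulVec, Matrix.nonsing_inv_mul A (isUnit_iff_ne_zero.2 hA), Matrix.one_mulVec]

lemma det_inv_ne {A : Matrix (Fin n) (Fin n) ℝ} (hA : A.det ≠ 0) : A⁻¹.det ≠ 0 := by
  rw [Matrix.det_nonsing_inv]
  simpa using hA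

lemma simD_of_isSimplex {T : Set (Fin n → ℝ)} (h : IsSimplex T) : SimD T := by
  obtain ⟨A, c, hA, rfl⟩ := h
  refine ⟨Bs n * A⁻¹, -((Bs n * A⁻¹).mulVec c) + (fun _ => -1), ?_, ?_⟩
  · rw [Matrix.det_mul]
    exact mul_ne_zero det_Bs (det_inv_ne hA)
  · ext x
    have e : ∀ x, (Bs n * A⁻¹).mulVec x + (-((Bs n * A⁻¹).mulVec c) + (fun _ => -1))
        = (Bs n).mulVec (A⁻¹.mulVec (x - c)) + (fun _ => -1) := by
      intro x
      rw [Matrix.mulVec_sub, Matrix.mulVec_sub, ← Matrix.mulVec_mulVec, ← Matrix.mulVec_mulVec]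
      abel
    simp only [Set.mem_ofPred_eq, e, mem_Dl_iff]
    constructor
    · rintro ⟨u, hu, rfl⟩
      simp only [add_sub_cancel_right, inv_mulVec hA]
      exact hu
    · intro hx
      exact ⟨_, hx, by simp only [mulVec_inv hA, sub_add_cancel]⟩

lemma isSimplex_of_simD {T : Set (Fin n → ℝ)} (h : SimD T) : IsSimplex T := by
  obtain ⟨A, c, hA, rfl⟩ := h
  refine ⟨A⁻¹ * Bs n, A⁻¹.mulVec ((fun _ => -1) - c), ?_, ?_⟩
  · rw [Matrix.det_mul]
    exact mul_ne_zero (det_inv_ne hA) det_Bs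
  · ext x
    have e : ∀ u : Fin n → ℝ, (A⁻¹ * Bs n).mulVec u + A⁻¹.mulVec ((fun _ => -1) - c)
        = A⁻¹.mulVec ((Bs n).mulVec u + (fun _ => -1) - c) := by
      intro u
      rw [← Matrix.mulVec_mulVec, ← Matrix.mulVec_add]
      congr 1
      abel
    simp only [Set.mem_ofPred_eq, e, Set.mem_image]
    constructor
    · intro hx
      -- find the preimage
      have h1 : ∃ u, (Bs n).mulVec u + (fun _ => -1) = A.mulVec x + c :=
        ⟨(Bs n)⁻¹.mulVec (A.mulVec x + c - (fun _ => -1)), by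
          rw [mulVec_inv det_Bs, sub_add_cancel]⟩
      obtain ⟨u, hu⟩ := h1
      refine ⟨u, (mem_Dl_iff u).1 (hu ▸ hx), ?_⟩
      rw [hu, add_sub_cancel_right, inv_mulVec hA]
    · rintro ⟨u, hu, rfl⟩
      rw [mulVec_inv hA, sub_add_cancel]
      exact (mem_Dl_iff u).2 hu

lemma isClosed_stdS : IsClosed (stdS n) := by
  have : stdS n = (fun u => (Bs n).mulVec u + (fun _ => -1)) ⁻¹' (Dl n) := by
    ext u; exact (mem_Dl_iff u).symm
  rw [this]
  refine isClosed_Dl.preimage ?_
  exact (Continuous.matrix_mulVec continuous_const continuous_id).add continuous_const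

/-- the translates of the standard simplex are linear images of translates of the centered one -/
lemma MpF_std (p : ℝ) (x : Fin n → ℝ) :
    MpF p ((fun z => z - x) '' stdS n)
      = MpF p ((fun z => z - ((Bs n).mulVec x + (fun _ => -1))) '' Dl n) := by
  have hm : MeasurableSet ((fun z => z - x) '' stdS n) := by
    have e : (fun z => z - x) '' stdS n = (fun z => z + x) ⁻¹' stdS n := by
      ext z
      constructor
      · rintro ⟨y, hy, rfl⟩
        simpa using hy
      · intro hz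
        exact ⟨z + x, hz, by simp⟩
    rw [e]
    exact (isClosed_stdS.preimage (continuous_id.add continuous_const)).measurableSet
  rw [← MpF_image p (Bs n) det_Bs hm]
  congr 1
  ext z
  simp only [Set.mem_image, exists_exists_and_eq_and]
  constructor
  · rintro ⟨u, hu, rfl⟩
    refine ⟨(Bs n).mulVec u + (fun _ => -1), (mem_Dl_iff u).2 hu, ?_⟩
    rw [Matrix.mulVec_sub]
    abel
  · rintro ⟨w, hw, rfl⟩
    refine ⟨(Bs n)⁻¹.mulVec (w - (fun _ => -1)), ?_, ?_⟩
    · rw [← mem_Dl_iff, mulVec_inv det_Bs, sub_add_cancel]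
      exact hw
    · rw [Matrix.mulVec_sub, mulVec_inv det_Bs]
      abel

lemma near_Dl {η : ℝ} (h0 : 0 < η) (h1 : η < 1) (m : ℕ) : Near m η (Dl (m + 1)) where
  conv := convex_Dl
  closed := isClosed_Dl
  sub := subset_rfl
  big := fun _ hx => smul_mem_Dl hx (by linarith) (by linarith)
  cen := fun i => (Tl_mem _).2 (std_sub_Dl (ctr_mem m))

/-- the value of the infimum -/
lemma inf_eq {p : ℝ} (hp : 0 < p) (m : ℕ) :
    (⨅ x ∈ stdS (m + 1), MpF p ((fun z => z - x) '' stdS (m + 1))) = MpF p (Dl (m + 1)) := by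
  refine le_antisymm ?_ ?_
  · set x0 : Fin (m + 1) → ℝ := fun _ => 1 / ((m + 1 : ℕ) + 1) with hx0
    have hmem : x0 ∈ stdS (m + 1) := by
      refine ⟨fun _ => by simp only [hx0]; positivity, ?_⟩
      simp only [hx0, Finset.sum_const, Finset.card_univ, Fintype.card_fin, nsmul_eq_mul,
        mul_one_div]
      rw [div_le_one (by positivity)]
      linarith
    refine (iInf₂_le x0 hmem).trans (le_of_eq ?_)
    rw [MpF_std]
    have : (Bs (m + 1)).mulVec x0 + (fun _ => -1) = 0 := by
      funext j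
      simp only [Bs_mulVec, Pi.add_apply, Lam_symm_apply, hx0, Pi.zero_apply, Finset.sum_const,
        Finset.card_univ, Fintype.card_fin, nsmul_eq_mul]
      have : (((m + 1 : ℕ) : ℝ) + 1) ≠ 0 := by positivity
      field_simp
      ring
    rw [this]
    simp
  · refine le_iInf₂ fun x _ => ?_
    rw [MpF_std]
    obtain ⟨η0, δ, c, h0, h1, _, _, hlow⟩ := mp_low hp m
    have h := hlow (Dl (m + 1)) (near_Dl h0 h1 m) (by simp; linarith)
      ((Bs (m + 1)).mulVec x + (fun _ => -1))
    refine le_trans (le_of_eq ?_) h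
    rw [MpF_Dl hp]
    simp

lemma MpF_Dl_pos {p : ℝ} (hp : 0 < p) (n : ℕ) : MpF p (Dl n) ≠ 0 := by
  rw [MpF_Dl hp]
  have := V_pos n
  have := JJ_pos hp n
  simp only [ne_eq, ENNReal.ofReal_eq_zero, not_le]
  positivity

lemma MpF_Dl_ne_top {p : ℝ} (hp : 0 < p) (n : ℕ) : MpF p (Dl n) ≠ ∞ := by
  rw [MpF_Dl hp]; exact ENNReal.ofReal_ne_top

/-- simplices are convex bodies -/
lemma closure_interior_of_SimD {T : Set (Fin n → ℝ)} (h : SimD T) :
    T ⊆ closure (interior T) := by
  obtain ⟨A, c, hA, rfl⟩ := h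
  have hcv : Convex ℝ {x | A.mulVec x + c ∈ Dl n} := by
    intro x hx y hy a b ha hb hab
    have h1 := convex_Dl hx hy ha hb hab
    have e : A.mulVec (a • x + b • y) + c = a • (A.mulVec x + c) + b • (A.mulVec y + c) := by
      rw [Matrix.mulVec_add, Matrix.mulVec_smul, Matrix.mulVec_smul, smul_add, smul_add]
      have : c = a • c + b • c := by rw [← add_smul, hab, one_smul]
      conv_lhs => rw [this]
      abel
    change A.mulVec (a • x + b • y) + c ∈ Dl n
    rw [e]; exact h1
  have hcont : Continuous fun x : Fin n → ℝ => A.mulVec x + c :=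
    (Continuous.matrix_mulVec continuous_const continuous_id).add continuous_const
  have hne : (interior {x | A.mulVec x + c ∈ Dl n}).Nonempty := by
    refine ⟨A⁻¹.mulVec (-c), ?_⟩
    refine preimage_interior_subset_interior_preimage hcont ?_
    change A.mulVec (A⁻¹.mulVec (-c)) + c ∈ interior (Dl n)
    rw [mulVec_inv hA, neg_add_cancel]
    exact zero_mem_interior_Dl n
  have := hcv.closure_interior_eq_closure_of_nonempty_interior hne
  rw [this]
  exact subset_closure

/-- **The theorem.** -/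
theorem main2 {p : ℝ} (hp : 0 < p) (m : ℕ) : ∃ δ : ℝ, 0 < δ ∧ ∀ K T₀ : Set (Fin (m + 1) → ℝ),
    Convex ℝ K → IsCompact K → (interior K).Nonempty → IsSimplex T₀ → K ⊆ T₀ →
    volume T₀ ≤ ENNReal.ofReal (1 + δ) * volume K →
    ((⨅ x ∈ stdS (m + 1), MpF p ((fun z => z - x) '' stdS (m + 1))) ≤ MpF p K) ∧
    (MpF p K = (⨅ x ∈ stdS (m + 1), MpF p ((fun z => z - x) '' stdS (m + 1))) → IsSimplex K) ∧
    ∃ T : Set (Fin (m + 1) → ℝ), IsSimplex T ∧ K ⊆ T ∧ volume T ≤ volume T₀ ∧
      ENNReal.ofReal (1 + δ * ((volume T).toReal / (volume K).toReal - 1)) *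
        (⨅ x ∈ stdS (m + 1), MpF p ((fun z => z - x) '' stdS (m + 1))) ≤ MpF p K := by
  obtain ⟨δ, hδ, h⟩ := main hp m
  refine ⟨δ, hδ, ?_⟩
  intro K T₀ hcv hcp hin hT₀ hKT hvol
  obtain ⟨T, hT, hKsub, hTv, hlow⟩ := h K T₀ hcv hcp hin (simD_of_isSimplex hT₀) hKT hvol
  rw [inf_eq hp m]
  have hVK : 0 < volume K := Measure.measure_pos_of_nonempty_interior volume hin
  have hVKf : volume K ≠ ∞ := hcp.measure_lt_top.ne
  have hVT : volume T ≠ ∞ := by
    obtain ⟨A, c, hA, rfl⟩ := hT
    rw [volume_SimD A hA c]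
    exact ENNReal.mul_ne_top ENNReal.ofReal_ne_top vol_ne_top
  have hk0 : 0 < (volume K).toReal := ENNReal.toReal_pos hVK.ne' hVKf
  have hmono : (volume K).toReal ≤ (volume T).toReal :=
    ENNReal.toReal_mono hVT (measure_mono hKsub)
  have hr : 0 ≤ (volume T).toReal / (volume K).toReal - 1 := by
    rw [sub_nonneg, le_div_iff₀ hk0]; linarith
  refine ⟨?_, ?_, T, isSimplex_of_simD hT, hKsub, hTv, hlow⟩
  · refine le_trans ?_ hlow
    conv_lhs => rw [← one_mul (MpF p (Dl (m + 1)))]
    refine mul_le_mul' ?_ le_rfl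
    rw [← ENNReal.ofReal_one]
    refine ENNReal.ofReal_le_ofReal ?_
    have := mul_nonneg hδ.le hr
    linarith
  · intro heq
    rw [heq] at hlow
    have h1 : ENNReal.ofReal (1 + δ * ((volume T).toReal / (volume K).toReal - 1)) ≤ 1 := by
      by_contra hc
      rw [not_le] at hc
      have h2 : 1 * MpF p (Dl (m + 1)) < ENNReal.ofReal
          (1 + δ * ((volume T).toReal / (volume K).toReal - 1)) * MpF p (Dl (m + 1)) :=
        ENNReal.mul_lt_mul_left (MpF_Dl_pos hp _) (MpF_Dl_ne_top hp _) hc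
      rw [one_mul] at h2
      exact absurd hlow (not_le.2 h2)
    have h3 : δ * ((volume T).toReal / (volume K).toReal - 1) ≤ 0 := by
      rw [← ENNReal.ofReal_one, ENNReal.ofReal_le_ofReal_iff zero_le_one] at h1
      linarith
    have h4 : (volume T).toReal / (volume K).toReal - 1 ≤ 0 := by
      by_contra hc
      rw [not_le] at hc
      have := mul_pos hδ hc
      linarith
    have h5 : (volume T).toReal ≤ (volume K).toReal := by
      rw [sub_nonpos, div_le_one hk0] at h4
      exact h4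
    have h6 : volume T ≤ volume K := (ENNReal.toReal_le_toReal hVT hVKf).1 h5
    -- equality of the sets
    have hdiff : volume (T \ K) = 0 := by
      rw [measure_sdiff hKsub hcp.isClosed.measurableSet.nullMeasurableSet hVKf]
      exact tsub_eq_zero_of_le h6
    have hint : interior T ⊆ K := by
      intro x hx
      by_contra hxK
      have hopen : IsOpen (interior T \ K) := isOpen_interior.sdiff hcp.isClosed
      have hpos : 0 < volume (interior T \ K) := hopen.measure_pos _ ⟨x, hx, hxK⟩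
      have : volume (interior T \ K) ≤ volume (T \ K) :=
        measure_mono (Set.sdiff_subset_sdiff_left interior_subset)
      rw [hdiff] at this
      exact absurd hpos (not_lt.2 this)
    have hTK : T ⊆ K := (closure_interior_of_SimD hT).trans
      (hcp.isClosed.closure_subset_iff.2 hint)
    have : K = T := Set.Subset.antisymm hKsub hTK
    rw [this]
    exact isSimplex_of_simD hT

end Pool.Agent.Helper77.LM

end
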