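import Pool.Agent.Helper77.LM.Facet

/-!
The integral of the density over the part of the simplex outside a convex set.
-/

set_option autoImplicit false

noncomputable section

open MeasureTheory Set Filter Topology
open scoped ENNReal

namespace Pool.Agent.Helper77.LM

variable {n m : ℕ}

/-- the convex sets close to the simplex, touching all facets at their centroids -/
structure Near (m : ℕ) (η : ℝ) (K : Set (Fin (m + 1) → ℝ)) : Prop where
  conv : Convex ℝ K
  closed : IsClosed K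
  sub : K ⊆ Dl (m + 1)
  big : ∀ x ∈ Dl (m + 1), (1 - η) • x ∈ K
  cen : ∀ i : Fin (m + 2), Tl (Equiv.swap 0 i) (ctr m) ∈ K

lemma zero_mem_interior_Dl (n : ℕ) : (0 : Fin n → ℝ) ∈ interior (Dl n) := by
  rw [mem_interior]
  refine ⟨{x | ∀ i, 0 < bary x i}, fun x hx i => (hx i).le, ?_, ?_⟩
  · have : {x : Fin n → ℝ | ∀ i, 0 < bary x i} = ⋂ i, {x | 0 < bary x i} := by ext; simp
    rw [this]
    exact isOpen_iInter_of_finite fun i =>
      isOpen_lt continuous_const ((continuous_apply i).comp continuous_bary)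
  · intro i
    rw [bary_zero_eq]
    simp only [ctr]
    positivity

lemma near_nhds {η : ℝ} (hη : η < 1) {K : Set (Fin n → ℝ)}
    (h : ∀ x ∈ Dl n, (1 - η) • x ∈ K) : K ∈ 𝓝 (0 : Fin n → ℝ) := by
  have h0 : (1 - η) ≠ 0 := by linarith
  have h1 : Dl n ∈ 𝓝 (0 : Fin n → ℝ) := mem_interior_iff_mem_nhds.1 (zero_mem_interior_Dl n)
  have h2 : (fun x : Fin n → ℝ => (1 - η)⁻¹ • x) ⁻¹' (Dl n) ∈ 𝓝 (0 : Fin n → ℝ) := by
    refine (continuous_const_smul _).continuousAt.preimage_mem_nhds ?_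
    simpa using h1
  refine Filter.mem_of_superset h2 fun x hx => ?_
  have := h _ hx
  rwa [smul_smul, mul_inv_cancel₀ h0, one_smul] at this

lemma ofReal_integral_le {α : Type*} [MeasurableSpace α] {μ : Measure α} {g : α → ℝ}
    (hg : Integrable g μ) :
    ENNReal.ofReal (∫ x, g x ∂μ) ≤ ∫⁻ x, ENNReal.ofReal (g x) ∂μ := by
  have h1 : ∫ x, g x ∂μ ≤ ∫ x, max (g x) 0 ∂μ :=
    integral_mono hg hg.pos_part fun x => le_max_left _ _
  refine (ENNReal.ofReal_le_ofReal h1).trans ?_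
  rw [ofReal_integral_eq_lintegral_ofReal hg.pos_part
    (Filter.Eventually.of_forall fun x => le_max_right _ _)]
  refine lintegral_mono fun x => ?_
  simp

/-- the gauge of a near convex set on the facet -/
lemma gauge_facts {η : ℝ} (hη0 : 0 < η) (hη1 : η < 1) {K : Set (Fin (m + 1) → ℝ)}
    (hc : Convex ℝ K) (hcl : IsClosed K) (hsub : K ⊆ Dl (m + 1))
    (hbig : ∀ x ∈ Dl (m + 1), (1 - η) • x ∈ K) (hcen : ctr m ∈ K) :
    Gg m (fun l => gauge K l - 1) ∧
    (∀ l ∈ stdSimplex ℝ (Fin (m + 1)), gauge K l ≤ 1 / (1 - η)) ∧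
    (∀ l ∈ stdSimplex ℝ (Fin (m + 1)), 1 ≤ gauge K l) ∧
    (∀ (l : Fin (m + 1) → ℝ) (s : ℝ), 0 < s → (s • l ∈ K ↔ s * gauge K l ≤ 1)) := by
  have hnh : K ∈ 𝓝 (0 : Fin (m + 1) → ℝ) := near_nhds hη1 hbig
  have hmem : ∀ x, gauge K x ≤ 1 ↔ x ∈ K := by
    intro x
    rw [gauge_le_one_iff_mem_closure hc hnh, hcl.closure_eq]
  have hsm : ∀ (l : Fin (m + 1) → ℝ) (s : ℝ), 0 < s → (s • l ∈ K ↔ s * gauge K l ≤ 1) := by
    intro l s hs
    rw [← hmem, gauge_smul_of_nonneg hs.le, smul_eq_mul]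
  have hup : ∀ l ∈ stdSimplex ℝ (Fin (m + 1)), gauge K l ≤ 1 / (1 - η) := by
    intro l hl
    have h1 := (hsm l (1 - η) (by linarith)).1 (hbig l (std_sub_Dl hl))
    rw [le_div_iff₀ (by linarith)]
    linarith
  have hlow : ∀ l ∈ stdSimplex ℝ (Fin (m + 1)), 1 ≤ gauge K l := by
    intro l hl
    by_contra hlt
    rw [not_le] at hlt
    have hg0 : 0 ≤ gauge K l := gauge_nonneg l
    have hs1 : 1 < 2 / (1 + gauge K l) := by
      rw [lt_div_iff₀ (by linarith)]; linarith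
    have hin : (2 / (1 + gauge K l)) • l ∈ K := by
      rw [hsm l _ (by positivity), div_mul_eq_mul_div, div_le_one (by linarith)]
      linarith
    exact smul_std_not_mem hl hs1 (hsub hin)
  refine ⟨⟨?_, ?_, ?_, ?_, ?_⟩, hup, hlow, hsm⟩
  · exact (continuous_gauge hc hnh).measurable.sub_const 1
  · refine ⟨1 / (1 - η), fun l hl => ?_⟩
    rw [abs_of_nonneg (by linarith [hlow l hl])]
    linarith [hup l hl]
  · refine ⟨convex_stdSimplex ℝ _, ?_⟩
    intro x _ y _ a b ha hb hab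
    simp only [smul_eq_mul]
    have h1 := gauge_add_le hc (absorbent_nhds_zero hnh) (a • x) (b • y)
    rw [gauge_smul_of_nonneg ha, gauge_smul_of_nonneg hb] at h1
    simp only [smul_eq_mul] at h1
    linarith
  · intro l hl
    linarith [hlow l hl]
  · have h1 := (hmem _).2 hcen
    have h2 := hlow _ (ctr_mem m)
    linarith

/-- the integral over a ray, lower bound -/
lemma ray_low {γ η C N0 : ℝ} (m : ℕ) (hη0 : 0 < η) (hη1 : η < 1) (hγ1 : 1 ≤ γ)
    (hγ2 : γ ≤ 1 / (1 - η)) (hC : 0 < C) (hN0 : 0 ≤ N0) (F : ℝ → ℝ)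
    (hF : ∀ s : ℝ, 0 ≤ s → s ≤ 1 → N0 - C * (1 - s) ≤ F s) :
    ENNReal.ofReal ((1 - η) ^ (m + 1) * (N0 * (γ - 1)) - C * η * (γ - 1))
      ≤ ∫⁻ s in Ioc (1 / γ) 1, ENNReal.ofReal (s ^ m) * ENNReal.ofReal (F s) := by
  have hγ0 : 0 < γ := by linarith
  have h1η : 0 < 1 - η := by linarith
  have hinv : 1 - η ≤ 1 / γ := by
    rw [le_div_iff₀ hγ0]
    rw [le_div_iff₀ h1η] at hγ2
    linarith
  have hinv1 : 1 / γ ≤ 1 := by rw [div_le_one hγ0]; exact hγ1
  have h1 : ∫⁻ _s in Ioc (1 / γ) 1, ENNReal.ofReal ((1 / γ) ^ m) *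
      ENNReal.ofReal (N0 - C * η)
      ≤ ∫⁻ s in Ioc (1 / γ) 1, ENNReal.ofReal (s ^ m) * ENNReal.ofReal (F s) := by
    refine setLIntegral_mono' measurableSet_Ioc fun s hs => ?_
    have hs0 : 0 < s := lt_trans (by positivity) hs.1
    refine mul_le_mul' (ENNReal.ofReal_le_ofReal
      (pow_le_pow_left₀ (by positivity) hs.1.le m)) (ENNReal.ofReal_le_ofReal ?_)
    have h2 := hF s hs0.le hs.2
    have h3 : C * (1 - s) ≤ C * η := mul_le_mul_of_nonneg_left (by linarith [hs.1]) hC.le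
    linarith
  refine le_trans ?_ h1
  rw [setLIntegral_const, Real.volume_Ioc, ← ENNReal.ofReal_mul (by positivity)]
  have hd : 0 ≤ 1 - 1 / γ := by linarith
  by_cases hneg : N0 - C * η ≤ 0
  · refine le_trans (ENNReal.ofReal_le_ofReal (q := 0) ?_) (by simp)
    have h4 : (1 - η) ^ (m + 1) ≤ 1 := pow_le_one₀ h1η.le (by linarith)
    have h5 : (1 - η) ^ (m + 1) * N0 ≤ N0 := by nlinarith
    have h6 : 0 ≤ γ - 1 := by linarith
    have h7 : (1 - η) ^ (m + 1) * (N0 * (γ - 1)) - C * η * (γ - 1)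
        = ((1 - η) ^ (m + 1) * N0 - C * η) * (γ - 1) := by ring
    rw [h7]
    exact mul_nonpos_of_nonpos_of_nonneg (by linarith) h6
  · rw [not_le] at hneg
    rw [← ENNReal.ofReal_mul (by positivity)]
    refine ENNReal.ofReal_le_ofReal ?_
    -- the real inequality
    have e1 : 1 - 1 / γ = (γ - 1) * (1 / γ) := by field_simp
    have h2 : (1 - η) ^ (m + 1) ≤ (1 / γ) ^ (m + 1) := pow_le_pow_left₀ h1η.le hinv _
    have h3 : (1 / γ) ^ (m + 1) ≤ 1 := pow_le_one₀ (by positivity) hinv1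
    have h6 : 0 ≤ γ - 1 := by linarith
    have h7 : (1 / γ) ^ m * (N0 - C * η) * (1 - 1 / γ)
        = (γ - 1) * ((1 / γ) ^ (m + 1) * N0 - (1 / γ) ^ (m + 1) * (C * η)) := by
      rw [e1, pow_succ]; ring
    rw [h7]
    have h8 : (1 - η) ^ (m + 1) * N0 ≤ (1 / γ) ^ (m + 1) * N0 :=
      mul_le_mul_of_nonneg_right h2 hN0
    have h9 : (1 / γ) ^ (m + 1) * (C * η) ≤ C * η := by
      have : 0 ≤ C * η := by positivity
      nlinarith
    have h10 := mul_le_mul_of_nonneg_left (sub_le_sub h8 h9) h6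
    linarith

/-- the measure of a ray, upper bound -/
lemma ray_up {γ : ℝ} (m : ℕ) (hγ1 : 1 ≤ γ) :
    ∫⁻ s in Ioc (1 / γ) 1, ENNReal.ofReal (s ^ m) ≤ ENNReal.ofReal (γ - 1) := by
  have hγ0 : 0 < γ := by linarith
  have h1 : ∫⁻ s in Ioc (1 / γ) 1, ENNReal.ofReal (s ^ m)
      ≤ ∫⁻ _s in Ioc (1 / γ) 1, 1 := by
    refine setLIntegral_mono' measurableSet_Ioc fun s hs => ?_
    have hs0 : 0 < s := lt_trans (by positivity) hs.1
    rw [← ENNReal.ofReal_one]
    exact ENNReal.ofReal_le_ofReal (pow_le_one₀ hs0.le hs.2)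
  refine h1.trans ?_
  rw [setLIntegral_const, Real.volume_Ioc, one_mul]
  refine ENNReal.ofReal_le_ofReal ?_
  have e1 : 1 - 1 / γ = (γ - 1) * (1 / γ) := by field_simp
  have : 1 / γ ≤ 1 := by rw [div_le_one hγ0]; exact hγ1
  rw [e1]
  nlinarith

/-- the cone formula for functions supported outside a near convex set -/
lemma outside_formula {η : ℝ} (hη0 : 0 < η) (hη1 : η < 1) {K : Set (Fin (m + 1) → ℝ)}
    (hK : Near m η K) (g : (Fin (m + 1) → ℝ) → ℝ≥0∞) (hg : Measurable g)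
    (hsym : ∀ (σ : Equiv.Perm (Fin (m + 2))) x, g (Tl σ x) = g x) :
    ∫⁻ x in Dl (m + 1) \ K, g x = ∑ i : Fin (m + 1 + 1), ENNReal.ofReal (1 / (m + 1)) *
      ∫⁻ w in Dl m, ∫⁻ s in Ioc (1 / gauge ((Tl (Equiv.swap 0 i) :
        (Fin (m + 1) → ℝ) → (Fin (m + 1) → ℝ)) ⁻¹' K) (bary w)) 1,
        ENNReal.ofReal (s ^ m) * g (s • bary w) := by
  have hmS : MeasurableSet (Dl (m + 1) \ K) :=
    isClosed_Dl.measurableSet.diff hK.closed.measurableSet
  rw [← lintegral_indicator hmS, lint_cone_radial _ (hg.indicator hmS)]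
  refine Finset.sum_congr rfl fun i _ => ?_
  congr 1
  set T : (Fin (m + 1) → ℝ) →ₗ[ℝ] (Fin (m + 1) → ℝ) := Tl (Equiv.swap 0 i) with hT
  set Ki : Set (Fin (m + 1) → ℝ) := (T : (Fin (m + 1) → ℝ) → (Fin (m + 1) → ℝ)) ⁻¹' K with hKi
  have hTc : Continuous (T : (Fin (m + 1) → ℝ) → (Fin (m + 1) → ℝ)) :=
    LinearMap.continuous_of_finiteDimensional _
  have hTT : ∀ x, T (T x) = x := by
    intro x
    rw [hT, Tl_Tl, Equiv.swap_mul_self, Tl_one]
  obtain ⟨_, _, hlow, hsm⟩ := gauge_facts hη0 hη1 (K := Ki) (hK.conv.linear_preimage T)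
    (hK.closed.preimage hTc)
    (fun x hx => (Tl_mem (Equiv.swap 0 i)).1 (hK.sub hx))
    (fun x hx => by
      change T ((1 - η) • x) ∈ K
      rw [map_smul]
      exact hK.big _ ((Tl_mem (Equiv.swap 0 i)).2 hx))
    (hK.cen i)
  -- pass the power inside and swap
  have hm2 : Measurable fun q : ℝ × (Fin m → ℝ) => ENNReal.ofReal (q.1 ^ m) *
      (Dl (m + 1) \ K).indicator g (T (q.1 • bary q.2)) := by
    refine Measurable.mul (measurable_fst.pow_const m).ennreal_ofReal ?_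
    refine (hg.indicator hmS).comp (hTc.measurable.comp ?_)
    exact (continuous_fst.smul (continuous_bary.comp continuous_snd)).measurable
  have e1 : ∀ s : ℝ, ENNReal.ofReal (s ^ m) *
      ∫⁻ w in Dl m, (Dl (m + 1) \ K).indicator g (T (s • bary w))
      = ∫⁻ w in Dl m, ENNReal.ofReal (s ^ m) *
        (Dl (m + 1) \ K).indicator g (T (s • bary w)) := by
    intro s
    rw [lintegral_const_mul' _ _ ENNReal.ofReal_ne_top]
  simp only [e1]
  rw [lintegral_lintegral_swap hm2.aemeasurable]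
  refine setLIntegral_congr_fun isClosed_Dl.measurableSet fun w hw => ?_
  have hl := bary_mem_std hw
  have hg1 := hlow _ hl
  have hg0 : 0 < gauge Ki (bary w) := by linarith
  rw [← lintegral_indicator measurableSet_Ioi, ← lintegral_indicator measurableSet_Ioc]
  refine lintegral_congr fun s => ?_
  by_cases hs0 : s ∈ Ioi (0 : ℝ)
  · rw [Set.indicator_of_mem hs0]
    have hs0' : 0 < s := hs0
    have hiff : T (s • bary w) ∈ Dl (m + 1) \ K ↔ s ∈ Ioc (1 / gauge Ki (bary w)) 1 := by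
      have h1 : T (s • bary w) ∈ Dl (m + 1) ↔ s ≤ 1 := by
        rw [hT, Tl_mem]
        constructor
        · intro h
          by_contra hc
          exact smul_std_not_mem hl (not_le.1 hc) h
        · intro h
          exact smul_std_mem hl hs0'.le h
      have h2 : T (s • bary w) ∈ K ↔ s * gauge Ki (bary w) ≤ 1 := hsm (bary w) s hs0'
      rw [Set.mem_sdiff, h1, h2, Set.mem_Ioc, not_le, div_lt_iff₀ hg0]
      tauto
    by_cases hs : s ∈ Ioc (1 / gauge Ki (bary w)) 1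
    · rw [Set.indicator_of_mem hs, Set.indicator_of_mem (hiff.2 hs), hT, hsym]
    · rw [Set.indicator_of_notMem hs, Set.indicator_of_notMem (fun h => hs (hiff.1 h)), mul_zero]
  · rw [Set.indicator_of_notMem hs0, Set.indicator_of_notMem]
    intro hs
    exact hs0 (lt_trans (by positivity) hs.1)

/-- **The main first order estimate.** -/
theorem first_order {p : ℝ} (hp : 0 < p) (m : ℕ) :
    ∃ L η0 : ℝ, (p + 1) * JJ p (m + 1) / V (m + 1) < L ∧ 0 < η0 ∧ η0 < 1 ∧
      ∀ K : Set (Fin (m + 1) → ℝ), Near m η0 K →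
        ENNReal.ofReal L * volume (Dl (m + 1) \ K)
          ≤ ∫⁻ x in Dl (m + 1) \ K, ENNReal.ofReal (Nr p x) := by
  obtain ⟨c, hc, hkl⟩ := kl m
  obtain ⟨κ, hκ, huc⟩ := uconv hp (m + 1)
  obtain ⟨C, hC, hray⟩ := Nr_ray hp (m + 1)
  have hJ := JJ_pos hp (m + 1)
  have hV := V_pos (m + 1)
  set a : ℝ := (p + 1) * JJ p (m + 1) / V (m + 1) with ha
  have ha0 : 0 < a := by positivity
  -- choice of `η0`
  have hlim : Tendsto (fun η : ℝ => (1 - η) ^ (m + 1) * (a + κ * c) - C * η) (𝓝[>] 0)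
      (𝓝 ((1 - 0) ^ (m + 1) * (a + κ * c) - C * 0)) := by
    refine Tendsto.mono_left ?_ nhdsWithin_le_nhds
    exact Continuous.tendsto (by fun_prop) 0
  have hlt : a + κ * c / 2 < (1 - 0) ^ (m + 1) * (a + κ * c) - C * 0 := by
    have : 0 < κ * c := by positivity
    simp only [sub_zero, one_pow, one_mul, mul_zero]
    linarith
  have hev := (hlim.eventually (lt_mem_nhds hlt)).and (Ioo_mem_nhdsGT (zero_lt_one (α := ℝ)))
  obtain ⟨η0, hη, hη01⟩ := hev.exists
  refine ⟨a + κ * c / 2, η0, by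
    have : 0 < κ * c := by positivity
    linarith, hη01.1, hη01.2, fun K hK => ?_⟩
  have hbd := bd_Nr hp m
  -- upper bound for the volume
  have hvol : volume (Dl (m + 1) \ K) = ∫⁻ _x in Dl (m + 1) \ K, 1 := by
    rw [setLIntegral_const, one_mul]
  rw [hvol, outside_formula hη01.1 hη01.2 hK (fun _ => 1) measurable_const (fun _ _ => rfl),
    outside_formula hη01.1 hη01.2 hK (fun x => ENNReal.ofReal (Nr p x))
      (measurable_Nr p).ennreal_ofReal (fun σ x => by rw [Nr_Tl]), Finset.mul_sum]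
  refine Finset.sum_le_sum fun i _ => ?_
  rw [← mul_assoc, mul_comm (ENNReal.ofReal (a + κ * c / 2)), mul_assoc]
  refine mul_le_mul_right ?_ _
  set T : (Fin (m + 1) → ℝ) →ₗ[ℝ] (Fin (m + 1) → ℝ) := Tl (Equiv.swap 0 i) with hT
  set Ki : Set (Fin (m + 1) → ℝ) := (T : (Fin (m + 1) → ℝ) → (Fin (m + 1) → ℝ)) ⁻¹' K with hKi
  have hTc : Continuous (T : (Fin (m + 1) → ℝ) → (Fin (m + 1) → ℝ)) :=
    LinearMap.continuous_of_finiteDimensional _
  obtain ⟨hGg, hupp, hlow, hsm⟩ := gauge_facts hη01.1 hη01.2 (K := Ki)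
    (hK.conv.linear_preimage T)
    (hK.closed.preimage hTc)
    (fun x hx => (Tl_mem (Equiv.swap 0 i)).1 (hK.sub hx))
    (fun x hx => by
      change T ((1 - η0) • x) ∈ K
      rw [map_smul]
      exact hK.big _ ((Tl_mem (Equiv.swap 0 i)).2 hx))
    (hK.cen i)
  set β : (Fin (m + 1) → ℝ) → ℝ := fun l => gauge Ki l - 1 with hβ
  have iβ : IntegrableOn (fun w => β (bary w)) (Dl m) := integrableOn_of_bd hGg.meas hGg.bdd
  have hβn : 0 ≤ A m β := by
    refine setIntegral_nonneg isClosed_Dl.measurableSet fun w hw => ?_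
    exact hGg.nonneg _ (bary_mem_std hw)
  -- the volume part
  have h1 : ∫⁻ w in Dl m, ∫⁻ s in Ioc (1 / gauge Ki (bary w)) 1, ENNReal.ofReal (s ^ m) * 1
      ≤ ENNReal.ofReal (A m β) := by
    rw [A, ofReal_integral_eq_lintegral_ofReal iβ]
    · refine setLIntegral_mono' isClosed_Dl.measurableSet fun w hw => ?_
      simp only [mul_one]
      exact ray_up m (hlow _ (bary_mem_std hw))
    · refine (ae_restrict_iff' isClosed_Dl.measurableSet).2 (Filter.Eventually.of_forall ?_)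
      intro w hw
      exact hGg.nonneg _ (bary_mem_std hw)
  -- the density part
  have hNβ : ∃ C', ∀ l ∈ stdSimplex ℝ (Fin (m + 1)), |Nr p l * β l| ≤ C' := by
    obtain ⟨C1, h1⟩ := hbd.bdd
    obtain ⟨C2, h2⟩ := hGg.bdd
    refine ⟨C1 * C2, fun l hl => ?_⟩
    rw [abs_mul]
    exact mul_le_mul (h1 l hl) (h2 l hl) (abs_nonneg _) ((abs_nonneg _).trans (h1 l hl))
  have iNβ : IntegrableOn (fun w => Nr p (bary w) * β (bary w)) (Dl m) :=
    integrableOn_of_bd (f := fun l => Nr p l * β l) (hbd.meas.mul hGg.meas) hNβ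
  have ig : IntegrableOn (fun w => (1 - η0) ^ (m + 1) * (Nr p (bary w) * β (bary w))
      - C * η0 * β (bary w)) (Dl m) := (iNβ.const_mul _).sub (iβ.const_mul _)
  have h2 : ENNReal.ofReal (∫ w in Dl m, ((1 - η0) ^ (m + 1) * (Nr p (bary w) * β (bary w))
      - C * η0 * β (bary w))) ≤ ∫⁻ w in Dl m, ∫⁻ s in Ioc (1 / gauge Ki (bary w)) 1,
        ENNReal.ofReal (s ^ m) * ENNReal.ofReal (Nr p (s • bary w)) := by
    refine (ofReal_integral_le ig).trans ?_
    refine setLIntegral_mono' isClosed_Dl.measurableSet fun w hw => ?_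
    have hl := bary_mem_std hw
    exact ray_low m hη01.1 hη01.2 (hlow _ hl) (hupp _ hl) hC (Nr_nonneg hp _)
      (fun s => Nr p (s • bary w)) (fun s h0 h1 => (hray _ (std_sub_Dl hl)).1 s h0 h1)
  refine le_trans ?_ h2
  have h3 : ENNReal.ofReal (a + κ * c / 2) *
      ∫⁻ w in Dl m, ∫⁻ s in Ioc (1 / gauge Ki (bary w)) 1, ENNReal.ofReal (s ^ m) * 1
      ≤ ENNReal.ofReal ((a + κ * c / 2) * A m β) := by
    rw [ENNReal.ofReal_mul (by positivity)]
    exact mul_le_mul_right h1 _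
  refine h3.trans (ENNReal.ofReal_le_ofReal ?_)
  rw [integral_sub (iNβ.const_mul _) (iβ.const_mul _), integral_const_mul, integral_const_mul]
  have h4 := hkl (Nr p) β κ hκ.le hbd ?_ hGg
  · have h5 := facet_avg hp m
    rw [← ha] at h5
    have h6 : (a + κ * c) * A m β ≤ A m (fun l => Nr p l * β l) :=
      (mul_le_mul_of_nonneg_right (by linarith) hβn).trans h4
    have h7 : 0 ≤ (1 - η0) ^ (m + 1) := pow_nonneg (by linarith [hη01.2]) _
    have h8 := mul_le_mul_of_nonneg_left h6 h7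
    have h9 := mul_le_mul_of_nonneg_right hη.le hβn
    change _ ≤ (1 - η0) ^ (m + 1) * A m (fun l => Nr p l * β l) - C * η0 * A m β
    nlinarith
  · refine (huc.subset (fun l hl => std_sub_Dl hl) (convex_stdSimplex ℝ _))

end Pool.Agent.Helper77.LM

end
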