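import Pool.Agent.Helper77.LM.Cone

/-!
Positive correlation of symmetric convex functions on a simplex.
-/

set_option autoImplicit false

noncomputable section

open MeasureTheory Set
open scoped ENNReal

namespace Pool.Agent.Helper77.LM

variable {n : ℕ}

/-- symmetric bounded measurable functions on the simplex of barycentric coordinates -/
structure Bd (n : ℕ) (f : (Fin (n + 1) → ℝ) → ℝ) : Prop where
  meas : Measurable f
  sym : ∀ (σ : Equiv.Perm (Fin (n + 1))) (l : Fin (n + 1) → ℝ), f (fun i => l (σ i)) = f l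
  bdd : ∃ C, ∀ l ∈ stdSimplex ℝ (Fin (n + 1)), |f l| ≤ C

/-- symmetric bounded measurable convex functions -/
structure Cls (n : ℕ) (f : (Fin (n + 1) → ℝ) → ℝ) : Prop extends Bd n f where
  conv : ConvexOn ℝ (stdSimplex ℝ (Fin (n + 1))) f

/-- integral over the simplex -/
def A (n : ℕ) (f : (Fin (n + 1) → ℝ) → ℝ) : ℝ := ∫ x in Dl n, f (bary x)

/-- volume of the simplex -/
def V (n : ℕ) : ℝ := (volume (Dl n)).toReal

lemma vol_ne_top : volume (Dl n) ≠ ∞ := isCompact_Dl.measure_lt_top.ne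

lemma V_nonneg (n : ℕ) : 0 ≤ V n := ENNReal.toReal_nonneg

lemma A_const (n : ℕ) (c : ℝ) : A n (fun _ => c) = c * V n := by
  simp only [A, V, integral_const, smul_eq_mul, Measure.real, Measure.restrict_apply_univ]
  ring

lemma A_one (n : ℕ) : A n (fun _ => 1) = V n := by rw [A_const, one_mul]

lemma bary_mem_std {x : Fin n → ℝ} (hx : x ∈ Dl n) : bary x ∈ stdSimplex ℝ (Fin (n + 1)) :=
  ⟨hx, sum_bary x⟩

lemma tt_smul_std {l : Fin (n + 1) → ℝ} (hl : l ∈ stdSimplex ℝ (Fin (n + 1))) (s : ℝ) :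
    tt (s • l) = (1 - s) / (n + 2) := by
  have h : ∑ j, l j = 1 := hl.2
  simp only [tt, Pi.smul_apply, smul_eq_mul, ← Finset.mul_sum, h, mul_one]
  push_cast
  congr 1
  ring

lemma smul_std_mem {l : Fin (n + 1) → ℝ} (hl : l ∈ stdSimplex ℝ (Fin (n + 1))) {s : ℝ}
    (h0 : 0 ≤ s) (h1 : s ≤ 1) : s • l ∈ Dl (n + 1) := by
  have ht : 0 ≤ tt (s • l) := by
    rw [tt_smul_std hl]
    exact div_nonneg (by linarith) (by positivity)
  intro i
  refine Fin.cases ?_ (fun j => ?_) i
  · simpa using ht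
  · simp only [bary_succ, Pi.smul_apply, smul_eq_mul]
    have := mul_nonneg h0 (hl.1 j)
    linarith

lemma bary_std {l : Fin (n + 1) → ℝ} (hl : l ∈ stdSimplex ℝ (Fin (n + 1))) {s : ℝ}
    (h0 : 0 ≤ s) (h1 : s ≤ 1) : bary (s • l) ∈ stdSimplex ℝ (Fin (n + 2)) :=
  bary_mem_std (smul_std_mem hl h0 h1)

lemma smul_std_not_mem {l : Fin (n + 1) → ℝ} (hl : l ∈ stdSimplex ℝ (Fin (n + 1))) {s : ℝ}
    (h1 : 1 < s) : s • l ∉ Dl (n + 1) := by
  intro h
  have h2 := h 0
  rw [bary_zero, tt_smul_std hl] at h2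
  have : (1 - s) / ((n : ℝ) + 2) < 0 := div_neg_of_neg_of_pos (by linarith) (by positivity)
  linarith

/-- restriction to a scaled facet -/
def Ts (s : ℝ) (f : (Fin (n + 2) → ℝ) → ℝ) : (Fin (n + 1) → ℝ) → ℝ := fun l => f (bary (s • l))

/-- extension of a permutation fixing the index `0` -/
def ext0 (σ : Equiv.Perm (Fin (n + 1))) : Equiv.Perm (Fin (n + 2)) :=
  Equiv.Perm.decomposeFin.symm (0, σ)

lemma bary_perm (σ : Equiv.Perm (Fin (n + 1))) (l : Fin (n + 1) → ℝ) :
    bary (fun i => l (σ i)) = fun i => bary l (ext0 σ i) := by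
  have ht : tt (fun i => l (σ i)) = tt l := by
    simp only [tt, Equiv.sum_comp σ (fun i => l i)]
  funext i
  refine Fin.cases ?_ (fun j => ?_) i
  · simp [ext0, ht]
  · simp [ext0, ht]

lemma Bd.ts {f : (Fin (n + 2) → ℝ) → ℝ} (hf : Bd (n + 1) f) {s : ℝ} (h0 : 0 ≤ s) (h1 : s ≤ 1) :
    Bd n (Ts s f) := by
  refine ⟨?_, ?_, ?_⟩
  · exact hf.meas.comp (continuous_bary.measurable.comp (measurable_const_smul s))
  · intro σ l
    have : (s • fun i => l (σ i)) = fun i => (s • l) (σ i) := rfl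
    simp only [Ts]
    rw [this, bary_perm, hf.sym]
  · obtain ⟨C, hC⟩ := hf.bdd
    exact ⟨C, fun l hl => hC _ (bary_std hl h0 h1)⟩

lemma Cls.ts {f : (Fin (n + 2) → ℝ) → ℝ} (hf : Cls (n + 1) f) {s : ℝ} (h0 : 0 ≤ s)
    (h1 : s ≤ 1) : Cls n (Ts s f) := by
  refine ⟨hf.toBd.ts h0 h1, convex_stdSimplex ℝ _, ?_⟩
  intro x hx y hy a b ha hb hab
  have := hf.conv.2 (bary_std hx h0 h1) (bary_std hy h0 h1) ha hb hab
  simp only [Ts]
  rw [← bary_add_smul _ _ hab] at this
  have e : s • (a • x + b • y) = a • s • x + b • s • y := by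
    rw [smul_add, smul_comm s a, smul_comm s b]
  rw [e]
  exact this

lemma Bd.integrableOn {f : (Fin (n + 1) → ℝ) → ℝ} (hf : Bd n f) :
    IntegrableOn (fun x => f (bary x)) (Dl n) := by
  obtain ⟨C, hC⟩ := hf.bdd
  refine Measure.integrableOn_of_bounded (M := C) vol_ne_top
    (hf.meas.comp continuous_bary.measurable).aestronglyMeasurable ?_
  refine (ae_restrict_iff' isClosed_Dl.measurableSet).2 (Filter.Eventually.of_forall ?_)
  intro x hx
  exact hC _ (bary_mem_std hx)

lemma Bd.mul {f g : (Fin (n + 1) → ℝ) → ℝ} (hf : Bd n f) (hg : Bd n g) :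
    Bd n (fun l => f l * g l) := by
  obtain ⟨C, hC⟩ := hf.bdd
  obtain ⟨D, hD⟩ := hg.bdd
  refine ⟨hf.meas.mul hg.meas, fun σ l => by rw [hf.sym, hg.sym], C * D, fun l hl => ?_⟩
  rw [abs_mul]
  exact mul_le_mul (hC l hl) (hD l hl) (abs_nonneg _) ((abs_nonneg _).trans (hC l hl))

lemma Bd.add {f g : (Fin (n + 1) → ℝ) → ℝ} (hf : Bd n f) (hg : Bd n g) :
    Bd n (fun l => f l + g l) := by
  obtain ⟨C, hC⟩ := hf.bdd
  obtain ⟨D, hD⟩ := hg.bdd
  refine ⟨hf.meas.add hg.meas, fun σ l => by rw [hf.sym, hg.sym], C + D, fun l hl => ?_⟩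
  exact (abs_add_le _ _).trans (add_le_add (hC l hl) (hD l hl))

lemma Bd.const (c : ℝ) : Bd n (fun _ => c) :=
  ⟨measurable_const, fun _ _ => rfl, |c|, fun _ _ => le_rfl⟩

lemma A_add {f g : (Fin (n + 1) → ℝ) → ℝ} (hf : Bd n f) (hg : Bd n g) :
    A n (fun l => f l + g l) = A n f + A n g :=
  integral_add hf.integrableOn hg.integrableOn

lemma A_mul_const (c : ℝ) (f : (Fin (n + 1) → ℝ) → ℝ) :
    A n (fun l => c * f l) = c * A n f := by
  simp only [A, integral_const_mul]

lemma A_mono {f g : (Fin (n + 1) → ℝ) → ℝ} (hf : Bd n f) (hg : Bd n g)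
    (h : ∀ l ∈ stdSimplex ℝ (Fin (n + 1)), f l ≤ g l) : A n f ≤ A n g := by
  refine setIntegral_mono_on hf.integrableOn hg.integrableOn isClosed_Dl.measurableSet ?_
  intro x hx
  exact h _ (bary_mem_std hx)

lemma A_congr {f g : (Fin (n + 1) → ℝ) → ℝ}
    (h : ∀ l ∈ stdSimplex ℝ (Fin (n + 1)), f l = g l) : A n f = A n g := by
  refine setIntegral_congr_fun isClosed_Dl.measurableSet ?_
  intro x hx
  exact h _ (bary_mem_std hx)

lemma A_abs_le {f : (Fin (n + 1) → ℝ) → ℝ} {C : ℝ}
    (hC : ∀ l ∈ stdSimplex ℝ (Fin (n + 1)), |f l| ≤ C) : |A n f| ≤ C * V n := by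
  have := norm_setIntegral_le_of_norm_le_const (μ := volume) (s := Dl n)
    (f := fun x => f (bary x)) (C := C) isCompact_Dl.measure_lt_top
    (fun x hx => hC _ (bary_mem_std hx))
  simpa [A, V, Measure.real] using this

lemma measurable_A_Ts {f : (Fin (n + 2) → ℝ) → ℝ} (hf : Measurable f) :
    Measurable (fun s => A n (Ts s f)) := by
  have h : Measurable (Function.uncurry fun (s : ℝ) (w : Fin n → ℝ) => Ts s f (bary w)) := by
    refine hf.comp (continuous_bary.measurable.comp ?_)
    exact (continuous_fst.smul (continuous_bary.comp continuous_snd)).measurable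
  exact (h.stronglyMeasurable.integral_prod_right (ν := volume.restrict (Dl n))).measurable

/-- The recursion for nonnegative functions. -/
lemma A_step_nonneg {f : (Fin (n + 2) → ℝ) → ℝ} (hf : Bd (n + 1) f)
    (h0 : ∀ l ∈ stdSimplex ℝ (Fin (n + 2)), 0 ≤ f l) :
    A (n + 1) f = ((n + 2) / (n + 1)) * ∫ s in Ioc (0 : ℝ) 1, s ^ n * A n (Ts s f) := by
  obtain ⟨C, hC⟩ := hf.bdd
  have hC0 : 0 ≤ C := by
    have hs : (Pi.single 0 1 : Fin (n + 2) → ℝ) ∈ stdSimplex ℝ (Fin (n + 2)) :=
      single_mem_stdSimplex ℝ 0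
    exact (abs_nonneg _).trans (hC _ hs)
  set g : (Fin (n + 1) → ℝ) → ℝ≥0∞ :=
    (Dl (n + 1)).indicator (fun x => ENNReal.ofReal (f (bary x))) with hg
  have hgm : Measurable g :=
    ((hf.meas.comp continuous_bary.measurable).ennreal_ofReal).indicator
      isClosed_Dl.measurableSet
  have e1 : A (n + 1) f = (∫⁻ x, g x).toReal := by
    rw [A, integral_eq_lintegral_of_nonneg_ae, hg, lintegral_indicator isClosed_Dl.measurableSet]
    · refine (ae_restrict_iff' isClosed_Dl.measurableSet).2 (Filter.Eventually.of_forall ?_)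
      intro x hx
      exact h0 _ (bary_mem_std hx)
    · exact (hf.meas.comp continuous_bary.measurable).aestronglyMeasurable
  have hsym : ∀ (σ : Equiv.Perm (Fin (n + 2))) (x : Fin (n + 1) → ℝ), g (Tl σ x) = g x := by
    intro σ x
    by_cases hx : x ∈ Dl (n + 1)
    · rw [hg, Set.indicator_of_mem ((Tl_mem σ).2 hx), Set.indicator_of_mem hx, bary_Tl, hf.sym]
    · rw [hg, Set.indicator_of_notMem (fun h => hx ((Tl_mem σ).1 h)),
        Set.indicator_of_notMem hx]
  have hA0 : ∀ s ∈ Ioc (0 : ℝ) 1, 0 ≤ A n (Ts s f) := by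
    intro s hs
    refine integral_nonneg_of_ae ?_
    refine (ae_restrict_iff' isClosed_Dl.measurableSet).2 (Filter.Eventually.of_forall ?_)
    intro x hx
    exact h0 _ (bary_std (bary_mem_std hx) hs.1.le hs.2)
  have hint : IntegrableOn (fun s => s ^ n * A n (Ts s f)) (Ioc (0 : ℝ) 1) := by
    refine Measure.integrableOn_of_bounded (M := C * V n) (by simp)
      ((measurable_id.pow_const n).mul (measurable_A_Ts hf.meas)).aestronglyMeasurable ?_
    refine (ae_restrict_iff' measurableSet_Ioc).2 (Filter.Eventually.of_forall ?_)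
    intro s hs
    rw [Real.norm_eq_abs, abs_mul]
    have h1 : |s ^ n| ≤ 1 := by
      rw [abs_pow, abs_of_pos hs.1]
      exact pow_le_one₀ hs.1.le hs.2
    have h2 : |A n (Ts s f)| ≤ C * V n :=
      A_abs_le fun l hl => hC _ (bary_std hl hs.1.le hs.2)
    calc |s ^ n| * |A n (Ts s f)| ≤ 1 * (C * V n) :=
          mul_le_mul h1 h2 (abs_nonneg _) zero_le_one
      _ = C * V n := one_mul _
  have e2 : ∫⁻ x, g x = ENNReal.ofReal ((n + 2) / (n + 1)) *
      ENNReal.ofReal (∫ s in Ioc (0 : ℝ) 1, s ^ n * A n (Ts s f)) := by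
    rw [lint_cone_radial g hgm]
    simp only [hsym, Finset.sum_const, Finset.card_univ, Fintype.card_fin, nsmul_eq_mul]
    rw [← mul_assoc]
    congr 1
    · rw [div_eq_mul_one_div ((n : ℝ) + 2), ENNReal.ofReal_mul (by positivity)]
      congr 1
      have : ((n : ℝ) + 2) = ((n + 1 + 1 : ℕ) : ℝ) := by push_cast; ring
      rw [this, ENNReal.ofReal_natCast]
    · rw [ofReal_integral_eq_lintegral_ofReal hint]
      · rw [← lintegral_indicator measurableSet_Ioi, ← lintegral_indicator measurableSet_Ioc]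
        refine lintegral_congr fun s => ?_
        by_cases hs : s ∈ Ioc (0 : ℝ) 1
        · rw [Set.indicator_of_mem hs, Set.indicator_of_mem (by exact hs.1 : s ∈ Ioi (0 : ℝ)),
            ENNReal.ofReal_mul (pow_nonneg hs.1.le n)]
          congr 1
          rw [A, ofReal_integral_eq_lintegral_ofReal (hf.ts hs.1.le hs.2).integrableOn]
          · refine setLIntegral_congr_fun isClosed_Dl.measurableSet ?_
            intro w hw
            simp only [hg]
            rw [Set.indicator_of_mem (smul_std_mem (bary_mem_std hw) hs.1.le hs.2)]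
            rfl
          · refine (ae_restrict_iff' isClosed_Dl.measurableSet).2
              (Filter.Eventually.of_forall ?_)
            intro x hx
            exact h0 _ (bary_std (bary_mem_std hx) hs.1.le hs.2)
        · rw [Set.indicator_of_notMem hs]
          by_cases hs0 : s ∈ Ioi (0 : ℝ)
          · rw [Set.indicator_of_mem hs0]
            have hs1 : 1 < s := by
              by_contra h
              exact hs ⟨hs0, not_lt.1 h⟩
            have : ∫⁻ w in Dl n, g (s • bary w) = 0 := by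
              rw [setLIntegral_congr_fun (g := fun _ => 0) isClosed_Dl.measurableSet]
              · simp
              · intro w hw
                simp only [hg]
                rw [Set.indicator_of_notMem (smul_std_not_mem (bary_mem_std hw) hs1)]
            rw [this, mul_zero]
          · rw [Set.indicator_of_notMem hs0]
      · refine (ae_restrict_iff' measurableSet_Ioc).2 (Filter.Eventually.of_forall ?_)
        intro s hs
        exact mul_nonneg (pow_nonneg hs.1.le n) (hA0 s hs)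
  rw [e1, e2, ENNReal.toReal_mul, ENNReal.toReal_ofReal (by positivity),
    ENNReal.toReal_ofReal]
  refine setIntegral_nonneg measurableSet_Ioc ?_
  intro s hs
  exact mul_nonneg (pow_nonneg hs.1.le n) (hA0 s hs)

end Pool.Agent.Helper77.LM

end
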