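import Pool.Agent.Helper77.LM.Assoc

/-!
Chebyshev's inequality and the correlation inequality.
-/

set_option autoImplicit false

noncomputable section

open MeasureTheory Set
open scoped ENNReal

namespace Pool.Agent.Helper77.LM

variable {n : ℕ}

lemma integrable_unit {g : ℝ → ℝ} (hg : Measurable g) {C : ℝ}
    (hC : ∀ s ∈ Ioc (0 : ℝ) 1, |g s| ≤ C) : IntegrableOn g (Ioc (0 : ℝ) 1) := by
  refine Measure.integrableOn_of_bounded (M := C) (by simp) hg.aestronglyMeasurable ?_
  exact (ae_restrict_iff' measurableSet_Ioc).2 (Filter.Eventually.of_forall hC)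

lemma integrable_unit_mul {g : ℝ → ℝ} (hg : Measurable g) {C : ℝ} (k : ℕ)
    (hC : ∀ s ∈ Ioc (0 : ℝ) 1, |g s| ≤ C) :
    IntegrableOn (fun s => s ^ k * g s) (Ioc (0 : ℝ) 1) := by
  refine integrable_unit ((measurable_id.pow_const k).mul hg) (C := C) ?_
  intro s hs
  rw [abs_mul, abs_pow, abs_of_pos hs.1]
  have h1 : s ^ k ≤ 1 := pow_le_one₀ hs.1.le hs.2
  have h2 := hC s hs
  have h3 := abs_nonneg (g s)
  nlinarith

lemma int_pow_unit (k : ℕ) : ∫ s in Ioc (0 : ℝ) 1, s ^ k = 1 / (k + 1) := by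
  rw [← intervalIntegral.integral_of_le zero_le_one, integral_pow]
  simp

/-- **Chebyshev's inequality** for the weight `s ^ k` on `(0, 1]`. -/
lemma cheb (k : ℕ) {a b : ℝ → ℝ} (ham : Measurable a) (hbm : Measurable b)
    (ha : MonotoneOn a (Icc 0 1)) (hb : MonotoneOn b (Icc 0 1)) :
    (∫ s in Ioc (0 : ℝ) 1, s ^ k * a s) * (∫ s in Ioc (0 : ℝ) 1, s ^ k * b s)
      ≤ (1 / (k + 1)) * ∫ s in Ioc (0 : ℝ) 1, s ^ k * (a s * b s) := by
  have hbd : ∀ {g : ℝ → ℝ}, MonotoneOn g (Icc 0 1) →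
      ∀ s ∈ Ioc (0 : ℝ) 1, |g s| ≤ |g 0| + |g 1| := by
    intro g hg s hs
    have h1 := hg (left_mem_Icc.2 zero_le_one) ⟨hs.1.le, hs.2⟩ hs.1.le
    have h2 := hg ⟨hs.1.le, hs.2⟩ (right_mem_Icc.2 zero_le_one) hs.2
    rw [abs_le]
    constructor
    · have := neg_abs_le (g 0); have := abs_nonneg (g 1); linarith
    · have := le_abs_self (g 1); have := abs_nonneg (g 0); linarith
  have ia := integrable_unit_mul ham k (hbd ha)
  have ib := integrable_unit_mul hbm k (hbd hb)
  have iab : IntegrableOn (fun s => s ^ k * (a s * b s)) (Ioc (0 : ℝ) 1) := by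
    refine integrable_unit_mul (ham.mul hbm) k (C := (|a 0| + |a 1|) * (|b 0| + |b 1|)) ?_
    intro s hs
    simp only [Pi.mul_apply]
    rw [abs_mul]
    exact mul_le_mul (hbd ha s hs) (hbd hb s hs) (abs_nonneg _) (by positivity)
  have i1 : IntegrableOn (fun s : ℝ => s ^ k) (Ioc (0 : ℝ) 1) := by
    have := integrable_unit_mul (g := fun _ => 1) measurable_const k (C := 1)
      (fun s _ => by simp)
    simpa using this
  set Ia := ∫ s in Ioc (0 : ℝ) 1, s ^ k * a s with hIa
  set Ib := ∫ s in Ioc (0 : ℝ) 1, s ^ k * b s with hIb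
  set m : ℝ := (k + 1) * Ia with hm
  have hk : (0 : ℝ) < k + 1 := by positivity
  -- the crossing point
  obtain ⟨s0, hs0⟩ : ∃ s0 : ℝ, ∀ s ∈ Ioc (0 : ℝ) 1, 0 ≤ (a s - m) * (b s - b s0) := by
    by_cases hne : ∃ s ∈ Icc (0 : ℝ) 1, a s ≤ m
    · set S : Set ℝ := {s ∈ Icc (0 : ℝ) 1 | a s ≤ m} with hS
      have hSne : S.Nonempty := by
        obtain ⟨s, hs, h⟩ := hne
        exact ⟨s, hs, h⟩
      have hSb : BddAbove S := ⟨1, fun s hs => hs.1.2⟩
      refine ⟨sSup S, fun s hs => ?_⟩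
      have hsI : s ∈ Icc (0 : ℝ) 1 := ⟨hs.1.le, hs.2⟩
      have hSI : sSup S ∈ Icc (0 : ℝ) 1 := by
        obtain ⟨t, ht⟩ := hSne
        exact ⟨ht.1.1.trans (le_csSup hSb ht), csSup_le ⟨t, ht⟩ fun s hs => hs.1.2⟩
      rcases lt_trichotomy s (sSup S) with h | h | h
      · obtain ⟨t, ht, hst⟩ := exists_lt_of_lt_csSup hSne h
        have h1 : a s ≤ m := (ha hsI ht.1 hst.le).trans ht.2
        have h2 : b s ≤ b (sSup S) := hb hsI hSI h.le
        exact mul_nonneg_of_nonpos_of_nonpos (by linarith) (by linarith)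
      · rw [← h]; simp
      · have h1 : m < a s := by
          by_contra hc
          have : s ∈ S := ⟨hsI, not_lt.1 hc⟩
          exact absurd (le_csSup hSb this) (not_le.2 h)
        have h2 : b (sSup S) ≤ b s := hb hSI hsI h.le
        exact mul_nonneg (by linarith) (by linarith)
    · push Not at hne
      refine ⟨0, fun s hs => ?_⟩
      have hsI : s ∈ Icc (0 : ℝ) 1 := ⟨hs.1.le, hs.2⟩
      exact mul_nonneg (by linarith [hne s hsI])
        (by linarith [hb (left_mem_Icc.2 zero_le_one) hsI hs.1.le])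
  have hpos : 0 ≤ ∫ s in Ioc (0 : ℝ) 1, s ^ k * ((a s - m) * (b s - b s0)) :=
    setIntegral_nonneg measurableSet_Ioc fun s hs =>
      mul_nonneg (pow_nonneg hs.1.le k) (hs0 s hs)
  have hexp : ∫ s in Ioc (0 : ℝ) 1, s ^ k * ((a s - m) * (b s - b s0))
      = (∫ s in Ioc (0 : ℝ) 1, s ^ k * (a s * b s)) - b s0 * Ia - m * Ib
        + (m * b s0) * (1 / (k + 1)) := by
    have I1 : IntegrableOn (fun s => s ^ k * (a s * b s) - b s0 * (s ^ k * a s))
      (Ioc (0 : ℝ) 1) := iab.sub (ia.const_mul _)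
    have I2 : IntegrableOn (fun s => s ^ k * (a s * b s) - b s0 * (s ^ k * a s)
      - m * (s ^ k * b s)) (Ioc (0 : ℝ) 1) := I1.sub (ib.const_mul _)
    have e : ∫ s in Ioc (0 : ℝ) 1, s ^ k * ((a s - m) * (b s - b s0))
        = ∫ s in Ioc (0 : ℝ) 1, (s ^ k * (a s * b s) - b s0 * (s ^ k * a s)
      - m * (s ^ k * b s) + (m * b s0) * s ^ k) :=
      setIntegral_congr_fun measurableSet_Ioc fun s _ => by ring
    rw [e, integral_add I2 (i1.const_mul _), integral_sub I1 (ib.const_mul _),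
      integral_sub iab (ia.const_mul _), integral_const_mul, integral_const_mul,
      integral_const_mul, int_pow_unit k]
  rw [hexp] at hpos
  have h1 : (m * b s0) * (1 / ((k : ℝ) + 1)) = b s0 * Ia := by
    rw [hm]; field_simp
  rw [h1, hm] at hpos
  rw [one_div, inv_mul_eq_div, le_div_iff₀ hk]
  linarith

/-- The recursion. -/
lemma A_step {f : (Fin (n + 2) → ℝ) → ℝ} (hf : Bd (n + 1) f) :
    A (n + 1) f = ((n + 2) / (n + 1)) * ∫ s in Ioc (0 : ℝ) 1, s ^ n * A n (Ts s f) := by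
  obtain ⟨C, hC⟩ := hf.bdd
  have hC0 : 0 ≤ C := by
    have hs : (Pi.single 0 1 : Fin (n + 2) → ℝ) ∈ stdSimplex ℝ (Fin (n + 2)) :=
      single_mem_stdSimplex ℝ 0
    exact (abs_nonneg _).trans (hC _ hs)
  have h1 := A_step_nonneg (hf.add (Bd.const C)) (fun l hl => by
    have := neg_abs_le (f l); have := hC l hl; linarith)
  have h2 := A_step_nonneg (Bd.const (n := n + 1) C) (fun _ _ => hC0)
  rw [A_add hf (Bd.const C)] at h1
  have e : ∀ s ∈ Ioc (0 : ℝ) 1, s ^ n * A n (Ts s fun l => f l + C)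
      = s ^ n * A n (Ts s f) + s ^ n * A n (Ts s fun _ => C) := by
    intro s hs
    rw [← mul_add]
    congr 1
    exact A_add (hf.ts hs.1.le hs.2) ((Bd.const C).ts hs.1.le hs.2)
  rw [setIntegral_congr_fun measurableSet_Ioc e, integral_add] at h1
  · linarith
  · refine integrable_unit_mul (measurable_A_Ts hf.meas) n (C := C * V n) ?_
    intro s hs
    exact A_abs_le fun l hl => hC _ (bary_std hl hs.1.le hs.2)
  · refine integrable_unit_mul (measurable_A_Ts measurable_const) n (C := C * V n) ?_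
    intro s hs
    exact A_abs_le fun l hl => (abs_of_nonneg hC0).le

lemma V_zero : V 0 = 1 := by
  have h : Dl 0 = Set.univ := by
    refine Set.eq_univ_of_forall fun x i => ?_
    have : i = 0 := Subsingleton.elim (α := Fin 1) _ _
    subst this
    simp [tt]
  simp [V, h, volume_pi, Measure.pi_of_empty]

lemma V_step (n : ℕ) : V (n + 1) = ((n + 2) / (n + 1)) * (V n / (n + 1)) := by
  have h := A_step (Bd.const (n := n + 1) 1)
  rw [A_one] at h
  rw [h]
  congr 1
  have : ∀ s : ℝ, A n (Ts s fun _ => (1 : ℝ)) = V n := fun s => A_one n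
  simp only [this]
  rw [integral_mul_const, int_pow_unit]
  ring

lemma V_pos (n : ℕ) : 0 < V n := by
  induction n with
  | zero => rw [V_zero]; exact zero_lt_one
  | succ n ih => rw [V_step]; positivity

/-- the barycenter of barycentric coordinates -/
def ctr (n : ℕ) : Fin (n + 1) → ℝ := fun _ => 1 / (n + 1)

lemma ctr_mem (n : ℕ) : ctr n ∈ stdSimplex ℝ (Fin (n + 1)) := by
  refine ⟨fun _ => by unfold ctr; positivity, ?_⟩
  simp only [ctr, Finset.sum_const, Finset.card_univ, Fintype.card_fin, nsmul_eq_mul]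
  push_cast
  field_simp

lemma bary_zero_eq : bary (0 : Fin n → ℝ) = ctr n := by
  funext i
  have ht : tt (0 : Fin n → ℝ) = 1 / (n + 1) := by simp [tt]
  refine Fin.cases ?_ (fun j => ?_) i <;> simp [ht, ctr]

/-- A convex symmetric function is minimal at the center. -/
lemma ctr_le {f : (Fin (n + 1) → ℝ) → ℝ} (hs : ∀ (σ : Equiv.Perm (Fin (n + 1)))
    (l : Fin (n + 1) → ℝ), f (fun i => l (σ i)) = f l)
    (hf : ConvexOn ℝ (stdSimplex ℝ (Fin (n + 1))) f)
    {l : Fin (n + 1) → ℝ} (hl : l ∈ stdSimplex ℝ (Fin (n + 1))) : f (ctr n) ≤ f l := by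
  have hn : (0 : ℝ) < n + 1 := by positivity
  have key := hf.map_sum_le (t := Finset.univ) (w := fun _ : Fin (n + 1) => 1 / ((n : ℝ) + 1))
    (p := fun k i => l (i + k)) (fun _ _ => by positivity)
    (by
      simp only [Finset.sum_const, Finset.card_univ, Fintype.card_fin, nsmul_eq_mul]
      push_cast; field_simp)
    (by
      intro k _
      refine ⟨fun i => hl.1 _, ?_⟩
      exact (Equiv.sum_comp (Equiv.addRight k) l).trans hl.2)
  have e1 : ∑ k : Fin (n + 1), (1 / ((n : ℝ) + 1)) • (fun i => l (i + k)) = ctr n := by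
    funext i
    simp only [Finset.sum_apply, Pi.smul_apply, smul_eq_mul, ← Finset.mul_sum, ctr]
    have : ∑ k, l (i + k) = 1 := (Equiv.sum_comp (Equiv.addLeft i) l).trans hl.2
    rw [this, mul_one]
  have e2 : ∀ k : Fin (n + 1), f (fun i => l (i + k)) = f l := fun k =>
    hs (Equiv.addRight k) l
  rw [e1] at key
  simp only [e2, Finset.sum_const, Finset.card_univ, Fintype.card_fin, nsmul_eq_mul,
    smul_eq_mul] at key
  push_cast at key
  have : ((n : ℝ) + 1) * (1 / (n + 1) * f l) = f l := by field_simp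
  linarith

lemma Cls.ray_mono {f : (Fin (n + 2) → ℝ) → ℝ} (hf : Cls (n + 1) f) {l : Fin (n + 1) → ℝ}
    (hl : l ∈ stdSimplex ℝ (Fin (n + 1))) : MonotoneOn (fun s => Ts s f l) (Icc 0 1) := by
  intro s hs t ht hst
  simp only [Ts]
  rcases ht.1.eq_or_lt with h0 | h0
  · have : s = 0 := le_antisymm (by linarith) hs.1
    rw [this, ← h0]
  · have h1 := hf.conv.2 (bary_std hl ht.1 ht.2) (bary_mem_std (x := (0 : Fin (n + 1) → ℝ))
      (by simpa using smul_std_mem hl le_rfl zero_le_one))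
      (show (0 : ℝ) ≤ s / t from div_nonneg hs.1 h0.le)
      (show (0 : ℝ) ≤ 1 - s / t by rw [sub_nonneg, div_le_one h0]; exact hst) (by ring)
    rw [← bary_add_smul _ _ (by ring)] at h1
    have e : (s / t) • t • l + (1 - s / t) • (0 : Fin (n + 1) → ℝ) = s • l := by
      rw [smul_zero, add_zero, smul_smul, div_mul_cancel₀ _ h0.ne']
    rw [e, bary_zero_eq] at h1
    have h2 := ctr_le hf.sym hf.conv (bary_std hl ht.1 ht.2)
    have h3 : (1 - s / t) * f (ctr (n + 1)) ≤ (1 - s / t) * f (bary (t • l)) :=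
      mul_le_mul_of_nonneg_left h2 (by rw [sub_nonneg, div_le_one h0]; exact hst)
    simp only [smul_eq_mul] at h1
    linarith

lemma Cls.A_mono {f : (Fin (n + 2) → ℝ) → ℝ} (hf : Cls (n + 1) f) :
    MonotoneOn (fun s => A n (Ts s f)) (Icc 0 1) := by
  intro s hs t ht hst
  exact LM.A_mono (hf.toBd.ts hs.1 hs.2) (hf.toBd.ts ht.1 ht.2)
    fun l hl => hf.ray_mono hl hs ht hst

lemma Bd.A_bound {f : (Fin (n + 2) → ℝ) → ℝ} (hf : Bd (n + 1) f) :
    ∃ C, ∀ s ∈ Ioc (0 : ℝ) 1, |A n (Ts s f)| ≤ C := by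
  obtain ⟨C, hC⟩ := hf.bdd
  exact ⟨C * V n, fun s hs => A_abs_le fun l hl => hC _ (bary_std hl hs.1.le hs.2)⟩

/-- **Positive correlation** of symmetric convex functions. -/
theorem corr : ∀ (n : ℕ) (f g : (Fin (n + 1) → ℝ) → ℝ), Cls n f → Cls n g →
    A n f * A n g ≤ V n * A n (fun l => f l * g l) := by
  intro n
  induction n with
  | zero =>
    intro f g hf hg
    have h : ∀ f : (Fin (0 + 1) → ℝ) → ℝ, A 0 f = f (ctr 0) := by
      intro f
      have hd : Dl 0 = Set.univ := by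
        refine Set.eq_univ_of_forall fun x i => ?_
        have : i = 0 := Subsingleton.elim (α := Fin 1) _ _
        subst this
        simp [tt]
      have : ∀ x : Fin 0 → ℝ, bary x = ctr 0 := by
        intro x
        rw [← bary_zero_eq]
        congr 1
        exact Subsingleton.elim _ _
      simp only [A, this, hd]
      simp [volume_pi, Measure.pi_of_empty, Measure.real]
    rw [h, h, h, V_zero, one_mul]
  | succ n ih =>
    intro f g hf hg
    have hfg : Bd (n + 1) (fun l => f l * g l) := hf.toBd.mul hg.toBd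
    obtain ⟨C1, hC1⟩ := hf.toBd.A_bound
    obtain ⟨C2, hC2⟩ := hg.toBd.A_bound
    obtain ⟨C3, hC3⟩ := hfg.A_bound
    have hV := V_pos n
    rw [A_step hf.toBd, A_step hg.toBd, A_step hfg, V_step]
    have h1 := cheb n (measurable_A_Ts hf.meas) (measurable_A_Ts hg.meas) hf.A_mono hg.A_mono
    have h2 : ∫ s in Ioc (0 : ℝ) 1, s ^ n * (A n (Ts s f) * A n (Ts s g))
        ≤ ∫ s in Ioc (0 : ℝ) 1, V n * (s ^ n * A n (Ts s fun l => f l * g l)) := by
      refine setIntegral_mono_on ?_ ?_ measurableSet_Ioc ?_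
      · refine integrable_unit_mul ((measurable_A_Ts hf.meas).mul (measurable_A_Ts hg.meas)) n
          (C := C1 * C2) ?_
        intro s hs
        simp only [Pi.mul_apply]
        rw [abs_mul]
        exact mul_le_mul (hC1 s hs) (hC2 s hs) (abs_nonneg _)
          ((abs_nonneg _).trans (hC1 s hs))
      · exact (integrable_unit_mul (measurable_A_Ts hfg.meas) n hC3).const_mul _
      · intro s hs
        have := ih (Ts s f) (Ts s g) (hf.ts hs.1.le hs.2) (hg.ts hs.1.le hs.2)
        have h3 := mul_le_mul_of_nonneg_left this (pow_nonneg hs.1.le n)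
        have e : (fun l => Ts s f l * Ts s g l) = Ts s (fun l => f l * g l) := rfl
        rw [e] at h3
        calc s ^ n * (A n (Ts s f) * A n (Ts s g)) ≤ _ := h3
          _ = V n * (s ^ n * A n (Ts s fun l => f l * g l)) := by ring
    rw [integral_const_mul] at h2
    set X := ∫ s in Ioc (0 : ℝ) 1, s ^ n * A n (Ts s f)
    set Y := ∫ s in Ioc (0 : ℝ) 1, s ^ n * A n (Ts s g)
    set Z := ∫ s in Ioc (0 : ℝ) 1, s ^ n * A n (Ts s fun l => f l * g l)
    have hk : (0 : ℝ) < n + 1 := by positivity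
    set c : ℝ := (n + 2) / (n + 1) with hc
    have hc0 : 0 < c := by positivity
    have h4 : X * Y ≤ (1 / (n + 1)) * (V n * Z) :=
      h1.trans (mul_le_mul_of_nonneg_left h2 (by positivity))
    calc c * X * (c * Y) = c * c * (X * Y) := by ring
      _ ≤ c * c * ((1 / (n + 1)) * (V n * Z)) := mul_le_mul_of_nonneg_left h4 (by positivity)
      _ = c * (V n / (n + 1)) * (c * Z) := by ring

end Pool.Agent.Helper77.LM

end
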