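import Pool.Agent.Helper77.LM.Assoc2

/-!
The quantitative correlation inequality.
-/

set_option autoImplicit false

noncomputable section

open MeasureTheory Set
open scoped ENNReal

namespace Pool.Agent.Helper77.LM

variable {n : ℕ}

/-- the sum of the squares -/
def qf {m : ℕ} (l : Fin m → ℝ) : ℝ := ∑ j, l j ^ 2

lemma qf_nonneg {m : ℕ} (l : Fin m → ℝ) : 0 ≤ qf l := Finset.sum_nonneg fun _ _ => sq_nonneg _

lemma qf_le_one {l : Fin (n + 1) → ℝ} (hl : l ∈ stdSimplex ℝ (Fin (n + 1))) : qf l ≤ 1 := by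
  rw [← hl.2]
  refine Finset.sum_le_sum fun j _ => ?_
  have h1 : l j ≤ 1 := by
    rw [← hl.2]
    exact Finset.single_le_sum (fun j _ => hl.1 j) (Finset.mem_univ j)
  have h0 := hl.1 j
  nlinarith

lemma convexOn_qf (m : ℕ) (s : Set (Fin m → ℝ)) (hs : Convex ℝ s) : ConvexOn ℝ s qf := by
  refine ⟨hs, ?_⟩
  intro x _ y _ a b ha hb hab
  simp only [qf, Pi.add_apply, Pi.smul_apply, smul_eq_mul, Finset.mul_sum]
  rw [← Finset.sum_add_distrib]
  refine Finset.sum_le_sum fun j _ => ?_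
  have hb' : b = 1 - a := by linarith
  subst hb'
  nlinarith [mul_nonneg (mul_nonneg ha hb) (sq_nonneg (x j - y j))]

lemma cls_qf (n : ℕ) : Cls n (qf : (Fin (n + 1) → ℝ) → ℝ) := by
  refine ⟨⟨?_, ?_, 1, fun l hl => ?_⟩, convexOn_qf _ _ (convex_stdSimplex ℝ _)⟩
  · unfold qf
    exact Finset.measurable_sum _ fun j _ => (measurable_pi_apply j).pow_const 2
  · intro σ l
    exact Equiv.sum_comp σ (fun j => l j ^ 2)
  · rw [abs_of_nonneg (qf_nonneg l)]
    exact qf_le_one hl

lemma qf_ctr (n : ℕ) : qf (ctr n) = 1 / (n + 1) := by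
  simp only [qf, ctr, Finset.sum_const, Finset.card_univ, Fintype.card_fin, nsmul_eq_mul]
  push_cast
  field_simp

lemma le_qf {l : Fin (n + 1) → ℝ} (hl : l ∈ stdSimplex ℝ (Fin (n + 1))) :
    1 / (n + 1) ≤ qf l := by
  rw [← qf_ctr n]
  exact ctr_le (cls_qf n).sym (cls_qf n).conv hl

lemma Ts_qf {l : Fin (n + 1) → ℝ} (hl : l ∈ stdSimplex ℝ (Fin (n + 1))) (s : ℝ) :
    Ts s qf l = (1 - s ^ 2) / (n + 2) + s ^ 2 * qf l := by
  simp only [Ts, qf]
  rw [Fin.sum_univ_succ]
  simp only [bary_zero, bary_succ, tt_smul_std hl, Pi.smul_apply, smul_eq_mul]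
  have e : ∀ j, (s * l j + (1 - s) / ((n : ℝ) + 2)) ^ 2 = s ^ 2 * l j ^ 2
      + (2 * s * ((1 - s) / (n + 2))) * l j + ((1 - s) / (n + 2)) ^ 2 := by
    intro j; ring
  simp only [e, Finset.sum_add_distrib, ← Finset.mul_sum, hl.2, Finset.sum_const,
    Finset.card_univ, Fintype.card_fin, nsmul_eq_mul]
  push_cast
  field_simp
  ring

/-- The quantitative correlation with the sum of the squares. -/
theorem corr_qf (n : ℕ) : ∃ c > 0, ∀ b : (Fin (n + 2) → ℝ) → ℝ, Cls (n + 1) b →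
    (∀ l ∈ stdSimplex ℝ (Fin (n + 2)), 0 ≤ b l) → b (ctr (n + 1)) = 0 →
    (A (n + 1) qf / V (n + 1) + c) * A (n + 1) b ≤ A (n + 1) (fun l => qf l * b l) := by
  have hVn := V_pos n
  have hVn1 := V_pos (n + 1)
  set ρ : ℝ := A n qf / V n - 1 / (n + 2) with hρ
  have hρ0 : 0 < ρ := by
    have h1 : 1 / ((n : ℝ) + 1) * V n ≤ A n qf := by
      rw [← A_const]
      exact A_mono (Bd.const _) (cls_qf n).toBd fun l hl => le_qf hl
    have h2 : 1 / ((n : ℝ) + 1) ≤ A n qf / V n := by rwa [le_div_iff₀ hVn]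
    have h3 : 1 / ((n : ℝ) + 2) < 1 / (n + 1) := by
      apply one_div_lt_one_div_of_lt <;> linarith [(Nat.cast_nonneg n : (0 : ℝ) ≤ n)]
    rw [hρ]; linarith
  refine ⟨ρ * (2 / ((n + 3) * (n + 4))), by positivity, ?_⟩
  intro b hb hb0 hbc
  set c0 : ℝ := (n + 2) / (n + 1) with hc0
  have hc0p : 0 < c0 := by positivity
  have hqb : Bd (n + 1) (fun l => qf l * b l) := (cls_qf (n + 1)).toBd.mul hb.toBd
  -- the ray functions
  have hray0 : ∀ l, Ts 0 b l = 0 := by
    intro l
    simp only [Ts, zero_smul]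
    rw [bary_zero_eq, hbc]
  have hb00 : A n (Ts 0 b) = 0 := by
    simp only [A, hray0, integral_zero]
  have hbn : ∀ s ∈ Icc (0 : ℝ) 1, 0 ≤ A n (Ts s b) := by
    intro s hs
    rw [← hb00]
    exact hb.A_mono (left_mem_Icc.2 zero_le_one) hs hs.1
  have hdiv : MonotoneOn (fun s => A n (Ts s b) / s) (Icc 0 1) := by
    intro s hs t ht hst
    rcases hs.1.eq_or_lt with h0 | h0
    · simp only [← h0, div_zero]
      exact div_nonneg (hbn t ht) ht.1
    · have ht0 : 0 < t := h0.trans_le hst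
      simp only
      rw [div_le_div_iff₀ h0 ht0]
      have key : A n (Ts s b) ≤ A n (fun l => (s / t) * Ts t b l) := by
        refine A_mono (hb.toBd.ts hs.1 hs.2) ((Bd.const _).mul (hb.toBd.ts ht.1 ht.2)) ?_
        intro l hl
        have h1 := hb.conv.2 (bary_std hl ht.1 ht.2) (bary_mem_std (x := (0 : Fin (n + 1) → ℝ))
          (by simpa using smul_std_mem hl le_rfl zero_le_one))
          (show (0 : ℝ) ≤ s / t from div_nonneg hs.1 ht0.le)
          (show (0 : ℝ) ≤ 1 - s / t by rw [sub_nonneg, div_le_one ht0]; exact hst) (by ring)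
        rw [← bary_add_smul _ _ (by ring)] at h1
        have e : (s / t) • t • l + (1 - s / t) • (0 : Fin (n + 1) → ℝ) = s • l := by
          rw [smul_zero, add_zero, smul_smul, div_mul_cancel₀ _ ht0.ne']
        rw [e, bary_zero_eq, hbc] at h1
        simp only [smul_eq_mul, mul_zero, add_zero] at h1
        exact h1
      rw [A_mul_const] at key
      have := mul_le_mul_of_nonneg_right key ht0.le
      calc A n (Ts s b) * t ≤ s / t * A n (Ts t b) * t := this
        _ = A n (Ts t b) * s := by field_simp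
  -- Chebyshev
  have hch := cheb (n + 1) (a := fun s => s ^ 2) (b := fun s => A n (Ts s b) / s)
    (measurable_id.pow_const 2) ((measurable_A_Ts hb.meas).div measurable_id)
    (fun s hs t ht hst => pow_le_pow_left₀ hs.1 hst 2) hdiv
  obtain ⟨C, hC⟩ := hb.toBd.A_bound
  have iB : ∀ k : ℕ, IntegrableOn (fun s => s ^ k * A n (Ts s b)) (Ioc (0 : ℝ) 1) := fun k =>
    integrable_unit_mul (measurable_A_Ts hb.meas) k hC
  set I0 := ∫ s in Ioc (0 : ℝ) 1, s ^ n * A n (Ts s b) with hI0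
  set I2 := ∫ s in Ioc (0 : ℝ) 1, s ^ (n + 2) * A n (Ts s b) with hI2
  have hI0n : 0 ≤ I0 := setIntegral_nonneg measurableSet_Ioc fun s hs =>
    mul_nonneg (pow_nonneg hs.1.le n) (hbn s ⟨hs.1.le, hs.2⟩)
  have hch2 : ((n + 2) / (n + 4) : ℝ) * I0 ≤ I2 := by
    have e1 : ∫ s in Ioc (0 : ℝ) 1, s ^ (n + 1) * s ^ 2 = 1 / (n + 4) := by
      have : ∀ s : ℝ, s ^ (n + 1) * s ^ 2 = s ^ (n + 3) := fun s => by ring
      simp only [this]
      rw [int_pow_unit]; push_cast; ring
    have e2 : ∫ s in Ioc (0 : ℝ) 1, s ^ (n + 1) * (A n (Ts s b) / s) = I0 := by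
      refine setIntegral_congr_fun measurableSet_Ioc fun s hs => ?_
      have : s ≠ 0 := hs.1.ne'
      rw [pow_succ]
      field_simp
    have e3 : ∫ s in Ioc (0 : ℝ) 1, s ^ (n + 1) * (s ^ 2 * (A n (Ts s b) / s)) = I2 := by
      refine setIntegral_congr_fun measurableSet_Ioc fun s hs => ?_
      have : s ≠ 0 := hs.1.ne'
      field_simp
      ring
    rw [e1, e2, e3] at hch
    have hn2 : (0 : ℝ) < n + 2 := by positivity
    push_cast at hch
    have h5 := mul_le_mul_of_nonneg_left hch hn2.le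
    calc ((n + 2) / (n + 4) : ℝ) * I0 = (n + 2) * (1 / (n + 4) * I0) := by ring
      _ ≤ (n + 2) * (1 / (n + 1 + 1) * I2) := h5
      _ = I2 := by
        have : (n : ℝ) + 1 + 1 = n + 2 := by ring
        rw [this]; field_simp
  -- the average of `q`
  have hAq : A (n + 1) qf / V (n + 1) = 1 / (n + 2) + ρ * ((n + 1) / (n + 3)) := by
    have e : ∀ s ∈ Ioc (0 : ℝ) 1, s ^ n * A n (Ts s qf)
        = V n * (1 / (n + 2)) * s ^ n + V n * ρ * s ^ (n + 2) := by
      intro s hs
      have h1 : A n (Ts s qf) = A n (fun l => (1 - s ^ 2) / (n + 2) + s ^ 2 * qf l) :=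
        A_congr fun l hl => Ts_qf hl s
      rw [h1, A_add (Bd.const _) ((Bd.const _).mul (cls_qf n).toBd), A_const, A_mul_const]
      have h2 : A n qf = V n * (ρ + 1 / (n + 2)) := by
        rw [hρ]; field_simp; ring
      rw [h2]
      field_simp
      ring
    rw [A_step (cls_qf (n + 1)).toBd, setIntegral_congr_fun measurableSet_Ioc e]
    have i1 : ∀ k : ℕ, IntegrableOn (fun s : ℝ => s ^ k) (Ioc (0 : ℝ) 1) := by
      intro k
      have := integrable_unit_mul (g := fun _ => 1) measurable_const k (C := 1)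
        (fun s _ => by simp)
      simpa using this
    rw [integral_add ((i1 n).const_mul _) ((i1 (n + 2)).const_mul _), integral_const_mul,
      integral_const_mul, int_pow_unit, int_pow_unit, V_step]
    push_cast
    field_simp
    ring
  -- lower bound for the correlation
  have hmain : c0 * (1 / (n + 2) * I0 + ρ * I2) ≤ A (n + 1) (fun l => qf l * b l) := by
    rw [A_step hqb, ← hc0]
    refine mul_le_mul_of_nonneg_left ?_ hc0p.le
    rw [hI0, hI2, ← integral_const_mul, ← integral_const_mul, ← integral_add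
      ((iB n).const_mul _) ((iB (n + 2)).const_mul _)]
    obtain ⟨C', hC'⟩ := hqb.A_bound
    refine setIntegral_mono_on (((iB n).const_mul _).add ((iB (n + 2)).const_mul _))
      (integrable_unit_mul (measurable_A_Ts hqb.meas) n hC') measurableSet_Ioc ?_
    intro s hs
    have hB := hb.toBd.ts hs.1.le hs.2
    have hs2 : 0 ≤ s ^ 2 := sq_nonneg s
    have h1 : A n (Ts s fun l => qf l * b l)
        = (1 - s ^ 2) / (n + 2) * A n (Ts s b) + s ^ 2 * A n (fun l => qf l * Ts s b l) := by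
      have : A n (Ts s fun l => qf l * b l)
          = A n (fun l => (1 - s ^ 2) / (n + 2) * Ts s b l + s ^ 2 * (qf l * Ts s b l)) := by
        refine A_congr fun l hl => ?_
        have := Ts_qf hl s
        simp only [Ts] at this ⊢
        rw [this]; ring
      rw [this, A_add ((Bd.const _).mul hB) ((Bd.const _).mul ((cls_qf n).toBd.mul hB)),
        A_mul_const, A_mul_const]
    have h2 : A n qf * A n (Ts s b) ≤ V n * A n (fun l => qf l * Ts s b l) :=
      corr n qf (Ts s b) (cls_qf n) (hb.ts hs.1.le hs.2)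
    have h3 : (ρ + 1 / (n + 2)) * A n (Ts s b) ≤ A n (fun l => qf l * Ts s b l) := by
      have : ρ + 1 / (n + 2) = A n qf / V n := by rw [hρ]; ring
      rw [this, div_mul_eq_mul_div, div_le_iff₀ hVn]
      linarith
    have h4 := mul_le_mul_of_nonneg_left h3 hs2
    have h5 : 1 / ((n : ℝ) + 2) * A n (Ts s b) + ρ * (s ^ 2 * A n (Ts s b))
        ≤ A n (Ts s fun l => qf l * b l) := by
      rw [h1]
      have : (1 - s ^ 2) / ((n : ℝ) + 2) = 1 / (n + 2) - s ^ 2 * (1 / (n + 2)) := by ring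
      rw [this]
      linarith
    have h6 := mul_le_mul_of_nonneg_left h5 (pow_nonneg hs.1.le n)
    calc 1 / ((n : ℝ) + 2) * (s ^ n * A n (Ts s b)) + ρ * (s ^ (n + 2) * A n (Ts s b))
        = s ^ n * (1 / ((n : ℝ) + 2) * A n (Ts s b) + ρ * (s ^ 2 * A n (Ts s b))) := by ring
      _ ≤ _ := h6
  refine le_trans ?_ hmain
  rw [hAq, A_step hb.toBd, ← hc0, ← hI0]
  have h7 := mul_le_mul_of_nonneg_left hch2 hρ0.le
  have h8 : (1 / ((n : ℝ) + 2) + ρ * ((n + 1) / (n + 3)) + ρ * (2 / ((n + 3) * (n + 4)))) * I0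
      ≤ 1 / (n + 2) * I0 + ρ * I2 := by
    have : ρ * ((n + 1) / (n + 3)) + ρ * (2 / ((n + 3) * (n + 4)))
        = ρ * (((n : ℝ) + 2) / (n + 4)) := by
      field_simp
      ring
    calc (1 / ((n : ℝ) + 2) + ρ * ((n + 1) / (n + 3)) + ρ * (2 / ((n + 3) * (n + 4)))) * I0
        = 1 / ((n : ℝ) + 2) * I0
          + (ρ * ((n + 1) / (n + 3)) + ρ * (2 / ((n + 3) * (n + 4)))) * I0 := by ring
      _ = 1 / ((n : ℝ) + 2) * I0 + ρ * (((n : ℝ) + 2) / (n + 4) * I0) := by rw [this]; ring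
      _ ≤ _ := by linarith
  calc _ = c0 * ((1 / ((n : ℝ) + 2) + ρ * ((n + 1) / (n + 3))
        + ρ * (2 / ((n + 3) * (n + 4)))) * I0) := by ring
    _ ≤ _ := mul_le_mul_of_nonneg_left h8 hc0p.le

end Pool.Agent.Helper77.LM

end
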