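import Pool.Agent.Helper77.LM.Assoc3

/-!
The correlation inequality for uniformly convex symmetric densities.
-/

set_option autoImplicit false

noncomputable section

open MeasureTheory Set
open scoped ENNReal

namespace Pool.Agent.Helper77.LM

variable {n : ℕ}

lemma Tl_injective (σ : Equiv.Perm (Fin (n + 1))) :
    Function.Injective (Tl σ : (Fin n → ℝ) → (Fin n → ℝ)) := by
  intro x y h
  have h2 : Tl σ⁻¹ (Tl σ x) = Tl σ⁻¹ (Tl σ y) := by rw [h]
  rw [Tl_Tl, Tl_Tl, mul_inv_cancel, Tl_one, Tl_one] at h2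
  exact h2

lemma Tl_emb (σ : Equiv.Perm (Fin (n + 1))) :
    MeasurableEmbedding (Tl σ : (Fin n → ℝ) → (Fin n → ℝ)) :=
  (LinearMap.continuous_of_finiteDimensional _).measurableEmbedding (Tl_injective σ)

lemma A_perm (σ : Equiv.Perm (Fin (n + 1))) (f : (Fin (n + 1) → ℝ) → ℝ) :
    A n (fun l => f (fun i => l (σ i))) = A n f := by
  have h := (mp_Tl σ).setIntegral_preimage_emb (Tl_emb σ) (fun x => f (bary x)) (Dl n)
  have h2 : (Tl σ : (Fin n → ℝ) → (Fin n → ℝ)) ⁻¹' (Dl n) = Dl n := by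
    ext x; exact Tl_mem σ
  rw [h2] at h
  simp only [bary_Tl] at h
  exact h

lemma integrableOn_of_bd {f : (Fin (n + 1) → ℝ) → ℝ} (hm : Measurable f)
    (hb : ∃ C, ∀ l ∈ stdSimplex ℝ (Fin (n + 1)), |f l| ≤ C) :
    IntegrableOn (fun x => f (bary x)) (Dl n) := by
  obtain ⟨C, hC⟩ := hb
  refine Measure.integrableOn_of_bounded (M := C) vol_ne_top
    (hm.comp continuous_bary.measurable).aestronglyMeasurable ?_
  refine (ae_restrict_iff' isClosed_Dl.measurableSet).2 (Filter.Eventually.of_forall ?_)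
  intro x hx
  exact hC _ (bary_mem_std hx)

/-- permuting a function -/
def pf (σ : Equiv.Perm (Fin (n + 1))) (f : (Fin (n + 1) → ℝ) → ℝ) : (Fin (n + 1) → ℝ) → ℝ :=
  fun l => f (fun i => l (σ i))

/-- symmetrization -/
def sy (f : (Fin (n + 1) → ℝ) → ℝ) : (Fin (n + 1) → ℝ) → ℝ :=
  fun l => (Fintype.card (Equiv.Perm (Fin (n + 1))) : ℝ)⁻¹ *
    ∑ σ : Equiv.Perm (Fin (n + 1)), pf σ f l

lemma perm_mem {l : Fin (n + 1) → ℝ} (hl : l ∈ stdSimplex ℝ (Fin (n + 1)))
    (σ : Equiv.Perm (Fin (n + 1))) : (fun i => l (σ i)) ∈ stdSimplex ℝ (Fin (n + 1)) :=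
  ⟨fun _ => hl.1 _, (Equiv.sum_comp σ l).trans hl.2⟩

lemma card_pos' : (0 : ℝ) < (Fintype.card (Equiv.Perm (Fin (n + 1))) : ℝ) := by
  exact_mod_cast Fintype.card_pos

lemma measurable_pf (σ : Equiv.Perm (Fin (n + 1))) {f : (Fin (n + 1) → ℝ) → ℝ}
    (hf : Measurable f) : Measurable (pf σ f) :=
  hf.comp (measurable_pi_lambda _ fun i => measurable_pi_apply (σ i))

lemma sy_cls {f : (Fin (n + 1) → ℝ) → ℝ} (hm : Measurable f)
    (hb : ∃ C, ∀ l ∈ stdSimplex ℝ (Fin (n + 1)), |f l| ≤ C)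
    (hc : ConvexOn ℝ (stdSimplex ℝ (Fin (n + 1))) f) : Cls n (sy f) := by
  obtain ⟨C, hC⟩ := hb
  have hp := card_pos' (n := n)
  refine ⟨⟨?_, ?_, C, ?_⟩, convex_stdSimplex ℝ _, ?_⟩
  · exact (Finset.measurable_sum _ fun σ _ => measurable_pf σ hm).const_mul _
  · intro σ l
    simp only [sy, pf]
    congr 1
    exact Equiv.sum_comp (Equiv.mulLeft σ) (fun τ : Equiv.Perm (Fin (n + 1)) =>
      f (fun i => l (τ i)))
  · intro l hl
    simp only [sy]
    rw [abs_mul, abs_of_pos (inv_pos.2 hp), inv_mul_le_iff₀ hp]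
    refine (Finset.abs_sum_le_sum_abs _ _).trans ?_
    have : ∑ σ : Equiv.Perm (Fin (n + 1)), |pf σ f l|
        ≤ ∑ _σ : Equiv.Perm (Fin (n + 1)), C :=
      Finset.sum_le_sum fun σ _ => hC _ (perm_mem hl σ)
    simpa using this
  · intro x hx y hy a b ha hb hab
    simp only [sy, smul_eq_mul]
    have : ∑ σ : Equiv.Perm (Fin (n + 1)), pf σ f (a • x + b • y)
        ≤ ∑ σ : Equiv.Perm (Fin (n + 1)), (a * pf σ f x + b * pf σ f y) := by
      refine Finset.sum_le_sum fun σ _ => ?_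
      exact hc.2 (perm_mem hx σ) (perm_mem hy σ) ha hb hab
    rw [Finset.sum_add_distrib, ← Finset.mul_sum, ← Finset.mul_sum] at this
    have := mul_le_mul_of_nonneg_left this (inv_pos.2 hp).le
    linarith

lemma A_mul_sy {f g : (Fin (n + 1) → ℝ) → ℝ} (hg : Bd n g) (hm : Measurable f)
    (hb : ∃ C, ∀ l ∈ stdSimplex ℝ (Fin (n + 1)), |f l| ≤ C) :
    A n (fun l => g l * sy f l) = A n (fun l => g l * f l) := by
  have hp := card_pos' (n := n)
  have e : ∀ l, g l * sy f l = (Fintype.card (Equiv.Perm (Fin (n + 1))) : ℝ)⁻¹ *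
      ∑ σ : Equiv.Perm (Fin (n + 1)), pf σ (fun l => g l * f l) l := by
    intro l
    simp only [sy, pf, hg.sym, ← Finset.mul_sum]
    ring
  obtain ⟨C, hC⟩ := hb
  obtain ⟨D, hD⟩ := hg.bdd
  have hgf : ∀ l ∈ stdSimplex ℝ (Fin (n + 1)), |g l * f l| ≤ D * C := by
    intro l hl
    rw [abs_mul]
    exact mul_le_mul (hD l hl) (hC l hl) (abs_nonneg _) ((abs_nonneg _).trans (hD l hl))
  simp only [e]
  rw [A_mul_const]
  have e2 : A n (fun l => ∑ σ : Equiv.Perm (Fin (n + 1)), pf σ (fun l => g l * f l) l)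
      = ∑ σ : Equiv.Perm (Fin (n + 1)), A n (pf σ (fun l => g l * f l)) := by
    simp only [A]
    rw [integral_finsetSum]
    intro σ _
    exact integrableOn_of_bd (measurable_pf σ (hg.meas.mul hm))
      ⟨D * C, fun l hl => hgf _ (perm_mem hl σ)⟩
  rw [e2]
  have e3 : ∀ σ : Equiv.Perm (Fin (n + 1)),
      A n (pf σ (fun l => g l * f l)) = A n (fun l => g l * f l) := fun σ =>
    A_perm σ (fun l => g l * f l)
  simp only [e3, Finset.sum_const, Finset.card_univ, nsmul_eq_mul]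
  field_simp

/-- The hypotheses on the function `b`. -/
structure Gg (n : ℕ) (b : (Fin (n + 1) → ℝ) → ℝ) : Prop where
  meas : Measurable b
  bdd : ∃ C, ∀ l ∈ stdSimplex ℝ (Fin (n + 1)), |b l| ≤ C
  conv : ConvexOn ℝ (stdSimplex ℝ (Fin (n + 1))) b
  nonneg : ∀ l ∈ stdSimplex ℝ (Fin (n + 1)), 0 ≤ b l
  ctr : b (ctr n) = 0

theorem kl (n : ℕ) : ∃ c > 0, ∀ (f b : (Fin (n + 1) → ℝ) → ℝ) (κ : ℝ), 0 ≤ κ → Bd n f →
    ConvexOn ℝ (stdSimplex ℝ (Fin (n + 1))) (fun l => f l - κ * qf l) → Gg n b →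
    (A n f / V n + κ * c) * A n b ≤ A n (fun l => f l * b l) := by
  rcases n with _ | n
  · refine ⟨1, one_pos, ?_⟩
    intro f b κ _ _ _ hb
    have h : ∀ f : (Fin (0 + 1) → ℝ) → ℝ, A 0 f = f (LM.ctr 0) := by
      intro f
      have hd : Dl 0 = Set.univ := by
        refine Set.eq_univ_of_forall fun x i => ?_
        have : i = 0 := Subsingleton.elim (α := Fin 1) _ _
        subst this
        simp [tt]
      have : ∀ x : Fin 0 → ℝ, bary x = LM.ctr 0 := by
        intro x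
        rw [← bary_zero_eq]
        congr 1
        exact Subsingleton.elim _ _
      simp only [A, this, hd]
      simp [volume_pi, Measure.real]
    rw [h b, h (fun l => f l * b l), hb.ctr]
    simp
  · obtain ⟨c, hc, hq⟩ := corr_qf n
    refine ⟨c, hc, ?_⟩
    intro f b κ hκ hf hfc hb
    have hbs : Cls (n + 1) (sy b) := sy_cls hb.meas hb.bdd hb.conv
    have hV := V_pos (n + 1)
    have hctr : sy b (LM.ctr (n + 1)) = 0 := by
      have : ∀ σ : Equiv.Perm (Fin (n + 1 + 1)), pf σ b (LM.ctr (n + 1)) = 0 := fun σ => hb.ctr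
      simp [sy, this]
    have hnn : ∀ l ∈ stdSimplex ℝ (Fin (n + 2)), 0 ≤ sy b l := by
      intro l hl
      refine mul_nonneg (inv_nonneg.2 card_pos'.le) (Finset.sum_nonneg fun σ _ => ?_)
      exact hb.nonneg _ (perm_mem hl σ)
    have h1 := hq (sy b) hbs hnn hctr
    have hf0 : Cls (n + 1) (fun l => f l - κ * qf l) := by
      refine ⟨⟨hf.meas.sub ((cls_qf (n + 1)).meas.const_mul κ), fun σ l => ?_, ?_⟩, hfc⟩
      · rw [hf.sym, (cls_qf (n + 1)).sym]
      · obtain ⟨C, hC⟩ := hf.bdd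
        refine ⟨C + κ * 1, fun l hl => ?_⟩
        refine (abs_sub _ _).trans (add_le_add (hC l hl) ?_)
        rw [abs_of_nonneg (mul_nonneg hκ (qf_nonneg l))]
        exact mul_le_mul_of_nonneg_left (qf_le_one hl) hκ
    have h2 := corr (n + 1) _ _ hf0 hbs
    have e0 : A (n + 1) f = A (n + 1) (fun l => f l - κ * qf l) + κ * A (n + 1) qf := by
      rw [← A_mul_const, ← A_add hf0.toBd ((Bd.const κ).mul (cls_qf (n + 1)).toBd)]
      congr 1
      funext l; ring
    have e1 : A (n + 1) (fun l => f l * sy b l)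
        = A (n + 1) (fun l => (f l - κ * qf l) * sy b l)
          + κ * A (n + 1) (fun l => qf l * sy b l) := by
      rw [← A_mul_const, ← A_add (hf0.toBd.mul hbs.toBd)
        ((Bd.const κ).mul ((cls_qf (n + 1)).toBd.mul hbs.toBd))]
      congr 1
      funext l; ring
    have e2 : A (n + 1) (sy b) = A (n + 1) b := by
      have := A_mul_sy (Bd.const (n := n + 1) 1) hb.meas hb.bdd
      simpa using this
    rw [← A_mul_sy hf hb.meas hb.bdd, ← e2, e1, e0]
    have h3 := mul_le_mul_of_nonneg_left h1 hκ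
    have h4 : A (n + 1) (fun l => f l - κ * qf l) / V (n + 1) * A (n + 1) (sy b)
        ≤ A (n + 1) (fun l => (f l - κ * qf l) * sy b l) := by
      rw [div_mul_eq_mul_div, div_le_iff₀ hV]
      linarith
    calc _ = A (n + 1) (fun l => f l - κ * qf l) / V (n + 1) * A (n + 1) (sy b)
        + κ * ((A (n + 1) qf / V (n + 1) + c) * A (n + 1) (sy b)) := by ring
      _ ≤ _ := add_le_add h4 h3

end Pool.Agent.Helper77.LM

end
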