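import Mathlib

/-!
Barycentric coordinates of the centered simplex of `ℝⁿ`, its symmetries, and integration over
cones.
-/

set_option autoImplicit false

noncomputable section

open MeasureTheory Set
open scoped ENNReal

namespace Pool.Agent.Helper77.LM

variable {n : ℕ}

/-- the point with barycentric weights `l` with respect to `(-1, ..., -1), e_1, ..., e_n` -/
def un (l : Fin (n + 1) → ℝ) : Fin n → ℝ := fun j => l j.succ - l 0

/-- the barycentric coordinate of index `0` -/
def tt (x : Fin n → ℝ) : ℝ := (1 - ∑ j, x j) / (n + 1)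

/-- the barycentric coordinates of `x` -/
def bary (x : Fin n → ℝ) : Fin (n + 1) → ℝ := Fin.cons (tt x) (fun j => x j + tt x)

/-- the centered simplex -/
def Dl (n : ℕ) : Set (Fin n → ℝ) := {x | ∀ i, 0 ≤ bary x i}

@[simp] lemma bary_zero (x : Fin n → ℝ) : bary x 0 = tt x := rfl

@[simp] lemma bary_succ (x : Fin n → ℝ) (j : Fin n) : bary x j.succ = x j + tt x := rfl

lemma bary_eq (x : Fin n → ℝ) (i : Fin (n + 1)) :
    bary x i = (Fin.cons 0 x : Fin (n + 1) → ℝ) i + tt x := by
  refine Fin.cases ?_ (fun j => ?_) i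
  · simp
  · simp

lemma un_bary (x : Fin n → ℝ) : un (bary x) = x := by
  funext j; simp [un]

lemma bary_injective : Function.Injective (bary : (Fin n → ℝ) → Fin (n + 1) → ℝ) := by
  intro x y h
  rw [← un_bary x, h, un_bary]

lemma sum_bary (x : Fin n → ℝ) : ∑ i, bary x i = 1 := by
  rw [Fin.sum_univ_succ]
  simp only [bary_zero, bary_succ, Finset.sum_add_distrib, Finset.sum_const, Finset.card_univ,
    Fintype.card_fin, nsmul_eq_mul, tt]
  have h : (n : ℝ) + 1 ≠ 0 := by positivity
  field_simp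
  ring

lemma bary_un (l : Fin (n + 1) → ℝ) (hl : ∑ i, l i = 1) : bary (un l) = l := by
  have h0 : tt (un l) = l 0 := by
    rw [Fin.sum_univ_succ] at hl
    simp only [tt, un, Finset.sum_sub_distrib, Finset.sum_const, Finset.card_univ,
      Fintype.card_fin, nsmul_eq_mul]
    have h : (n : ℝ) + 1 ≠ 0 := by positivity
    rw [div_eq_iff h]
    linarith
  funext i
  refine Fin.cases ?_ (fun j => ?_) i
  · simp [h0]
  · simp [h0, un]

lemma un_add (l : Fin (n + 1) → ℝ) (c : ℝ) : un (fun i => l i + c) = un l := by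
  funext j; simp [un]

/-- the linear symmetry of the simplex given by a permutation of the vertices -/
def Tl (σ : Equiv.Perm (Fin (n + 1))) : (Fin n → ℝ) →ₗ[ℝ] (Fin n → ℝ) where
  toFun x := un (fun i => (Fin.cons 0 x : Fin (n + 1) → ℝ) (σ i))
  map_add' x y := by
    funext j
    have h : ∀ i : Fin (n + 1), (Fin.cons 0 (x + y) : Fin (n + 1) → ℝ) i
        = (Fin.cons 0 x : Fin (n + 1) → ℝ) i + (Fin.cons 0 y : Fin (n + 1) → ℝ) i := by
      intro i
      refine Fin.cases ?_ (fun j => ?_) i <;> simp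
    simp only [un, h, Pi.add_apply]
    ring
  map_smul' c x := by
    funext j
    have h : ∀ i : Fin (n + 1), (Fin.cons 0 (c • x) : Fin (n + 1) → ℝ) i
        = c * (Fin.cons 0 x : Fin (n + 1) → ℝ) i := by
      intro i
      refine Fin.cases ?_ (fun j => ?_) i <;> simp
    simp only [un, h, Pi.smul_apply, smul_eq_mul, RingHom.id_apply]
    ring

lemma bary_Tl (σ : Equiv.Perm (Fin (n + 1))) (x : Fin n → ℝ) :
    bary (Tl σ x) = fun i => bary x (σ i) := by
  have h : Tl σ x = un (fun i => bary x (σ i)) := by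
    change un (fun i => (Fin.cons 0 x : Fin (n + 1) → ℝ) (σ i)) = _
    have : (fun i => bary x (σ i))
        = fun i => (fun i => (Fin.cons 0 x : Fin (n + 1) → ℝ) (σ i)) i + tt x := by
      funext i; rw [bary_eq]
    rw [this, un_add]
  rw [h, bary_un]
  rw [Equiv.sum_comp σ (fun i => bary x i)]
  exact sum_bary x

lemma Tl_Tl (σ τ : Equiv.Perm (Fin (n + 1))) (x : Fin n → ℝ) :
    Tl σ (Tl τ x) = Tl (τ * σ) x := by
  apply bary_injective
  rw [bary_Tl, bary_Tl, bary_Tl]
  rfl

lemma Tl_one (x : Fin n → ℝ) : Tl 1 x = x := by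
  apply bary_injective
  rw [bary_Tl]
  rfl

lemma Tl_pow (σ : Equiv.Perm (Fin (n + 1))) (k : ℕ) : (Tl σ) ^ k = Tl (σ ^ k) := by
  induction k with
  | zero => ext x; simp [Tl_one]
  | succ k ih =>
    rw [pow_succ, ih]
    refine LinearMap.ext fun x => ?_
    change Tl (σ ^ k) (Tl σ x) = _
    rw [Tl_Tl, ← pow_succ']

lemma abs_det_Tl (σ : Equiv.Perm (Fin (n + 1))) : |LinearMap.det (Tl σ)| = 1 := by
  have h : (LinearMap.det (Tl σ)) ^ (orderOf σ) = 1 := by
    rw [← map_pow, Tl_pow, pow_orderOf_eq_one]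
    have : (Tl (1 : Equiv.Perm (Fin (n + 1))) : (Fin n → ℝ) →ₗ[ℝ] (Fin n → ℝ)) = 1 := by
      refine LinearMap.ext fun x => ?_
      rw [Tl_one]; rfl
    rw [this, map_one]
  have h2 : |LinearMap.det (Tl σ)| ^ (orderOf σ) = 1 := by
    rw [← abs_pow, h, abs_one]
  exact (pow_eq_one_iff_of_nonneg (abs_nonneg _) (orderOf_pos σ).ne').1 h2

lemma mp_Tl (σ : Equiv.Perm (Fin (n + 1))) :
    MeasurePreserving (Tl σ : (Fin n → ℝ) → (Fin n → ℝ)) volume volume := by
  refine ⟨(LinearMap.continuous_of_finiteDimensional _).measurable, ?_⟩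
  have h1 := abs_det_Tl σ
  have h0 : LinearMap.det (Tl σ) ≠ 0 := by
    intro h; rw [h] at h1; simp at h1
  rw [Measure.map_linearMap_addHaar_eq_smul_addHaar volume h0, abs_inv, h1]
  simp

lemma Tl_mem (σ : Equiv.Perm (Fin (n + 1))) {x : Fin n → ℝ} : Tl σ x ∈ Dl n ↔ x ∈ Dl n := by
  unfold Dl
  simp only [Set.mem_ofPred_eq, bary_Tl]
  constructor
  · intro h i
    have := h (σ.symm i)
    simpa using this
  · intro h i
    exact h (σ i)

lemma continuous_tt : Continuous (tt : (Fin n → ℝ) → ℝ) := by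
  unfold tt; fun_prop

lemma continuous_bary : Continuous (bary : (Fin n → ℝ) → Fin (n + 1) → ℝ) := by
  refine continuous_pi fun i => ?_
  refine Fin.cases ?_ (fun j => ?_) i
  · simpa using continuous_tt
  · simp only [bary_succ]
    exact (continuous_apply j).add continuous_tt

lemma isClosed_Dl : IsClosed (Dl n) := by
  have : Dl n = ⋂ i, {x | 0 ≤ bary x i} := by
    ext x; simp [Dl]
  rw [this]
  refine isClosed_iInter fun i => ?_
  exact isClosed_le continuous_const ((continuous_apply i).comp continuous_bary)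

lemma bary_le_one {x : Fin n → ℝ} (hx : x ∈ Dl n) (i : Fin (n + 1)) : bary x i ≤ 1 := by
  rw [← sum_bary x]
  exact Finset.single_le_sum (fun j _ => hx j) (Finset.mem_univ i)

lemma abs_le_of_mem {x : Fin n → ℝ} (hx : x ∈ Dl n) (j : Fin n) : |x j| ≤ 1 := by
  have h1 := hx 0
  have h2 := hx j.succ
  have h3 := bary_le_one hx 0
  have h4 := bary_le_one hx j.succ
  simp only [bary_zero, bary_succ] at h1 h2 h3 h4
  rw [abs_le]
  constructor <;> linarith

lemma isCompact_Dl : IsCompact (Dl n) := by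
  refine (isCompact_univ_pi (s := fun _ : Fin n => Set.Icc (-1 : ℝ) 1)
    (fun _ => isCompact_Icc)).of_isClosed_subset isClosed_Dl ?_
  intro x hx
  simp only [Set.mem_pi, Set.mem_univ, forall_true_left, Set.mem_Icc]
  intro j
  exact abs_le.1 (abs_le_of_mem hx j)

lemma bary_add_smul (x y : Fin n → ℝ) {a b : ℝ} (hab : a + b = 1) :
    bary (a • x + b • y) = a • bary x + b • bary y := by
  have ht : tt (a • x + b • y) = a * tt x + b * tt y := by
    simp only [tt, Pi.add_apply, Pi.smul_apply, smul_eq_mul, Finset.sum_add_distrib,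
      ← Finset.mul_sum]
    have h : (n : ℝ) + 1 ≠ 0 := by positivity
    field_simp
    linear_combination hab.symm
  funext i
  refine Fin.cases ?_ (fun j => ?_) i
  · simp [ht]
  · simp [ht]; ring

lemma convex_Dl : Convex ℝ (Dl n) := by
  intro x hx y hy a b ha hb hab i
  rw [bary_add_smul x y hab]
  simp only [Pi.add_apply, Pi.smul_apply, smul_eq_mul]
  have := mul_nonneg ha (hx i)
  have := mul_nonneg hb (hy i)
  linarith

lemma tt_smul (s : ℝ) (x : Fin n → ℝ) : tt (s • x) = s * tt x + (1 - s) / (n + 1) := by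
  simp only [tt, Pi.smul_apply, smul_eq_mul, ← Finset.mul_sum]
  have h : (n : ℝ) + 1 ≠ 0 := by positivity
  field_simp
  ring

lemma bary_smul (s : ℝ) (x : Fin n → ℝ) (i : Fin (n + 1)) :
    bary (s • x) i = s * bary x i + (1 - s) / (n + 1) := by
  refine Fin.cases ?_ (fun j => ?_) i
  · simp [tt_smul]
  · simp only [bary_succ, Pi.smul_apply, smul_eq_mul, tt_smul]; ring

lemma smul_mem_Dl {x : Fin n → ℝ} (hx : x ∈ Dl n) {s : ℝ} (h0 : 0 ≤ s) (h1 : s ≤ 1) :
    s • x ∈ Dl n := by
  intro i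
  rw [bary_smul]
  have := mul_nonneg h0 (hx i)
  have : 0 ≤ (1 - s) / ((n : ℝ) + 1) := div_nonneg (by linarith) (by positivity)
  linarith

end Pool.Agent.Helper77.LM

end
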