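import Pool.Agent.Helper77.LM.Basic

/-!
Integration over the cones of the centered simplex, and the radial formula.
-/

set_option autoImplicit false

noncomputable section

open MeasureTheory Set
open scoped ENNReal

namespace Pool.Agent.Helper77.LM

variable {n : ℕ}

/-- the closed positive orthant -/
def Orth (n : ℕ) : Set (Fin n → ℝ) := {a | ∀ j, 0 ≤ a j}

lemma measurableSet_Orth : MeasurableSet (Orth n) := by
  have : Orth n = ⋂ j, {a | 0 ≤ a j} := by ext; simp [Orth]
  rw [this]
  exact MeasurableSet.iInter fun j => measurableSet_le measurable_const (measurable_pi_apply j)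

/-- the cone of the facet opposite to vertex `i` -/
def Cn (i : Fin (n + 1)) : Set (Fin n → ℝ) := {x | ∀ j, j ≠ i → bary x i < bary x j}

lemma measurable_bary (i : Fin (n + 1)) : Measurable fun x : Fin n → ℝ => bary x i :=
  ((continuous_apply i).comp continuous_bary).measurable

lemma measurableSet_Cn (i : Fin (n + 1)) : MeasurableSet (Cn i) := by
  have : Cn i = ⋂ j, {x : Fin n → ℝ | j ≠ i → bary x i < bary x j} := by ext; simp [Cn]
  rw [this]
  refine MeasurableSet.iInter fun j => ?_
  by_cases h : j = i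
  · simp [h]
  · simp only [ne_eq, h, not_false_eq_true, forall_true_left]
    exact measurableSet_lt (measurable_bary i) (measurable_bary j)

lemma disjoint_Cn {i j : Fin (n + 1)} (h : i ≠ j) : Disjoint (Cn i) (Cn j) := by
  rw [Set.disjoint_left]
  intro x hx hy
  have h1 := hx j h.symm
  have h2 := hy i h
  linarith

lemma null_eq {i j : Fin (n + 1)} (h : i ≠ j) :
    volume {x : Fin n → ℝ | bary x i = bary x j} = 0 := by
  let S : Submodule ℝ (Fin n → ℝ) :=
    { carrier := {x | bary x i = bary x j}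
      add_mem' := by
        intro a b ha hb
        simp only [Set.mem_ofPred_eq, bary_eq] at ha hb ⊢
        have h : ∀ i : Fin (n + 1), (Fin.cons 0 (a + b) : Fin (n + 1) → ℝ) i
            = (Fin.cons 0 a : Fin (n + 1) → ℝ) i + (Fin.cons 0 b : Fin (n + 1) → ℝ) i := by
          intro i
          refine Fin.cases ?_ (fun j => ?_) i <;> simp
        rw [h, h]
        linarith
      zero_mem' := by
        simp only [Set.mem_ofPred_eq, bary_eq]
        have h : ∀ i : Fin (n + 1), (Fin.cons 0 (0 : Fin n → ℝ) : Fin (n + 1) → ℝ) i = 0 := by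
          intro i
          refine Fin.cases ?_ (fun j => ?_) i <;> simp
        rw [h, h]
      smul_mem' := by
        intro c a ha
        simp only [Set.mem_ofPred_eq, bary_smul] at ha ⊢
        rw [ha] }
  have hS : S ≠ ⊤ := by
    intro hS
    -- a point where the coordinates differ
    let l : Fin (n + 1) → ℝ := Pi.single i 1
    have hl : ∑ k, l k = 1 := by simp [l]
    have hm : un l ∈ S := by rw [hS]; trivial
    have : bary (un l) i = bary (un l) j := hm
    rw [bary_un l hl] at this
    simp [l, h.symm] at this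
  exact Measure.addHaar_submodule volume S hS

lemma ae_mem_iUnion_Cn : ∀ᵐ x : Fin n → ℝ, x ∈ ⋃ i, Cn i := by
  have h : ∀ᵐ x : Fin n → ℝ, ∀ i j : Fin (n + 1), i ≠ j → bary x i ≠ bary x j := by
    rw [ae_all_iff]; intro i
    rw [ae_all_iff]; intro j
    by_cases hij : i = j
    · simp [hij]
    · have := null_eq hij
      filter_upwards [compl_mem_ae_iff.2 this] with x hx _
      exact hx
  filter_upwards [h] with x hx
  obtain ⟨i, -, hi⟩ := Finset.exists_min_image (Finset.univ : Finset (Fin (n + 1)))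
    (fun i => bary x i) ⟨0, Finset.mem_univ _⟩
  refine Set.mem_iUnion.2 ⟨i, fun j hj => ?_⟩
  exact lt_of_le_of_ne (hi j (Finset.mem_univ _)) (hx i j hj.symm)

lemma Cn_zero : Cn (0 : Fin (n + 1)) = {x : Fin n → ℝ | ∀ j, 0 < x j} := by
  ext x
  simp only [Cn, Set.mem_ofPred_eq]
  constructor
  · intro h j
    have := h j.succ (Fin.succ_ne_zero j)
    simp only [bary_zero, bary_succ] at this
    linarith
  · intro h j hj
    obtain ⟨k, rfl⟩ := Fin.exists_succ_eq.2 hj
    simp only [bary_zero, bary_succ]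
    linarith [h k]

lemma Cn_zero_ae : (Cn (0 : Fin (n + 1)) : Set (Fin n → ℝ)) =ᵐ[volume] Orth n := by
  rw [Cn_zero]
  have h : ∀ᵐ x : Fin n → ℝ, ∀ j, x j ≠ 0 := by
    rw [ae_all_iff]
    intro j
    have := null_eq (n := n) (i := 0) (j := j.succ) (Fin.succ_ne_zero j).symm
    filter_upwards [compl_mem_ae_iff.2 this] with x hx h0
    apply hx
    simp [h0]
  filter_upwards [h] with x hx
  simp only [eq_iff_iff]
  change (∀ j, 0 < x j) ↔ (∀ j, 0 ≤ x j)
  exact ⟨fun h j => (h j).le, fun h j => lt_of_le_of_ne (h j) (hx j).symm⟩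

/-- **Decomposition into cones.** -/
lemma lint_cones (f : (Fin n → ℝ) → ℝ≥0∞) (hf : Measurable f) :
    ∫⁻ x, f x = ∑ i : Fin (n + 1), ∫⁻ a in Orth n, f (Tl (Equiv.swap 0 i) a) := by
  have h1 : ∫⁻ x, f x = ∫⁻ x in ⋃ i, Cn i, f x := by
    rw [← setLIntegral_univ]
    refine setLIntegral_congr ?_
    symm
    rw [Filter.eventuallyEq_univ]
    exact ae_mem_iUnion_Cn
  rw [h1, lintegral_iUnion measurableSet_Cn (fun i j h => disjoint_Cn h), tsum_fintype]
  refine Finset.sum_congr rfl fun i _ => ?_
  have h2 : (Tl (Equiv.swap 0 i) : (Fin n → ℝ) → (Fin n → ℝ)) ⁻¹' (Cn i) = Cn 0 := by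
    ext x
    simp only [Set.mem_preimage, Cn, Set.mem_ofPred_eq, bary_Tl, Equiv.swap_apply_right]
    constructor
    · intro h j hj
      have h3 := h (Equiv.swap 0 i j) (by
        intro h4
        apply hj
        have := congrArg (Equiv.swap 0 i) h4
        simpa using this)
      simpa using h3
    · intro h j hj
      refine h _ ?_
      intro h4
      apply hj
      have := congrArg (Equiv.swap 0 i) h4
      simpa using this
  rw [← (mp_Tl (Equiv.swap 0 i)).setLIntegral_comp_preimage (measurableSet_Cn i) hf, h2]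
  exact setLIntegral_congr Cn_zero_ae

lemma lint_smul (G : (Fin n → ℝ) → ℝ≥0∞) (hG : Measurable G) {s : ℝ} (hs : 0 < s) :
    ∫⁻ u, G u = ENNReal.ofReal (s ^ n) * ∫⁻ w, G (s • w) := by
  have h := Measure.map_addHaar_smul (volume : Measure (Fin n → ℝ)) hs.ne'
  have h2 : ∫⁻ w, G (s • w) = ∫⁻ u, G u ∂(Measure.map (s • ·) volume) := by
    rw [lintegral_map hG (measurable_const_smul s)]
  rw [h2, h, lintegral_smul_measure]
  simp only [Module.finrank_fin_fun, smul_eq_mul]
  rw [← mul_assoc, ← ENNReal.ofReal_mul (by positivity), abs_of_pos (by positivity),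
    mul_inv_cancel₀ (by positivity), ENNReal.ofReal_one, one_mul]

lemma lint_smul1 (G : ℝ → ℝ≥0∞) (hG : Measurable G) {s : ℝ} (hs : 0 < s) :
    ∫⁻ u, G u = ENNReal.ofReal s * ∫⁻ w, G (s * w) := by
  have h := Measure.map_addHaar_smul (volume : Measure ℝ) hs.ne'
  have h2 : ∫⁻ w, G (s * w) = ∫⁻ u, G u ∂(Measure.map (s • ·) volume) := by
    rw [lintegral_map hG (measurable_const_smul s)]
    rfl
  rw [h2, h, lintegral_smul_measure]
  simp only [Module.finrank_self, smul_eq_mul, pow_one]
  rw [← mul_assoc, ← ENNReal.ofReal_mul (by positivity), abs_of_pos (by positivity),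
    mul_inv_cancel₀ (by positivity), ENNReal.ofReal_one, one_mul]

lemma lint_cons (F : (Fin (n + 1) → ℝ) → ℝ≥0∞) (hF : Measurable F) :
    ∫⁻ a, F a = ∫⁻ a0 : ℝ, ∫⁻ a' : Fin n → ℝ, F (Fin.cons a0 a') := by
  have h := (volume_preserving_piFinSuccAbove (fun _ : Fin (n + 1) => ℝ) 0).symm
  rw [← h.lintegral_comp hF, Measure.volume_eq_prod, lintegral_prod]
  · refine lintegral_congr fun a => lintegral_congr fun b => ?_
    have e : (MeasurableEquiv.piFinSuccAbove (fun _ : Fin (n + 1) => ℝ) 0).symm (a, b)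
        = Fin.cons a b := Fin.insertNth_zero' a b
    rw [e]
  · exact (hF.comp h.measurable).aemeasurable

lemma measurable_cons' {α : Type*} [MeasurableSpace α] {f : α → ℝ} {g : α → Fin n → ℝ}
    (hf : Measurable f) (hg : Measurable g) :
    Measurable fun x => (Fin.cons (f x) (g x) : Fin (n + 1) → ℝ) := by
  refine measurable_pi_lambda _ fun i => ?_
  refine Fin.cases ?_ (fun j => ?_) i
  · simpa using hf
  · simp only [Fin.cons_succ]
    exact (measurable_pi_apply j).comp hg

/-- **Radial formula.** -/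
lemma lint_radial (F : (Fin (n + 1) → ℝ) → ℝ≥0∞) (hF : Measurable F) :
    ∫⁻ a in Orth (n + 1), F a = ENNReal.ofReal (1 / (n + 1)) *
      ∫⁻ s in Ioi (0 : ℝ), ENNReal.ofReal (s ^ n) * ∫⁻ w in Dl n, F (s • bary w) := by
  have hn : (0 : ℝ) < n + 1 := by positivity
  set F' : (Fin (n + 1) → ℝ) → ℝ≥0∞ := (Orth (n + 1)).indicator F with hF'
  have hF'm : Measurable F' := hF.indicator measurableSet_Orth
  rw [← lintegral_indicator measurableSet_Orth, ← hF', lint_cons F' hF'm]
  -- shear
  have e1 : ∀ a0 : ℝ, ∫⁻ a' : Fin n → ℝ, F' (Fin.cons a0 a')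
      = ∫⁻ u : Fin n → ℝ, F' (Fin.cons a0 (fun j => u j + a0)) := by
    intro a0
    have := lintegral_add_right_eq_self (μ := (volume : Measure (Fin n → ℝ)))
      (fun a' => F' (Fin.cons a0 a')) (fun _ => a0)
    rw [← this]
    rfl
  simp only [e1]
  have hm1 : Measurable fun p : ℝ × (Fin n → ℝ) =>
      F' (Fin.cons p.1 (fun j => p.2 j + p.1)) := by
    refine hF'm.comp (measurable_cons' measurable_fst ?_)
    exact measurable_pi_lambda _ fun j =>
      ((measurable_pi_apply j).comp measurable_snd).add measurable_fst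
  rw [lintegral_lintegral_swap (by exact hm1.aemeasurable)]
  have e2 : ∀ u : Fin n → ℝ, ∫⁻ a0 : ℝ, F' (Fin.cons a0 (fun j => u j + a0))
      = ENNReal.ofReal (1 / (n + 1)) * ∫⁻ s : ℝ,
        F' (Fin.cons ((s - ∑ j, u j) / (n + 1)) (fun j => u j + (s - ∑ j, u j) / (n + 1))) := by
    intro u
    have hmu : Measurable fun a0 : ℝ => F' (Fin.cons a0 (fun j => u j + a0)) := by
      refine hF'm.comp (measurable_cons' measurable_id ?_)
      exact measurable_pi_lambda _ fun j => measurable_const.add measurable_id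
    rw [lint_smul1 _ hmu (s := 1 / ((n : ℝ) + 1)) (by positivity)]
    congr 1
    rw [← lintegral_sub_right_eq_self _ (∑ j, u j)]
    refine lintegral_congr fun s => ?_
    have : 1 / ((n : ℝ) + 1) * (s - ∑ j, u j) = (s - ∑ j, u j) / (n + 1) := by ring
    rw [this]
  simp only [e2]
  have hm2 : Measurable fun p : (Fin n → ℝ) × ℝ => F' (Fin.cons ((p.2 - ∑ j, p.1 j) / (n + 1))
      (fun j => p.1 j + (p.2 - ∑ j, p.1 j) / (n + 1))) := by
    have h0 : Measurable fun p : (Fin n → ℝ) × ℝ => (p.2 - ∑ j, p.1 j) / ((n : ℝ) + 1) := by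
      refine (measurable_snd.sub ?_).div_const _
      exact Finset.measurable_sum _ fun j _ => (measurable_pi_apply j).comp measurable_fst
    refine hF'm.comp (measurable_cons' h0 ?_)
    exact measurable_pi_lambda _ fun j => ((measurable_pi_apply j).comp measurable_fst).add h0
  rw [lintegral_const_mul _ (hm2.lintegral_prod_right'),
    lintegral_lintegral_swap (by exact hm2.aemeasurable)]
  congr 1
  -- the sum of the point is `s`
  have hsum : ∀ (s : ℝ) (u : Fin n → ℝ),
      ∑ i, (Fin.cons ((s - ∑ j, u j) / (n + 1))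
        (fun j => u j + (s - ∑ j, u j) / (n + 1)) : Fin (n + 1) → ℝ) i = s := by
    intro s u
    rw [Fin.sum_univ_succ]
    simp only [Fin.cons_zero, Fin.cons_succ, Finset.sum_add_distrib, Finset.sum_const,
      Finset.card_univ, Fintype.card_fin, nsmul_eq_mul]
    field_simp
    ring
  rw [← lintegral_indicator measurableSet_Ioi]
  have hae : ∀ᵐ s : ℝ, s ≠ 0 := by
    rw [ae_iff]; simp
  refine lintegral_congr_ae ?_
  filter_upwards [hae] with s hs0
  by_cases hs : 0 < s
  · rw [Set.indicator_of_mem (by exact hs : s ∈ Ioi (0 : ℝ))]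
    have hmu : Measurable fun u : Fin n → ℝ => F' (Fin.cons ((s - ∑ j, u j) / (n + 1))
      (fun j => u j + (s - ∑ j, u j) / (n + 1))) :=
      hm2.comp (measurable_id.prodMk measurable_const)
    rw [lint_smul _ hmu hs]
    congr 1
    rw [← lintegral_indicator isClosed_Dl.measurableSet]
    refine lintegral_congr fun w => ?_
    have hpt : (Fin.cons ((s - ∑ j, (s • w) j) / (n + 1))
        (fun j => (s • w) j + (s - ∑ j, (s • w) j) / (n + 1)) : Fin (n + 1) → ℝ)
        = s • bary w := by
      have h0 : (s - ∑ j, (s • w) j) / ((n : ℝ) + 1) = s * tt w := by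
        simp only [Pi.smul_apply, smul_eq_mul, ← Finset.mul_sum, tt]
        field_simp
      funext i
      refine Fin.cases ?_ (fun j => ?_) i
      · rw [Fin.cons_zero, h0]; rfl
      · rw [Fin.cons_succ, h0]
        simp only [Pi.smul_apply, bary_succ, smul_eq_mul]; ring
    rw [hpt]
    have hiff : s • bary w ∈ Orth (n + 1) ↔ w ∈ Dl n := by
      simp only [Orth, Dl, Set.mem_ofPred_eq, Pi.smul_apply, smul_eq_mul]
      exact forall_congr' fun i => mul_nonneg_iff_of_pos_left hs
    by_cases hw : w ∈ Dl n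
    · rw [Set.indicator_of_mem hw, hF', Set.indicator_of_mem (hiff.2 hw)]
    · rw [Set.indicator_of_notMem hw, hF', Set.indicator_of_notMem (fun h => hw (hiff.1 h))]
  · rw [Set.indicator_of_notMem (by exact hs : s ∉ Ioi (0 : ℝ))]
    have : ∀ u : Fin n → ℝ, F' (Fin.cons ((s - ∑ j, u j) / (n + 1))
      (fun j => u j + (s - ∑ j, u j) / (n + 1))) = 0 := by
      intro u
      rw [hF']
      refine Set.indicator_of_notMem ?_ _
      intro hmem
      have h1 := hsum s u
      have h2 := Finset.sum_nonneg (s := Finset.univ) (fun i _ => hmem i)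
      rw [h1] at h2
      exact hs (lt_of_le_of_ne h2 hs0.symm)
    simp [this]

/-- **Cones and radii.** -/
lemma lint_cone_radial (f : (Fin (n + 1) → ℝ) → ℝ≥0∞) (hf : Measurable f) :
    ∫⁻ x, f x = ∑ i : Fin (n + 1 + 1), ENNReal.ofReal (1 / (n + 1)) *
      ∫⁻ s in Ioi (0 : ℝ), ENNReal.ofReal (s ^ n) *
        ∫⁻ w in Dl n, f (Tl (Equiv.swap 0 i) (s • bary w)) := by
  rw [lint_cones f hf]
  refine Finset.sum_congr rfl fun i _ => ?_
  rw [lint_radial (fun a => f (Tl (Equiv.swap 0 i) a))
    (hf.comp (mp_Tl (Equiv.swap 0 i)).measurable)]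

end Pool.Agent.Helper77.LM

end
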