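import Pool.Agent.Helper77.LM.Assoc4

/-!
The support function of the centered simplex, and the exponential integrals.
-/

set_option autoImplicit false

noncomputable section

open MeasureTheory Set
open scoped ENNReal

namespace Pool.Agent.Helper77.LM

variable {n : ℕ}

/-- the dot product -/
def dp (x y : Fin n → ℝ) : ℝ := ∑ i, x i * y i

/-- the products of `y` with the vertices of the centered simplex -/
def vy (y : Fin n → ℝ) : Fin (n + 1) → ℝ := Fin.cons (-∑ j, y j) y

/-- the support function of the centered simplex -/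
def hh (y : Fin n → ℝ) : ℝ := Finset.univ.sup' ⟨0, Finset.mem_univ _⟩ (vy y)

lemma sum_vy (y : Fin n → ℝ) : ∑ j, vy y j = 0 := by
  rw [Fin.sum_univ_succ]; simp [vy]

lemma vy_le (y : Fin n → ℝ) (j : Fin (n + 1)) : vy y j ≤ hh y :=
  Finset.le_sup' (vy y) (Finset.mem_univ j)

lemma exists_vy (y : Fin n → ℝ) : ∃ j, vy y j = hh y := by
  obtain ⟨j, _, hj⟩ := Finset.exists_mem_eq_sup' ⟨0, Finset.mem_univ _⟩ (vy y)
  exact ⟨j, hj.symm⟩

lemma hh_nonneg (y : Fin n → ℝ) : 0 ≤ hh y := by
  have h1 := sum_vy y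
  have h2 : ∑ j, vy y j ≤ ∑ _j : Fin (n + 1), hh y := Finset.sum_le_sum fun j _ => vy_le y j
  rw [h1] at h2
  simp only [Finset.sum_const, Finset.card_univ, Fintype.card_fin, nsmul_eq_mul] at h2
  push_cast at h2
  have h3 : (0 : ℝ) < n + 1 := by positivity
  exact nonneg_of_mul_nonneg_right h2 h3

lemma neg_le_vy (y : Fin n → ℝ) (j : Fin (n + 1)) : -(n * hh y) ≤ vy y j := by
  have h1 := sum_vy y
  rw [← Finset.add_sum_erase _ _ (Finset.mem_univ j)] at h1
  have h2 : ∑ i ∈ Finset.univ.erase j, vy y i ≤ ∑ _i ∈ Finset.univ.erase j, hh y :=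
    Finset.sum_le_sum fun i _ => vy_le y i
  simp only [Finset.sum_const, Finset.card_erase_of_mem (Finset.mem_univ j), Finset.card_univ,
    Fintype.card_fin, Nat.add_sub_cancel, nsmul_eq_mul] at h2
  linarith

lemma abs_le_hh (y : Fin n → ℝ) (j : Fin n) : |y j| ≤ n * hh y := by
  have h0 := hh_nonneg y
  have hn : (1 : ℝ) ≤ n := by
    have : 0 < n := Nat.pos_of_ne_zero (by rintro rfl; exact j.elim0)
    exact_mod_cast this
  have h1 := vy_le y j.succ
  have h2 := neg_le_vy y j.succ
  have e : vy y j.succ = y j := by simp [vy]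
  rw [e] at h1 h2
  rw [abs_le]
  constructor
  · exact h2
  · nlinarith

lemma dp_eq_bary (x y : Fin n → ℝ) : dp x y = ∑ j, bary x j * vy y j := by
  rw [Fin.sum_univ_succ]
  simp only [bary_zero, bary_succ, vy, Fin.cons_zero, Fin.cons_succ, add_mul,
    Finset.sum_add_distrib, ← Finset.mul_sum, dp]
  ring

lemma dp_le {x : Fin n → ℝ} (hx : x ∈ Dl n) (y : Fin n → ℝ) : dp x y ≤ hh y := by
  rw [dp_eq_bary]
  calc ∑ j, bary x j * vy y j ≤ ∑ j, bary x j * hh y :=
        Finset.sum_le_sum fun j _ => mul_le_mul_of_nonneg_left (vy_le y j) (hx j)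
    _ = hh y := by rw [← Finset.sum_mul, sum_bary, one_mul]

lemma le_dp {x : Fin n → ℝ} (hx : x ∈ Dl n) (y : Fin n → ℝ) : -(n * hh y) ≤ dp x y := by
  rw [dp_eq_bary]
  calc -(n * hh y) = ∑ j, bary x j * -(n * hh y) := by rw [← Finset.sum_mul, sum_bary, one_mul]
    _ ≤ ∑ j, bary x j * vy y j :=
        Finset.sum_le_sum fun j _ => mul_le_mul_of_nonneg_left (neg_le_vy y j) (hx j)

lemma continuous_vy : Continuous (vy : (Fin n → ℝ) → Fin (n + 1) → ℝ) := by
  refine continuous_pi fun i => ?_
  refine Fin.cases ?_ (fun j => ?_) i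
  · simp only [vy, Fin.cons_zero]; fun_prop
  · simp only [vy, Fin.cons_succ]; fun_prop

lemma continuous_hh : Continuous (hh : (Fin n → ℝ) → ℝ) := by
  unfold hh
  exact Continuous.finset_sup'_apply _ fun i _ => (continuous_apply i).comp continuous_vy

lemma dp_add_left (x x' y : Fin n → ℝ) : dp (x + x') y = dp x y + dp x' y := by
  simp only [dp, Pi.add_apply, add_mul, Finset.sum_add_distrib]

lemma dp_smul_left (c : ℝ) (x y : Fin n → ℝ) : dp (c • x) y = c * dp x y := by
  simp only [dp, Pi.smul_apply, smul_eq_mul, Finset.mul_sum, mul_assoc]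

lemma dp_smul_right (c : ℝ) (x y : Fin n → ℝ) : dp x (c • y) = c * dp x y := by
  simp only [dp, Pi.smul_apply, smul_eq_mul, Finset.mul_sum]
  exact Finset.sum_congr rfl fun i _ => by ring

lemma continuous_dp : Continuous fun q : (Fin n → ℝ) × (Fin n → ℝ) => dp q.1 q.2 := by
  unfold dp; fun_prop

/-- the exponential integral over the centered simplex -/
def II (p : ℝ) (y : Fin n → ℝ) : ℝ := ∫ x in Dl n, Real.exp (p * dp x y)

lemma integrableOn_exp (p : ℝ) (y : Fin n → ℝ) {S : Set (Fin n → ℝ)} (hS : IsCompact S) :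
    IntegrableOn (fun x => Real.exp (p * dp x y)) S := by
  refine ContinuousOn.integrableOn_compact hS (Continuous.continuousOn ?_)
  exact Real.continuous_exp.comp (continuous_const.mul
    (continuous_dp.comp (continuous_id.prodMk continuous_const)))

lemma measurable_II (p : ℝ) : Measurable (II p : (Fin n → ℝ) → ℝ) := by
  have h : Measurable (Function.uncurry fun (y x : Fin n → ℝ) => Real.exp (p * dp x y)) := by
    refine (Real.continuous_exp.comp (continuous_const.mul
      (continuous_dp.comp (continuous_snd.prodMk continuous_fst)))).measurable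
  exact (h.stronglyMeasurable.integral_prod_right (ν := volume.restrict (Dl n))).measurable

lemma II_le {p : ℝ} (hp : 0 < p) (y : Fin n → ℝ) : II p y ≤ V n * Real.exp (p * hh y) := by
  have h : II p y ≤ ∫ _x in Dl n, Real.exp (p * hh y) := by
    refine setIntegral_mono_on (integrableOn_exp p y isCompact_Dl) ?_
      isClosed_Dl.measurableSet ?_
    · exact integrableOn_const vol_ne_top
    · intro x hx
      exact Real.exp_le_exp.2 (mul_le_mul_of_nonneg_left (dp_le hx y) hp.le)
  refine h.trans (le_of_eq ?_)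
  simp only [integral_const, smul_eq_mul, Measure.real, Measure.restrict_apply_univ, V]

lemma vtx_mem (j : Fin (n + 1)) : un (Pi.single j 1) ∈ Dl n := by
  intro i
  rw [bary_un _ (by simp)]
  by_cases h : i = j
  · subst h; simp
  · simp [h]

lemma dp_vtx (j : Fin (n + 1)) (y : Fin n → ℝ) : dp (un (Pi.single j 1)) y = vy y j := by
  rw [dp_eq_bary, bary_un _ (by simp)]
  rw [Finset.sum_eq_single j]
  · simp
  · intro i _ hi; simp [hi]
  · simp

/-- lower bound for the exponential integral -/
lemma le_II {p : ℝ} (hp : 0 < p) {t : ℝ} (ht0 : 0 < t) (ht1 : t ≤ 1) (y : Fin n → ℝ) :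
    t ^ n * V n * Real.exp (p * (1 - (n + 1) * t) * hh y) ≤ II p y := by
  obtain ⟨j, hj⟩ := exists_vy y
  set v : Fin n → ℝ := un (Pi.single j 1) with hv
  have hvm : v ∈ Dl n := vtx_mem j
  have hvy : dp v y = hh y := by rw [hv, dp_vtx, hj]
  -- the small copy
  set g : (Fin n → ℝ) → (Fin n → ℝ) := fun x => t • x + (1 - t) • v with hg
  have hgm : ∀ x ∈ Dl n, g x ∈ Dl n := fun x hx =>
    convex_Dl hx hvm ht0.le (by linarith) (by ring)
  have hlow : ∀ x ∈ Dl n, (1 - (n + 1) * t) * hh y ≤ dp (g x) y := by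
    intro x hx
    have := le_dp hx y
    simp only [hg, dp_add_left, dp_smul_left, hvy]
    have h2 := mul_le_mul_of_nonneg_left this ht0.le
    linarith
  -- change of variables
  have e1 : ENNReal.ofReal (II p y)
      = ∫⁻ x, (Dl n).indicator (fun x => ENNReal.ofReal (Real.exp (p * dp x y))) x := by
    rw [II, ofReal_integral_eq_lintegral_ofReal (integrableOn_exp p y isCompact_Dl)
      (Filter.Eventually.of_forall fun x => (Real.exp_pos _).le),
      lintegral_indicator isClosed_Dl.measurableSet]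
  have hmeas : Measurable ((Dl n).indicator
      (fun x => ENNReal.ofReal (Real.exp (p * dp x y)))) := by
    refine Measurable.indicator ?_ isClosed_Dl.measurableSet
    refine Measurable.ennreal_ofReal ?_
    exact (Real.continuous_exp.comp (continuous_const.mul
      (continuous_dp.comp (continuous_id.prodMk continuous_const)))).measurable
  have e2 : ∫⁻ x, (Dl n).indicator (fun x => ENNReal.ofReal (Real.exp (p * dp x y))) x
      = ENNReal.ofReal (t ^ n) * ∫⁻ x, (Dl n).indicator
        (fun x => ENNReal.ofReal (Real.exp (p * dp x y))) (g x) := by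
    rw [← lintegral_add_right_eq_self _ ((1 - t) • v), lint_smul _ _ ht0]
    exact hmeas.comp (measurable_id.add_const _)
  have e3 : ENNReal.ofReal (V n * Real.exp (p * (1 - (n + 1) * t) * hh y))
      ≤ ∫⁻ x, (Dl n).indicator (fun x => ENNReal.ofReal (Real.exp (p * dp x y))) (g x) := by
    have h1 : ∫⁻ x in Dl n, ENNReal.ofReal (Real.exp (p * (1 - (n + 1) * t) * hh y))
        ≤ ∫⁻ x, (Dl n).indicator (fun x => ENNReal.ofReal (Real.exp (p * dp x y))) (g x) := by
      rw [← lintegral_indicator isClosed_Dl.measurableSet]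
      refine lintegral_mono fun x => ?_
      by_cases hx : x ∈ Dl n
      · rw [Set.indicator_of_mem hx, Set.indicator_of_mem (hgm x hx)]
        refine ENNReal.ofReal_le_ofReal (Real.exp_le_exp.2 ?_)
        rw [mul_assoc]
        exact mul_le_mul_of_nonneg_left (hlow x hx) hp.le
      · rw [Set.indicator_of_notMem hx]; exact zero_le
    rw [setLIntegral_const, mul_comm] at h1
    rw [ENNReal.ofReal_mul (V_nonneg n), V, ENNReal.ofReal_toReal vol_ne_top]
    exact h1
  have hII0 : 0 ≤ II p y := integral_nonneg fun x => (Real.exp_pos _).le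
  rw [← ENNReal.ofReal_le_ofReal_iff hII0, e1, e2, mul_assoc, ENNReal.ofReal_mul (by positivity)]
  exact mul_le_mul_right e3 _

lemma II_pos {p : ℝ} (hp : 0 < p) (y : Fin n → ℝ) : 0 < II p y := by
  refine lt_of_lt_of_le ?_ (le_II hp (t := 1) one_pos le_rfl y)
  have := V_pos n
  positivity

/-- integrability of the one dimensional exponential -/
lemma integrable_exp_abs {c : ℝ} (hc : 0 < c) : Integrable fun t : ℝ => Real.exp (-(c * |t|)) := by
  set m : ℝ := min 1 (c ^ 2 / 2) with hm
  have hm0 : 0 < m := lt_min one_pos (by positivity)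
  refine (integrable_inv_one_add_sq.const_mul (1 / m)).mono' ?_ ?_
  · exact (Real.continuous_exp.comp (by fun_prop)).aestronglyMeasurable
  · refine Filter.Eventually.of_forall fun t => ?_
    rw [Real.norm_eq_abs, abs_of_pos (Real.exp_pos _), Real.exp_neg]
    have h1 : m * (1 + t ^ 2) ≤ Real.exp (c * |t|) := by
      have h2 := Real.quadratic_le_exp_of_nonneg (x := c * |t|) (by positivity)
      have h3 : (c * |t|) ^ 2 = c ^ 2 * t ^ 2 := by rw [mul_pow, sq_abs]
      rw [h3] at h2
      have h4 : m ≤ 1 := min_le_left _ _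
      have h5 : m ≤ c ^ 2 / 2 := min_le_right _ _
      have h6 : 0 ≤ c * |t| := by positivity
      nlinarith [mul_le_mul_of_nonneg_right h5 (sq_nonneg t)]
    have h7 : 0 < m * (1 + t ^ 2) := by positivity
    calc (Real.exp (c * |t|))⁻¹ ≤ (m * (1 + t ^ 2))⁻¹ := inv_anti₀ h7 h1
      _ = 1 / m * (1 + t ^ 2)⁻¹ := by rw [mul_inv]; ring

lemma sum_abs_le_hh (y : Fin n → ℝ) : ∑ j, |y j| ≤ n * n * hh y := by
  calc ∑ j, |y j| ≤ ∑ _j : Fin n, n * hh y := Finset.sum_le_sum fun j _ => abs_le_hh y j
    _ = n * n * hh y := by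
      simp only [Finset.sum_const, Finset.card_univ, Fintype.card_fin, nsmul_eq_mul]; ring

/-- integrability of `exp (-c h)` -/
lemma integrable_exp_hh {c : ℝ} (hc : 0 < c) :
    Integrable fun y : Fin n → ℝ => Real.exp (-(c * hh y)) := by
  set d : ℝ := c / (n * n + 1) with hd
  have hd0 : 0 < d := by positivity
  have h := Integrable.fintype_prod (μ := fun _ : Fin n => (volume : Measure ℝ))
    (f := fun (_ : Fin n) (t : ℝ) => Real.exp (-(d * |t|))) (fun _ => integrable_exp_abs hd0)
  rw [← volume_pi] at h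
  refine h.mono' ?_ ?_
  · exact (Real.continuous_exp.comp (by
      exact (continuous_const.mul continuous_hh).neg)).aestronglyMeasurable
  · refine Filter.Eventually.of_forall fun y => ?_
    rw [Real.norm_eq_abs, abs_of_pos (Real.exp_pos _), ← Real.exp_sum]
    refine Real.exp_le_exp.2 ?_
    rw [Finset.sum_neg_distrib, neg_le_neg_iff, ← Finset.mul_sum]
    have h1 := sum_abs_le_hh y
    have h2 := hh_nonneg y
    calc d * ∑ j, |y j| ≤ d * (n * n * hh y) := mul_le_mul_of_nonneg_left h1 hd0.le
      _ ≤ d * ((n * n + 1) * hh y) := by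
        refine mul_le_mul_of_nonneg_left ?_ hd0.le
        nlinarith
      _ = c * hh y := by rw [hd]; field_simp

end Pool.Agent.Helper77.LM

end
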