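import Pool.Agent.Helper77.LM.Dens

/-!
The density `N(x) = ∫ exp(p⟨x,y⟩) I(y)^(-1-1/p) dy`.
-/

set_option autoImplicit false

noncomputable section

open MeasureTheory Set
open scoped ENNReal

namespace Pool.Agent.Helper77.LM

variable {n : ℕ}

/-- the power `-1/p` of the exponential integral -/
def uu (p : ℝ) (y : Fin n → ℝ) : ℝ := II p y ^ (-(1 / p))

/-- the power `-1/p-1` of the exponential integral -/
def ww (p : ℝ) (y : Fin n → ℝ) : ℝ := II p y ^ (-(1 / p) - 1)

/-- the density -/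
def Nr (p : ℝ) (x : Fin n → ℝ) : ℝ := ∫ y : Fin n → ℝ, Real.exp (p * dp x y) * ww p y

lemma uu_pos {p : ℝ} (hp : 0 < p) (y : Fin n → ℝ) : 0 < uu p y := Real.rpow_pos_of_pos (II_pos hp y) _

lemma ww_pos {p : ℝ} (hp : 0 < p) (y : Fin n → ℝ) : 0 < ww p y := Real.rpow_pos_of_pos (II_pos hp y) _

lemma measurable_uu (p : ℝ) : Measurable (uu p : (Fin n → ℝ) → ℝ) :=
  (measurable_II p).pow_const _

lemma measurable_ww (p : ℝ) : Measurable (ww p : (Fin n → ℝ) → ℝ) :=
  (measurable_II p).pow_const _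

lemma rpow_bound {p : ℝ} (hp : 0 < p) {z : ℝ} (hz : z ≤ 0) (n : ℕ) :
    ∃ C > 0, ∀ y : Fin n → ℝ, II p y ^ z ≤ C * Real.exp (z * (p * (1 - 1 / (2 * (p + 1)))) * hh y) := by
  set t : ℝ := 1 / (2 * (p + 1) * (n + 1)) with ht
  have ht0 : 0 < t := by positivity
  have ht1 : t ≤ 1 := by
    rw [ht, div_le_one (by positivity)]
    have h1 : (1 : ℝ) ≤ n + 1 := by linarith [(Nat.cast_nonneg n : (0 : ℝ) ≤ n)]
    have h2 : (1 : ℝ) ≤ 2 * (p + 1) := by linarith
    nlinarith
  have hV := V_pos n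
  refine ⟨(t ^ n * V n) ^ z, by positivity, fun y => ?_⟩
  have h1 := le_II hp ht0 ht1 y
  have e : (n + 1 : ℝ) * t = 1 / (2 * (p + 1)) := by
    rw [ht]; field_simp
  rw [e] at h1
  have h2 : 0 < t ^ n * V n * Real.exp (p * (1 - 1 / (2 * (p + 1))) * hh y) := by positivity
  have h3 := Real.rpow_le_rpow_of_nonpos h2 h1 hz
  refine h3.trans (le_of_eq ?_)
  rw [Real.mul_rpow (by positivity) (Real.exp_pos _).le, ← Real.exp_mul]
  congr 2
  ring

lemma uu_le {p : ℝ} (hp : 0 < p) (n : ℕ) :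
    ∃ C > 0, ∀ y : Fin n → ℝ, uu p y ≤ C * Real.exp (-(1 / 2 * hh y)) := by
  obtain ⟨C, hC, h⟩ := rpow_bound hp (z := -(1 / p)) (by
    have : 0 < 1 / p := by positivity
    linarith) n
  refine ⟨C, hC, fun y => (h y).trans ?_⟩
  refine mul_le_mul_of_nonneg_left (Real.exp_le_exp.2 ?_) hC.le
  have h1 : -(1 / p) * (p * (1 - 1 / (2 * (p + 1)))) = -(1 - 1 / (2 * (p + 1))) := by
    field_simp
  rw [h1]
  have h2 : 1 / (2 * (p + 1)) ≤ 1 / 2 := by
    apply one_div_le_one_div_of_le <;> linarith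
  have h3 := hh_nonneg y
  nlinarith

lemma ww_le {p : ℝ} (hp : 0 < p) (n : ℕ) :
    ∃ C > 0, ∀ y : Fin n → ℝ, ww p y ≤ C * Real.exp (-((p + 1 / 2) * hh y)) := by
  obtain ⟨C, hC, h⟩ := rpow_bound hp (z := -(1 / p) - 1) (by
    have : 0 < 1 / p := by positivity
    linarith) n
  refine ⟨C, hC, fun y => (h y).trans (le_of_eq ?_)⟩
  congr 2
  field_simp
  ring

/-- the enlarged simplex -/
def Big (p : ℝ) : Set (Fin n → ℝ) := {x | (1 + 1 / (4 * p))⁻¹ • x ∈ Dl n}

lemma convex_Big (p : ℝ) : Convex ℝ (Big p : Set (Fin n → ℝ)) := by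
  intro x hx y hy a b ha hb hab
  have := convex_Dl hx hy ha hb hab
  simp only [Big, Set.mem_ofPred_eq]
  rw [smul_add, smul_comm _ a, smul_comm _ b]
  exact this

lemma smul_mem_Big {p : ℝ} (hp : 0 < p) {x : Fin n → ℝ} (hx : x ∈ Dl n) {r : ℝ} (h0 : 0 ≤ r)
    (h1 : r ≤ 1 + 1 / (4 * p)) : r • x ∈ Big p := by
  have h2 : (0 : ℝ) < 1 + 1 / (4 * p) := by positivity
  simp only [Big, Set.mem_ofPred_eq, smul_smul]
  exact smul_mem_Dl hx (by positivity) (by rw [inv_mul_le_iff₀ h2, mul_one]; exact h1)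

lemma Dl_sub_Big {p : ℝ} (hp : 0 < p) {x : Fin n → ℝ} (hx : x ∈ Dl n) : x ∈ Big p := by
  have := smul_mem_Big hp hx zero_le_one (by
    have : 0 < 1 / (4 * p) := by positivity
    linarith)
  rwa [one_smul] at this

lemma dp_le_Big {p : ℝ} (hp : 0 < p) {x : Fin n → ℝ} (hx : x ∈ Big p) (y : Fin n → ℝ) :
    p * dp x y ≤ (p + 1 / 4) * hh y := by
  have h2 : (0 : ℝ) < 1 + 1 / (4 * p) := by positivity
  have h := dp_le hx y
  rw [dp_smul_left, inv_mul_le_iff₀ h2] at h
  have h3 := mul_le_mul_of_nonneg_left h hp.le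
  have e : p * ((1 + 1 / (4 * p)) * hh y) = (p + 1 / 4) * hh y := by field_simp
  linarith

/-- the uniform domination of the integrands -/
lemma dom {p : ℝ} (hp : 0 < p) (n : ℕ) : ∃ C > 0, ∀ x ∈ (Big p : Set (Fin n → ℝ)), ∀ y,
    Real.exp (p * dp x y) * ww p y ≤ C * Real.exp (-(1 / 4 * hh y)) := by
  obtain ⟨C, hC, h⟩ := ww_le hp n
  refine ⟨C, hC, fun x hx y => ?_⟩
  have h1 := Real.exp_le_exp.2 (dp_le_Big hp hx y)
  calc Real.exp (p * dp x y) * ww p y
      ≤ Real.exp ((p + 1 / 4) * hh y) * (C * Real.exp (-((p + 1 / 2) * hh y))) :=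
        mul_le_mul h1 (h y) (ww_pos hp y).le (Real.exp_pos _).le
    _ = C * (Real.exp ((p + 1 / 4) * hh y) * Real.exp (-((p + 1 / 2) * hh y))) := by ring
    _ = C * Real.exp (-(1 / 4 * hh y)) := by
      rw [← Real.exp_add]; congr 2; ring

lemma measurable_integrand (p : ℝ) (x : Fin n → ℝ) :
    Measurable fun y => Real.exp (p * dp x y) * ww p y := by
  refine Measurable.mul ?_ (measurable_ww p)
  exact (Real.continuous_exp.comp (continuous_const.mul
    (continuous_dp.comp (continuous_const.prodMk continuous_id)))).measurable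

lemma integrable_N {p : ℝ} (hp : 0 < p) {x : Fin n → ℝ} (hx : x ∈ Big p) :
    Integrable fun y => Real.exp (p * dp x y) * ww p y := by
  obtain ⟨C, _, h⟩ := dom hp n
  refine ((integrable_exp_hh (n := n) (c := 1 / 4) (by norm_num)).const_mul C).mono'
    (measurable_integrand p x).aestronglyMeasurable ?_
  refine Filter.Eventually.of_forall fun y => ?_
  rw [Real.norm_eq_abs, abs_of_pos (mul_pos (Real.exp_pos _) (ww_pos hp y))]
  exact h x hx y

lemma Nr_nonneg {p : ℝ} (hp : 0 < p) (x : Fin n → ℝ) : 0 ≤ Nr p x :=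
  integral_nonneg fun y => (mul_pos (Real.exp_pos _) (ww_pos hp y)).le

lemma Nr_le {p : ℝ} (hp : 0 < p) (n : ℕ) :
    ∃ C > 0, ∀ x ∈ (Big p : Set (Fin n → ℝ)), Nr p x ≤ C := by
  obtain ⟨C, hC, h⟩ := dom hp n
  have hi := (integrable_exp_hh (n := n) (c := 1 / 4) (by norm_num)).const_mul C
  refine ⟨(∫ y : Fin n → ℝ, C * Real.exp (-(1 / 4 * hh y))) + 1, ?_, fun x hx => ?_⟩
  · have : 0 ≤ ∫ y : Fin n → ℝ, C * Real.exp (-(1 / 4 * hh y)) :=
      integral_nonneg fun y => (mul_pos hC (Real.exp_pos _)).le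
    linarith
  · have : Nr p x ≤ ∫ y : Fin n → ℝ, C * Real.exp (-(1 / 4 * hh y)) :=
      integral_mono (integrable_N hp hx) hi (h x hx)
    linarith

lemma integrable_uu {p : ℝ} (hp : 0 < p) (n : ℕ) : Integrable (uu p : (Fin n → ℝ) → ℝ) := by
  obtain ⟨C, _, h⟩ := uu_le hp n
  refine ((integrable_exp_hh (n := n) (c := 1 / 2) (by norm_num)).const_mul C).mono'
    (measurable_uu p).aestronglyMeasurable ?_
  refine Filter.Eventually.of_forall fun y => ?_
  rw [Real.norm_eq_abs, abs_of_pos (uu_pos hp y)]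
  exact h y

/-- the normalization -/
def JJ (p : ℝ) (n : ℕ) : ℝ := ∫ y : Fin n → ℝ, uu p y

lemma JJ_pos {p : ℝ} (hp : 0 < p) (n : ℕ) : 0 < JJ p n := by
  rw [JJ, integral_pos_iff_support_of_nonneg (fun y => (uu_pos hp y).le) (integrable_uu hp n)]
  have : Function.support (uu p : (Fin n → ℝ) → ℝ) = Set.univ :=
    Set.eq_univ_of_forall fun y => (uu_pos hp y).ne'
  rw [this]
  exact isOpen_univ.measure_pos _ ⟨0, trivial⟩

lemma measurable_Nr (p : ℝ) : Measurable (Nr p : (Fin n → ℝ) → ℝ) := by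
  have h : Measurable (Function.uncurry fun (x y : Fin n → ℝ) =>
      Real.exp (p * dp x y) * ww p y) := by
    refine Measurable.mul ?_ ((measurable_ww p).comp measurable_snd)
    exact (Real.continuous_exp.comp (continuous_const.mul continuous_dp)).measurable
  exact (h.stronglyMeasurable.integral_prod_right (ν := volume)).measurable

lemma convexOn_Nr {p : ℝ} (hp : 0 < p) : ConvexOn ℝ (Big p : Set (Fin n → ℝ)) (Nr p) := by
  refine ⟨convex_Big p, ?_⟩
  intro x hx x' hx' a b ha hb hab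
  have h1 := integrable_N hp hx
  have h2 := integrable_N hp hx'
  have h3 := integrable_N hp (convex_Big p hx hx' ha hb hab)
  simp only [smul_eq_mul, Nr]
  rw [← integral_const_mul, ← integral_const_mul, ← integral_add (h1.const_mul _)
    (h2.const_mul _)]
  refine integral_mono h3 ((h1.const_mul _).add (h2.const_mul _)) fun y => ?_
  have h4 := convexOn_exp.2 (Set.mem_univ (p * dp x y)) (Set.mem_univ (p * dp x' y)) ha hb hab
  simp only [smul_eq_mul] at h4
  have e : p * dp (a • x + b • x') y = a * (p * dp x y) + b * (p * dp x' y) := by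
    rw [dp_add_left, dp_smul_left, dp_smul_left]; ring
  simp only [e, Pi.add_apply]
  have h5 := mul_le_mul_of_nonneg_right h4 (ww_pos hp y).le
  linarith

/-- the behaviour of the density on rays -/
lemma Nr_ray {p : ℝ} (hp : 0 < p) (n : ℕ) : ∃ C > 0, ∀ x ∈ Dl n,
    (∀ s : ℝ, 0 ≤ s → s ≤ 1 → Nr p x - C * (1 - s) ≤ Nr p (s • x)) ∧
    (∀ r : ℝ, 1 ≤ r → r ≤ 1 + 1 / (4 * p) → Nr p (r • x) ≤ Nr p x + C * (r - 1)) := by
  obtain ⟨C, hC, h⟩ := Nr_le hp n
  refine ⟨4 * p * C, by positivity, fun x hx => ⟨fun s hs0 hs1 => ?_, fun r hr1 hr2 => ?_⟩⟩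
  · set r0 : ℝ := 1 + 1 / (4 * p) with hr0
    have hr1 : 1 < r0 := by rw [hr0]; have : 0 < 1 / (4 * p) := by positivity
                            linarith
    have hd : 0 < r0 - s := by linarith
    have hb := smul_mem_Big hp hx (by linarith : (0 : ℝ) ≤ r0) le_rfl
    have hsB := smul_mem_Big hp hx hs0 (hs1.trans hr1.le)
    set θ : ℝ := (1 - s) / (r0 - s) with hθ
    have hθ0 : 0 ≤ θ := div_nonneg (by linarith) hd.le
    have hθ1 : θ ≤ 1 := by rw [hθ, div_le_one hd]; linarith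
    have h1 := (convexOn_Nr hp).2 hsB hb (show (0 : ℝ) ≤ 1 - θ by linarith) hθ0 (by ring)
    have e : (1 - θ) • s • x + θ • r0 • x = x := by
      rw [smul_smul, smul_smul, ← add_smul]
      have : (1 - θ) * s + θ * r0 = 1 := by
        rw [hθ]; field_simp; ring
      rw [this, one_smul]
    rw [e] at h1
    simp only [smul_eq_mul] at h1
    have h2 := h _ hb
    have h3 := Nr_nonneg hp (s • x)
    have h4 : θ * Nr p (r0 • x) ≤ θ * C := mul_le_mul_of_nonneg_left h2 hθ0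
    have h5 : θ ≤ 4 * p * (1 - s) := by
      rw [hθ, div_le_iff₀ hd]
      have : 1 ≤ 4 * p * (r0 - s) := by
        have e2 : 4 * p * (r0 - 1) = 1 := by rw [hr0]; field_simp; ring
        nlinarith
      nlinarith
    have h6 : θ * C ≤ 4 * p * (1 - s) * C := mul_le_mul_of_nonneg_right h5 hC.le
    have h7 := mul_nonneg hθ0 h3
    nlinarith
  · set r0 : ℝ := 1 + 1 / (4 * p) with hr0
    have hr3 : 0 < r0 - 1 := by rw [hr0]; have : 0 < 1 / (4 * p) := by positivity
                                linarith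
    have hb := smul_mem_Big hp hx (by linarith : (0 : ℝ) ≤ r0) le_rfl
    have hxB := Dl_sub_Big hp hx
    set θ : ℝ := (r - 1) / (r0 - 1) with hθ
    have hθ0 : 0 ≤ θ := div_nonneg (by linarith) hr3.le
    have hθ1 : θ ≤ 1 := by rw [hθ, div_le_one hr3]; linarith
    have h1 := (convexOn_Nr hp).2 hxB hb (show (0 : ℝ) ≤ 1 - θ by linarith) hθ0 (by ring)
    have e : (1 - θ) • x + θ • r0 • x = r • x := by
      nth_rewrite 1 [← one_smul ℝ x]
      rw [smul_smul, smul_smul, ← add_smul]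
      congr 1
      rw [hθ]; field_simp; ring
    rw [e] at h1
    simp only [smul_eq_mul] at h1
    have h2 := h _ hb
    have h3 := Nr_nonneg hp x
    have h4 : θ * Nr p (r0 • x) ≤ θ * C := mul_le_mul_of_nonneg_left h2 hθ0
    have h5 : θ = 4 * p * (r - 1) := by
      rw [hθ, hr0]; field_simp; ring
    rw [h5] at h4 h1
    have h7 : 0 ≤ 4 * p * (r - 1) * Nr p x := by
      rw [← h5]; exact mul_nonneg hθ0 h3
    nlinarith

end Pool.Agent.Helper77.LM

end
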