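import Pool.Agent.Helper77.LM.Dens2

/-!
Symmetry and uniform convexity of the density.
-/

set_option autoImplicit false

noncomputable section

open MeasureTheory Set
open scoped ENNReal

namespace Pool.Agent.Helper77.LM

variable {n : ℕ}

lemma vy_add (y y' : Fin n → ℝ) (i : Fin (n + 1)) : vy (y + y') i = vy y i + vy y' i := by
  refine Fin.cases ?_ (fun j => ?_) i
  · simp only [vy, Fin.cons_zero, Pi.add_apply, Finset.sum_add_distrib]; ring
  · simp [vy]

lemma vy_smul (c : ℝ) (y : Fin n → ℝ) (i : Fin (n + 1)) : vy (c • y) i = c * vy y i := by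
  refine Fin.cases ?_ (fun j => ?_) i
  · simp only [vy, Fin.cons_zero, Pi.smul_apply, smul_eq_mul, ← Finset.mul_sum]; ring
  · simp [vy]

/-- the dual symmetry -/
def Tt (σ : Equiv.Perm (Fin (n + 1))) : (Fin n → ℝ) →ₗ[ℝ] (Fin n → ℝ) where
  toFun y := fun j => vy y (σ⁻¹ j.succ)
  map_add' y y' := by funext j; simp [vy_add]
  map_smul' c y := by funext j; simp [vy_smul]

lemma Tt_apply (σ : Equiv.Perm (Fin (n + 1))) (y : Fin n → ℝ) (j : Fin n) :
    Tt σ y j = vy y (σ⁻¹ j.succ) := rfl

lemma vy_Tt (σ : Equiv.Perm (Fin (n + 1))) (y : Fin n → ℝ) (i : Fin (n + 1)) :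
    vy (Tt σ y) i = vy y (σ⁻¹ i) := by
  refine Fin.cases ?_ (fun j => ?_) i
  · have h : ∑ i, vy y (σ⁻¹ i) = 0 := by
      rw [Equiv.sum_comp σ⁻¹ (vy y)]; exact sum_vy y
    rw [Fin.sum_univ_succ] at h
    simp only [vy, Fin.cons_zero]
    simp only [Tt_apply]
    simp only [vy] at h ⊢
    linarith
  · simp [vy, Tt_apply]

lemma vy_injective {y y' : Fin n → ℝ} (h : vy y = vy y') : y = y' := by
  funext j
  have := congrFun h j.succ
  simpa [vy] using this

lemma Tt_Tt (σ τ : Equiv.Perm (Fin (n + 1))) (y : Fin n → ℝ) :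
    Tt σ (Tt τ y) = Tt (σ * τ) y := by
  apply vy_injective
  funext i
  rw [vy_Tt, vy_Tt, vy_Tt, mul_inv_rev]
  rfl

lemma Tt_one (y : Fin n → ℝ) : Tt 1 y = y := by
  apply vy_injective
  funext i
  rw [vy_Tt]; simp

lemma Tt_pow (σ : Equiv.Perm (Fin (n + 1))) (k : ℕ) : (Tt σ) ^ k = Tt (σ ^ k) := by
  induction k with
  | zero => ext x; simp [Tt_one]
  | succ k ih =>
    rw [pow_succ, ih]
    refine LinearMap.ext fun x => ?_
    change Tt (σ ^ k) (Tt σ x) = _
    rw [Tt_Tt, ← pow_succ]

lemma abs_det_Tt (σ : Equiv.Perm (Fin (n + 1))) : |LinearMap.det (Tt σ)| = 1 := by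
  have h : (LinearMap.det (Tt σ)) ^ (orderOf σ) = 1 := by
    rw [← map_pow, Tt_pow, pow_orderOf_eq_one]
    have : (Tt (1 : Equiv.Perm (Fin (n + 1))) : (Fin n → ℝ) →ₗ[ℝ] (Fin n → ℝ)) = 1 := by
      refine LinearMap.ext fun x => ?_
      rw [Tt_one]; rfl
    rw [this, map_one]
  have h2 : |LinearMap.det (Tt σ)| ^ (orderOf σ) = 1 := by
    rw [← abs_pow, h, abs_one]
  exact (pow_eq_one_iff_of_nonneg (abs_nonneg _) (orderOf_pos σ).ne').1 h2

lemma mp_Tt (σ : Equiv.Perm (Fin (n + 1))) :
    MeasurePreserving (Tt σ : (Fin n → ℝ) → (Fin n → ℝ)) volume volume := by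
  refine ⟨(LinearMap.continuous_of_finiteDimensional _).measurable, ?_⟩
  have h1 := abs_det_Tt σ
  have h0 : LinearMap.det (Tt σ) ≠ 0 := by
    intro h; rw [h] at h1; simp at h1
  rw [Measure.map_linearMap_addHaar_eq_smul_addHaar volume h0, abs_inv, h1]
  simp

lemma Tt_emb (σ : Equiv.Perm (Fin (n + 1))) :
    MeasurableEmbedding (Tt σ : (Fin n → ℝ) → (Fin n → ℝ)) := by
  refine (LinearMap.continuous_of_finiteDimensional _).measurableEmbedding ?_
  intro x y h
  have h2 : Tt σ⁻¹ (Tt σ x) = Tt σ⁻¹ (Tt σ y) := by rw [h]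
  rw [Tt_Tt, Tt_Tt, inv_mul_cancel, Tt_one, Tt_one] at h2
  exact h2

lemma dp_Tl (σ : Equiv.Perm (Fin (n + 1))) (x y : Fin n → ℝ) :
    dp (Tl σ x) y = dp x (Tt σ y) := by
  rw [dp_eq_bary, dp_eq_bary, bary_Tl]
  rw [← Equiv.sum_comp σ (fun j => bary x j * vy (Tt σ y) j)]
  refine Finset.sum_congr rfl fun j _ => ?_
  rw [vy_Tt]; simp

lemma II_Tt (p : ℝ) (σ : Equiv.Perm (Fin (n + 1))) (y : Fin n → ℝ) :
    II p (Tt σ y) = II p y := by
  have h := (mp_Tl σ).setIntegral_preimage_emb (Tl_emb σ) (fun x => Real.exp (p * dp x y)) (Dl n)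
  have h2 : (Tl σ : (Fin n → ℝ) → (Fin n → ℝ)) ⁻¹' (Dl n) = Dl n := by
    ext x; exact Tl_mem σ
  rw [h2] at h
  simp only [dp_Tl] at h
  exact h

lemma Nr_Tl (p : ℝ) (σ : Equiv.Perm (Fin (n + 1))) (x : Fin n → ℝ) :
    Nr p (Tl σ x) = Nr p x := by
  have h := (mp_Tt σ).integral_comp (Tt_emb σ) (fun y => Real.exp (p * dp x y) * ww p y)
  have e : ∀ y, ww p (Tt σ y) = ww p y := fun y => by simp only [ww, II_Tt]
  simp only [e] at h
  simp only [Nr, dp_Tl]
  exact h

lemma uu_Tt (p : ℝ) (σ : Equiv.Perm (Fin (n + 1))) (y : Fin n → ℝ) :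
    uu p (Tt σ y) = uu p y := by simp only [uu, II_Tt]

/-! ### The box -/

/-- the box of half width `a` -/
def Bx (n : ℕ) (a : ℝ) : Set (Fin n → ℝ) := Set.pi Set.univ fun _ => Icc (-a) a

lemma measurableSet_Bx (a : ℝ) : MeasurableSet (Bx n a) :=
  MeasurableSet.univ_pi fun _ => measurableSet_Icc

lemma isCompact_Bx (a : ℝ) : IsCompact (Bx n a) := isCompact_univ_pi fun _ => isCompact_Icc

lemma box_mul (n : ℕ) {a : ℝ} (ha : 0 < a) : ∃ c > 0, ∀ i j : Fin n,
    ∫ y in Bx n a, y i * y j = if i = j then c else 0 := by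
  set α : ℝ := ∫ t in Icc (-a) a, t ^ 2 with hα
  set β : ℝ := ∫ _t in Icc (-a) a, (1 : ℝ) with hβ
  have hα0 : 0 < α := by
    rw [hα, integral_Icc_eq_integral_Ioc, ← intervalIntegral.integral_of_le (by linarith),
      integral_pow]
    have : 0 < a ^ 3 := by positivity
    norm_num
    nlinarith
  have hβ0 : 0 < β := by
    rw [hβ, integral_Icc_eq_integral_Ioc, ← intervalIntegral.integral_of_le (by linarith),
      intervalIntegral.integral_const]
    simp only [smul_eq_mul, mul_one]
    linarith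
  refine ⟨α * β ^ (n - 1), by positivity, fun i j => ?_⟩
  have h1 : (volume : Measure (Fin n → ℝ)).restrict (Bx n a)
      = Measure.pi (fun _ : Fin n => (volume : Measure ℝ).restrict (Icc (-a) a)) := by
    rw [Bx, volume_pi, Measure.restrict_pi_pi]
  obtain ⟨F, hF⟩ : ∃ F : Fin n → ℝ → ℝ,
      ∀ k t, F k t = (if k = i then t else 1) * (if k = j then t else 1) :=
    ⟨fun k t => (if k = i then t else 1) * (if k = j then t else 1), fun _ _ => rfl⟩
  have h2 : ∀ y : Fin n → ℝ, y i * y j = ∏ k, F k (y k) := by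
    intro y
    simp only [hF]
    rw [Finset.prod_mul_distrib, Finset.prod_ite_eq', Finset.prod_ite_eq']
    simp
  rw [h1]
  simp only [h2]
  rw [integral_fintype_prod_eq_prod]
  simp only [hF]
  by_cases hij : i = j
  · subst hij
    rw [if_pos rfl, ← Finset.mul_prod_erase _ _ (Finset.mem_univ i)]
    have e1 : ∫ t in Icc (-a) a, ((if i = i then t else 1) * (if i = i then t else 1) : ℝ) = α := by
      simp only [if_true, hα]
      refine integral_congr_ae (Filter.Eventually.of_forall fun t => ?_)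
      ring
    have e2 : ∏ k ∈ Finset.univ.erase i,
        ∫ t in Icc (-a) a, ((if k = i then t else 1) * (if k = i then t else 1) : ℝ)
        = β ^ (n - 1) := by
      rw [Finset.prod_congr rfl (g := fun _ => β), Finset.prod_const,
        Finset.card_erase_of_mem (Finset.mem_univ i), Finset.card_univ, Fintype.card_fin]
      intro k hk
      have : k ≠ i := Finset.ne_of_mem_erase hk
      simp only [this, if_false, mul_one, hβ]
    rw [e1, e2]
  · rw [if_neg hij]
    refine Finset.prod_eq_zero (Finset.mem_univ i) ?_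
    simp only [if_true, if_neg hij, mul_one]
    rw [integral_Icc_eq_integral_Ioc, ← intervalIntegral.integral_of_le (by linarith),
      integral_id]
    ring

lemma integrableOn_box {f : (Fin n → ℝ) → ℝ} (hf : Continuous f) (a : ℝ) :
    IntegrableOn f (Bx n a) := hf.continuousOn.integrableOn_compact (isCompact_Bx a)

lemma box_quad (n : ℕ) {a : ℝ} (ha : 0 < a) : ∃ c > 0, ∀ x : Fin n → ℝ,
    ∫ y in Bx n a, (dp x y) ^ 2 = c * qf x := by
  obtain ⟨c, hc, h⟩ := box_mul n ha
  refine ⟨c, hc, fun x => ?_⟩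
  have e : ∀ y : Fin n → ℝ, (dp x y) ^ 2 = ∑ i, ∑ j, x i * x j * (y i * y j) := by
    intro y
    rw [sq, dp, Finset.sum_mul_sum]
    refine Finset.sum_congr rfl fun i _ => Finset.sum_congr rfl fun j _ => ?_
    ring
  simp only [e]
  rw [integral_finsetSum]
  · have e2 : ∀ i, ∫ y in Bx n a, ∑ j, x i * x j * (y i * y j) = c * x i ^ 2 := by
      intro i
      rw [integral_finsetSum]
      · simp only [integral_const_mul, h]
        simp only [mul_ite, mul_zero, Finset.sum_ite_eq, Finset.mem_univ, if_true]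
        ring
      · intro j _
        exact integrableOn_box (by fun_prop) a
    simp only [e2, qf, Finset.mul_sum]
  · intro i _
    exact integrableOn_box (by fun_prop) a

lemma abs_dp_le_one {a : ℝ} (hn : (n : ℝ) * a ≤ 1) {x y : Fin n → ℝ} (hx : x ∈ Dl n)
    (hy : y ∈ Bx n a) : |dp x y| ≤ 1 := by
  have hy' : ∀ j, |y j| ≤ a := fun j => abs_le.2 (hy j (Set.mem_univ j))
  calc |dp x y| ≤ ∑ i, |x i * y i| := Finset.abs_sum_le_sum_abs _ _
    _ ≤ ∑ _i : Fin n, a := by
      refine Finset.sum_le_sum fun i _ => ?_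
      rw [abs_mul]
      have h1 := abs_le_of_mem hx i
      have h2 := hy' i
      have h3 := abs_nonneg (x i)
      have h4 := abs_nonneg (y i)
      nlinarith
    _ = n * a := by simp
    _ ≤ 1 := hn

lemma hh_le_one {a : ℝ} (hn : (n : ℝ) * a ≤ 1) {y : Fin n → ℝ} (hy : y ∈ Bx n a) :
    hh y ≤ 1 := by
  obtain ⟨j, hj⟩ := exists_vy y
  rw [← hj, ← dp_vtx]
  exact (le_abs_self _).trans (abs_dp_le_one hn (vtx_mem j) hy)

/-- the function `exp u - (exp (-p) / 2) u²` is convex on `[-p, ∞)` -/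
lemma convexOn_exp_sub (p : ℝ) :
    ConvexOn ℝ (Ici (-p)) (fun u : ℝ => Real.exp u - Real.exp (-p) / 2 * u ^ 2) := by
  have hd : ∀ u : ℝ, HasDerivAt (fun u : ℝ => Real.exp u - Real.exp (-p) / 2 * u ^ 2)
      (Real.exp u - Real.exp (-p) * u) u := by
    intro u
    have h1 := (Real.hasDerivAt_exp u).sub (((hasDerivAt_pow 2 u).const_mul (Real.exp (-p) / 2)))
    refine h1.congr_deriv ?_
    norm_num
    ring
  have hd2 : ∀ u : ℝ, HasDerivAt (fun u : ℝ => Real.exp u - Real.exp (-p) * u)
      (Real.exp u - Real.exp (-p)) u := by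
    intro u
    have h1 := (Real.hasDerivAt_exp u).sub ((hasDerivAt_id u).const_mul (Real.exp (-p)))
    refine h1.congr_deriv ?_
    ring
  have e1 : deriv (fun u : ℝ => Real.exp u - Real.exp (-p) / 2 * u ^ 2)
      = fun u : ℝ => Real.exp u - Real.exp (-p) * u := funext fun u => (hd u).deriv
  have e2 : deriv (fun u : ℝ => Real.exp u - Real.exp (-p) * u)
      = fun u : ℝ => Real.exp u - Real.exp (-p) := funext fun u => (hd2 u).deriv
  refine convexOn_of_deriv2_nonneg (convex_Ici _) ?_ ?_ ?_ ?_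
  · exact fun u _ => (hd u).continuousAt.continuousWithinAt
  · exact fun u _ => (hd u).differentiableAt.differentiableWithinAt
  · rw [e1]
    exact fun u _ => (hd2 u).differentiableAt.differentiableWithinAt
  · intro u hu
    simp only [Function.iterate_succ, Function.iterate_zero, Function.comp_apply, id_eq]
    rw [e1, e2]
    rw [interior_Ici] at hu
    have := Real.exp_le_exp.2 (le_of_lt hu : -p ≤ u)
    linarith

/-- **Uniform convexity of the density.** -/
lemma uconv {p : ℝ} (hp : 0 < p) (n : ℕ) : ∃ κ > 0,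
    ConvexOn ℝ (Dl n) (fun x => Nr p x - κ * qf x) := by
  set a : ℝ := 1 / (n + 1) with ha
  have ha0 : 0 < a := by positivity
  have hna : (n : ℝ) * a ≤ 1 := by
    rw [ha, mul_one_div, div_le_one (by positivity)]; linarith
  obtain ⟨c, hc, hq⟩ := box_quad n ha0
  have hV := V_pos n
  set w0 : ℝ := (V n * Real.exp p) ^ (-(1 / p) - 1) with hw0
  have hw0p : 0 < w0 := by positivity
  have hw : ∀ y ∈ Bx n a, w0 ≤ ww p y := by
    intro y hy
    refine Real.rpow_le_rpow_of_nonpos (II_pos hp y) ?_ (by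
      have : 0 < 1 / p := by positivity
      linarith)
    refine (II_le hp y).trans ?_
    refine mul_le_mul_of_nonneg_left (Real.exp_le_exp.2 ?_) hV.le
    have := hh_le_one hna hy
    nlinarith
  set ε : ℝ := Real.exp (-p) / 2 with hε
  have hεp : 0 < ε := by positivity
  set q : ℝ → (Fin n → ℝ) → ℝ := fun t y => (Bx n a).indicator (fun _ => w0 * ε * (p * t) ^ 2) y
    with hqdef
  refine ⟨w0 * ε * p ^ 2 * c, by positivity, convex_Dl, ?_⟩
  -- the integral representation
  have hqi : ∀ x : Fin n → ℝ, Integrable fun y => q (dp x y) y := by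
    intro x
    have : (fun y => q (dp x y) y)
        = (Bx n a).indicator (fun y => w0 * ε * (p * dp x y) ^ 2) := by
      funext y
      simp only [hqdef]
      by_cases hy : y ∈ Bx n a
      · simp [Set.indicator_of_mem hy]
      · simp [Set.indicator_of_notMem hy]
    rw [this, integrable_indicator_iff (measurableSet_Bx a)]
    refine integrableOn_box ?_ a
    unfold dp; fun_prop
  have hqv : ∀ x : Fin n → ℝ, ∫ y, q (dp x y) y = w0 * ε * p ^ 2 * c * qf x := by
    intro x
    have : (fun y => q (dp x y) y)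
        = (Bx n a).indicator (fun y => w0 * ε * p ^ 2 * (dp x y) ^ 2) := by
      funext y
      simp only [hqdef]
      by_cases hy : y ∈ Bx n a
      · simp only [Set.indicator_of_mem hy]; ring
      · simp [Set.indicator_of_notMem hy]
    rw [this, integral_indicator (measurableSet_Bx a), integral_const_mul, hq x]
    ring
  have hrep : ∀ x ∈ Dl n, Nr p x - w0 * ε * p ^ 2 * c * qf x
      = ∫ y, (Real.exp (p * dp x y) * ww p y - q (dp x y) y) := by
    intro x hx
    rw [integral_sub (integrable_N hp (Dl_sub_Big hp hx)) (hqi x), hqv]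
    rfl
  intro x hx x' hx' b b' hb hb' hbb
  have hxx := convex_Dl hx hx' hb hb' hbb
  have hi : ∀ z ∈ Dl n, Integrable
      (fun y => Real.exp (p * dp z y) * ww p y - q (dp z y) y) := fun z hz =>
    (integrable_N hp (Dl_sub_Big hp hz)).sub (hqi z)
  have i1 := hi x hx
  have i2 := hi x' hx'
  have i3 := hi _ hxx
  simp only [smul_eq_mul]
  rw [hrep _ hxx, hrep _ hx, hrep _ hx', ← integral_const_mul, ← integral_const_mul]
  have i12 : Integrable (fun y => b * (Real.exp (p * dp x y) * ww p y - q (dp x y) y)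
      + b' * (Real.exp (p * dp x' y) * ww p y - q (dp x' y) y)) :=
    (i1.const_mul b).add (i2.const_mul b')
  rw [← integral_add (i1.const_mul b) (i2.const_mul b')]
  refine integral_mono i3 i12 fun y => ?_
  have e : dp (b • x + b' • x') y = b * dp x y + b' * dp x' y := by
    rw [dp_add_left, dp_smul_left, dp_smul_left]
  have hexp := convexOn_exp.2 (Set.mem_univ (p * dp x y)) (Set.mem_univ (p * dp x' y)) hb hb' hbb
  simp only [smul_eq_mul] at hexp
  have e3 : b * (p * dp x y) + b' * (p * dp x' y) = p * dp (b • x + b' • x') y := by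
    rw [e]; ring
  simp only
  by_cases hy : y ∈ Bx n a
  · simp only [hqdef, Set.indicator_of_mem hy]
    have hs : ∀ {z : Fin n → ℝ}, z ∈ Dl n → p * dp z y ∈ Ici (-p) := by
      intro z hz
      have := (abs_le.1 (abs_dp_le_one hna hz hy)).1
      change -p ≤ p * dp z y
      nlinarith
    have h1 := (convexOn_exp_sub p).2 (hs hx) (hs hx') hb hb' hbb
    simp only [smul_eq_mul] at h1
    rw [e3] at h1 hexp
    have h2 := hw y hy
    have h3 := mul_le_mul_of_nonneg_left h1 hw0p.le
    have h4 := mul_le_mul_of_nonneg_left hexp (sub_nonneg.2 h2)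
    rw [← hε] at h3
    linarith
  · simp only [hqdef, Set.indicator_of_notMem hy, sub_zero]
    rw [e3] at hexp
    have := mul_le_mul_of_nonneg_right hexp (ww_pos hp y).le
    linarith

end Pool.Agent.Helper77.LM

end
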