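import Pool.Agent.Helper77.LM.Reduce

/-!
Linear invariance, extremal positions, and the theorem for all positions.
-/

set_option autoImplicit false

noncomputable section

open MeasureTheory Set Filter Topology
open scoped ENNReal Pointwise

namespace Pool.Agent.Helper77.LM

variable {n m : ℕ}

lemma dp_mulVec (A : Matrix (Fin n) (Fin n) ℝ) (x y : Fin n → ℝ) :
    dp (A.mulVec x) y = dp x (A.transpose.mulVec y) := by
  simp only [dp, Matrix.mulVec, dotProduct, Matrix.transpose_apply, Finset.sum_mul,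
    Finset.mul_sum]
  rw [Finset.sum_comm]
  exact Finset.sum_congr rfl fun i _ => Finset.sum_congr rfl fun j _ => by ring

lemma lint_mulVec (A : Matrix (Fin n) (Fin n) ℝ) (hA : A.det ≠ 0) (F : (Fin n → ℝ) → ℝ≥0∞)
    (hF : Measurable F) :
    ∫⁻ y, F (A.mulVec y) = ENNReal.ofReal |A.det|⁻¹ * ∫⁻ y, F y := by
  have hd : LinearMap.det (Matrix.toLin' A) ≠ 0 := by rwa [LinearMap.det_toLin']
  have h := Measure.map_linearMap_addHaar_eq_smul_addHaar (volume : Measure (Fin n → ℝ)) hd
  have hm : Measurable (Matrix.toLin' A : (Fin n → ℝ) → (Fin n → ℝ)) :=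
    (LinearMap.continuous_of_finiteDimensional _).measurable
  have h2 : ∫⁻ y, F (A.mulVec y) = ∫⁻ y, F y ∂(Measure.map (Matrix.toLin' A) volume) := by
    rw [lintegral_map hF hm]
    rfl
  rw [h2, h, lintegral_smul_measure, LinearMap.det_toLin', abs_inv, smul_eq_mul]

lemma integral_image_mulVec (A : Matrix (Fin n) (Fin n) ℝ) (hA : A.det ≠ 0)
    {K : Set (Fin n → ℝ)} (hK : MeasurableSet K) (g : (Fin n → ℝ) → ℝ) :
    ∫ x in (fun x => A.mulVec x) '' K, g x = |A.det| * ∫ x in K, g (A.mulVec x) := by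
  set f' : (Fin n → ℝ) →L[ℝ] (Fin n → ℝ) := LinearMap.toContinuousLinearMap (Matrix.toLin' A)
    with hf'
  have hinj : Function.Injective fun x : Fin n → ℝ => A.mulVec x :=
    Matrix.mulVec_injective_iff_isUnit.2 ((Matrix.isUnit_iff_isUnit_det A).2 (isUnit_iff_ne_zero.2 hA))
  have h := integral_image_eq_integral_abs_det_fderiv_smul (volume : Measure (Fin n → ℝ)) hK
    (f := fun x => A.mulVec x) (f' := fun _ => f')
    (fun x _ => f'.hasFDerivWithinAt) hinj.injOn g
  rw [h, ← integral_const_mul]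
  have hd : f'.det = A.det := by
    rw [hf']
    simp [ContinuousLinearMap.det]
  simp only [hd, smul_eq_mul]

lemma volume_image_mulVec (A : Matrix (Fin n) (Fin n) ℝ) (K : Set (Fin n → ℝ)) :
    volume ((fun x => A.mulVec x) '' K) = ENNReal.ofReal |A.det| * volume K := by
  have h := Measure.addHaar_image_linearMap (volume : Measure (Fin n → ℝ)) (Matrix.toLin' A) K
  rw [LinearMap.det_toLin'] at h
  exact h

/-- linear invariance -/
lemma MpF_image (p : ℝ) (A : Matrix (Fin n) (Fin n) ℝ) (hA : A.det ≠ 0)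
    {K : Set (Fin n → ℝ)} (hK : MeasurableSet K) :
    MpF p ((fun x => A.mulVec x) '' K) = MpF p K := by
  have hd : 0 < |A.det| := abs_pos.2 hA
  rw [MpF, MpF, volume_image_mulVec]
  have hF : Measurable fun y : Fin n → ℝ => ENNReal.ofReal
      ((IS p K y / (volume K).toReal) ^ (-(1 / p))) :=
    (((measurable_IS p K).div_const _).pow_const _).ennreal_ofReal
  have e1 : ∀ y : Fin n → ℝ, ENNReal.ofReal
      (((∫ x in (fun x => A.mulVec x) '' K, Real.exp (p * ∑ i, x i * y i)) /
        (ENNReal.ofReal |A.det| * volume K).toReal) ^ (-(1 / p)))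
      = ENNReal.ofReal ((IS p K (A.transpose.mulVec y) / (volume K).toReal) ^ (-(1 / p))) := by
    intro y
    rw [integral_image_mulVec A hA hK]
    have h1 : ∀ x, ∑ i, A.mulVec x i * y i = dp x (A.transpose.mulVec y) := fun x =>
      dp_mulVec A x y
    simp only [h1]
    rw [ENNReal.toReal_mul, ENNReal.toReal_ofReal hd.le, mul_div_mul_left _ _ hd.ne']
    rfl
  simp only [e1]
  rw [lint_mulVec A.transpose (by rwa [Matrix.det_transpose]) _ hF, Matrix.det_transpose]
  have e2 : ENNReal.ofReal |A.det| * volume K * (ENNReal.ofReal |A.det|⁻¹ *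
      ∫⁻ y : Fin n → ℝ, ENNReal.ofReal ((IS p K y / (volume K).toReal) ^ (-(1 / p))))
      = (ENNReal.ofReal |A.det| * ENNReal.ofReal |A.det|⁻¹) * (volume K *
      ∫⁻ y : Fin n → ℝ, ENNReal.ofReal ((IS p K y / (volume K).toReal) ^ (-(1 / p)))) := by
    ring
  rw [e2, ← ENNReal.ofReal_mul hd.le, mul_inv_cancel₀ hd.ne', ENNReal.ofReal_one, one_mul]
  rfl

/-- existence of an extremal position -/
lemma exists_max {K : Set (Fin n → ℝ)} (hi : (interior K).Nonempty)
    {A0 : Matrix (Fin n) (Fin n) ℝ} {c0 : Fin n → ℝ} (h0 : ∀ x ∈ K, A0.mulVec x + c0 ∈ Dl n)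
    (hA0 : A0.det ≠ 0) :
    ∃ (A : Matrix (Fin n) (Fin n) ℝ) (c : Fin n → ℝ), A.det ≠ 0 ∧
      (∀ x ∈ K, A.mulVec x + c ∈ Dl n) ∧
      ∀ (A' : Matrix (Fin n) (Fin n) ℝ) (c' : Fin n → ℝ), (∀ x ∈ K, A'.mulVec x + c' ∈ Dl n) →
        |A'.det| ≤ |A.det| := by
  obtain ⟨x0, hx0⟩ := hi
  obtain ⟨r, hr, hball⟩ := Metric.mem_nhds_iff.1 (mem_interior_iff_mem_nhds.1 hx0)
  have hx0K : x0 ∈ K := hball (Metric.mem_ball_self hr)
  set S : Set ((Fin n → Fin n → ℝ) × (Fin n → ℝ)) :=
    {q | ∀ x ∈ K, (Matrix.of q.1).mulVec x + q.2 ∈ Dl n} with hS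
  have hcont : ∀ x : Fin n → ℝ, Continuous fun q : (Fin n → Fin n → ℝ) × (Fin n → ℝ) =>
      (Matrix.of q.1).mulVec x + q.2 := by
    intro x
    refine Continuous.add ?_ continuous_snd
    refine continuous_pi fun i => ?_
    simp only [Matrix.mulVec, dotProduct, Matrix.of_apply]
    fun_prop
  have hScl : IsClosed S := by
    have : S = ⋂ x ∈ K, (fun q : (Fin n → Fin n → ℝ) × (Fin n → ℝ) =>
        (Matrix.of q.1).mulVec x + q.2) ⁻¹' (Dl n) := by
      ext q; simp [hS]
    rw [this]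
    exact isClosed_biInter fun x _ => isClosed_Dl.preimage (hcont x)
  set R : ℝ := 4 / r with hR
  set R' : ℝ := 1 + ∑ j, R * |x0 j| with hR'
  have hSsub : S ⊆ (Set.pi Set.univ fun _ => Set.pi Set.univ fun _ => Icc (-R) R) ×ˢ
      (Set.pi Set.univ fun _ => Icc (-R') R') := by
    rintro ⟨a, c⟩ hq
    have hent : ∀ i j, |a i j| ≤ R := by
      intro i j
      have hxj : x0 + (r / 2) • (Pi.single j 1 : Fin n → ℝ) ∈ K := by
        refine hball ?_
        rw [Metric.mem_ball, dist_eq_norm, add_sub_cancel_left, norm_smul, Real.norm_eq_abs,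
          abs_of_pos (by positivity)]
        have : ‖(Pi.single j 1 : Fin n → ℝ)‖ ≤ 1 := by
          rw [pi_norm_le_iff_of_nonneg zero_le_one]
          intro k
          by_cases hk : k = j
          · subst hk; simp
          · simp [hk]
        nlinarith
      have h1 := abs_le_of_mem (hq _ hxj) i
      have h2 := abs_le_of_mem (hq _ hx0K) i
      have e : ((Matrix.of a).mulVec (x0 + (r / 2) • (Pi.single j 1 : Fin n → ℝ)) + c) i
          - ((Matrix.of a).mulVec x0 + c) i = r / 2 * a i j := by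
        rw [Matrix.mulVec_add, Matrix.mulVec_smul, Matrix.mulVec_single_one]
        simp only [Pi.add_apply, Pi.smul_apply, smul_eq_mul, Matrix.col_apply, Matrix.of_apply]
        ring
      have h3 : |r / 2 * a i j| ≤ 2 := by
        rw [← e]
        refine (abs_sub _ _).trans ?_
        linarith
      rw [abs_mul, abs_of_pos (by positivity : 0 < r / 2)] at h3
      rw [hR, le_div_iff₀ hr]
      linarith
    refine ⟨?_, ?_⟩
    · intro i _ j _
      exact abs_le.1 (hent i j)
    · intro i _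
      refine abs_le.1 ?_
      have h2 := abs_le_of_mem (hq _ hx0K) i
      have e : c i = ((Matrix.of a).mulVec x0 + c) i - ∑ j, a i j * x0 j := by
        simp [Matrix.mulVec, dotProduct]
      change |c i| ≤ R'
      rw [e]
      refine (abs_sub _ _).trans ?_
      refine add_le_add h2 ((Finset.abs_sum_le_sum_abs _ _).trans ?_)
      refine Finset.sum_le_sum fun j _ => ?_
      rw [abs_mul]
      exact mul_le_mul_of_nonneg_right (hent i j) (abs_nonneg _)
  have hScp : IsCompact S := by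
    refine IsCompact.of_isClosed_subset ?_ hScl hSsub
    exact (isCompact_univ_pi fun _ => isCompact_univ_pi fun _ => isCompact_Icc).prod
      (isCompact_univ_pi fun _ => isCompact_Icc)
  have hSne : S.Nonempty := ⟨(fun i j => A0 i j, c0), h0⟩
  have hdet : Continuous fun q : (Fin n → Fin n → ℝ) × (Fin n → ℝ) => |(Matrix.of q.1).det| := by
    refine Continuous.abs (Continuous.matrix_det ?_)
    exact continuous_fst
  obtain ⟨⟨a, c⟩, hq, hmax⟩ := hScp.exists_isMaxOn hSne hdet.continuousOn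
  refine ⟨Matrix.of a, c, ?_, hq, ?_⟩
  · have h1 := hmax (show ((fun i j => A0 i j, c0) : (Fin n → Fin n → ℝ) × (Fin n → ℝ)) ∈ S from h0)
    have h2 : 0 < |A0.det| := abs_pos.2 hA0
    have h3 : |A0.det| ≤ |(Matrix.of a).det| := h1
    exact abs_pos.1 (h2.trans_le h3)
  · intro A' c' h'
    exact hmax (show ((fun i j => A' i j, c') : (Fin n → Fin n → ℝ) × (Fin n → ℝ)) ∈ S from h')

/-- simplices, described by an affine map onto the centered simplex -/
def SimD (T : Set (Fin n → ℝ)) : Prop :=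
  ∃ (A : Matrix (Fin n) (Fin n) ℝ) (c : Fin n → ℝ), A.det ≠ 0 ∧ T = {x | A.mulVec x + c ∈ Dl n}

lemma volume_SimD (A : Matrix (Fin n) (Fin n) ℝ) (hA : A.det ≠ 0) (c : Fin n → ℝ) :
    volume {x | A.mulVec x + c ∈ Dl n} = ENNReal.ofReal |A.det|⁻¹ * volume (Dl n) := by
  have hd : LinearMap.det (Matrix.toLin' A) ≠ 0 := by rwa [LinearMap.det_toLin']
  have h := Measure.addHaar_preimage_linearMap (volume : Measure (Fin n → ℝ)) hd
    ((fun x => x + c) ⁻¹' (Dl n))
  rw [LinearMap.det_toLin', measure_preimage_add_right, abs_inv] at h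
  exact h

/-- the theorem for all positions, in terms of the centered simplex -/
theorem main {p : ℝ} (hp : 0 < p) (m : ℕ) : ∃ δ : ℝ, 0 < δ ∧ ∀ K T₀ : Set (Fin (m + 1) → ℝ),
    Convex ℝ K → IsCompact K → (interior K).Nonempty → SimD T₀ → K ⊆ T₀ →
    volume T₀ ≤ ENNReal.ofReal (1 + δ) * volume K →
    ∃ T : Set (Fin (m + 1) → ℝ), SimD T ∧ K ⊆ T ∧ volume T ≤ volume T₀ ∧
      ENNReal.ofReal (1 + δ * ((volume T).toReal / (volume K).toReal - 1)) *
        MpF p (Dl (m + 1)) ≤ MpF p K := by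
  obtain ⟨η0, δ1, c1, hη0, hη1, hδ1, hc1, hlow⟩ := mp_low hp m
  have hV := V_pos (m + 1)
  have hJ := JJ_pos hp (m + 1)
  -- the volume threshold
  set ε : ℝ := (η0 / ((m + 1 : ℕ) + 1)) ^ (m + 1) with hε
  have hε0 : 0 < ε := by positivity
  set δ : ℝ := min (min 1 (ε / 2)) (min (δ1 / V (m + 1)) (c1 * V (m + 1) / 2)) with hδ
  have hδ0 : 0 < δ := by positivity
  have hδa : δ ≤ 1 := (min_le_left _ _).trans (min_le_left _ _)
  have hδb : δ ≤ ε / 2 := (min_le_left _ _).trans (min_le_right _ _)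
  have hδc : δ ≤ δ1 / V (m + 1) := (min_le_right _ _).trans (min_le_left _ _)
  have hδd : δ ≤ c1 * V (m + 1) / 2 := (min_le_right _ _).trans (min_le_right _ _)
  refine ⟨δ, hδ0, ?_⟩
  intro K T₀ hcv hcp hin hT₀ hKT hvol
  obtain ⟨A0, c0, hA0, rfl⟩ := hT₀
  obtain ⟨A, c, hA, hAK, hmax⟩ := exists_max hin (fun x hx => hKT hx) hA0
  have hd0 : 0 < |A.det| := abs_pos.2 hA
  have hd00 : 0 < |A0.det| := abs_pos.2 hA0
  have hle : |A0.det| ≤ |A.det| := hmax A0 c0 (fun x hx => hKT hx)
  have hmK : MeasurableSet K := hcp.isClosed.measurableSet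
  have hVK : 0 < volume K := Measure.measure_pos_of_nonempty_interior volume hin
  have hVKf : volume K ≠ ∞ := hcp.measure_lt_top.ne
  set k : ℝ := (volume K).toReal with hk
  have hk0 : 0 < k := ENNReal.toReal_pos hVK.ne' hVKf
  -- the image
  set K' : Set (Fin (m + 1) → ℝ) := (fun x => A.mulVec x + c) '' K with hK'
  have hAc : Continuous fun x : Fin (m + 1) → ℝ => A.mulVec x + c := by
    refine Continuous.add ?_ continuous_const
    exact Continuous.matrix_mulVec continuous_const continuous_id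
  have hcp' : IsCompact K' := hcp.image hAc
  have hcv' : Convex ℝ K' := by
    rintro _ ⟨x, hx, rfl⟩ _ ⟨y, hy, rfl⟩ a b ha hb hab
    refine ⟨a • x + b • y, hcv hx hy ha hb hab, ?_⟩
    simp only [Matrix.mulVec_add, Matrix.mulVec_smul, smul_add]
    have : c = a • c + b • c := by rw [← add_smul, hab, one_smul]
    conv_lhs => rw [this]
    abel
  have hsub' : K' ⊆ Dl (m + 1) := by
    rintro _ ⟨x, hx, rfl⟩
    exact hAK x hx
  have hne' : K'.Nonempty := by
    obtain ⟨x, hx⟩ := hin
    exact ⟨_, x, interior_subset hx, rfl⟩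
  have hMx : Mx K' := by
    intro M c' hM
    have h1 := hmax (LinearMap.toMatrix' M * A) (M c + c') (by
      intro x hx
      have h2 := hM _ ⟨x, hx, rfl⟩
      simp only [map_add] at h2
      rw [← Matrix.mulVec_mulVec, LinearMap.toMatrix'_mulVec, ← add_assoc]
      exact h2)
    rw [Matrix.det_mul, abs_mul, LinearMap.det_toMatrix'] at h1
    exact le_of_mul_le_mul_right (by linarith) hd0
  -- volumes
  have himg : K' = (fun x => x + (-c)) ⁻¹' ((fun x => A.mulVec x) '' K) := by
    ext x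
    constructor
    · rintro ⟨y, hy, rfl⟩
      exact ⟨y, hy, by simp⟩
    · rintro ⟨y, hy, hxy⟩
      refine ⟨y, hy, ?_⟩
      simp only at hxy ⊢
      rw [hxy]; simp
  have hvK' : volume K' = ENNReal.ofReal |A.det| * volume K := by
    rw [himg, measure_preimage_add_right, volume_image_mulVec]
  have hvK'r : (volume K').toReal = |A.det| * k := by
    rw [hvK', ENNReal.toReal_mul, ENNReal.toReal_ofReal hd0.le]
  have hK'f : volume K' ≠ ∞ := hcp'.measure_lt_top.ne
  have hT0r : |A0.det|⁻¹ * V (m + 1) ≤ (1 + δ) * k := by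
    rw [volume_SimD A0 hA0 c0] at hvol
    have h1 := ENNReal.toReal_mono (ENNReal.mul_ne_top ENNReal.ofReal_ne_top hVKf) hvol
    rw [ENNReal.toReal_mul, ENNReal.toReal_mul, ENNReal.toReal_ofReal (by positivity),
      ENNReal.toReal_ofReal (by positivity)] at h1
    exact h1
  have hVle : V (m + 1) ≤ (1 + δ) * (|A.det| * k) := by
    rw [inv_mul_le_iff₀ hd00] at hT0r
    refine hT0r.trans ?_
    calc |A0.det| * ((1 + δ) * k) ≤ |A.det| * ((1 + δ) * k) :=
          mul_le_mul_of_nonneg_right hle (by positivity)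
      _ = _ := by ring
  set D : Set (Fin (m + 1) → ℝ) := Dl (m + 1) \ K' with hD
  have hmD : MeasurableSet D := isClosed_Dl.measurableSet.diff hcp'.isClosed.measurableSet
  have hDf : volume D ≠ ∞ :=
    ((measure_mono Set.sdiff_subset).trans_lt isCompact_Dl.measure_lt_top).ne
  set d : ℝ := (volume D).toReal with hd
  have hdn : 0 ≤ d := ENNReal.toReal_nonneg
  have hVsum : V (m + 1) = |A.det| * k + d := by
    have h1 : volume (Dl (m + 1)) = volume K' + volume D := by
      rw [hD, ← measure_union Set.disjoint_sdiff_right hmD, Set.union_sdiff_cancel hsub']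
    rw [V, h1, ENNReal.toReal_add hK'f hDf, hvK'r]
  have hkV : |A.det| * k ≤ V (m + 1) := by linarith
  have hdle : d ≤ δ * V (m + 1) := by
    have h1 : δ * (|A.det| * k) ≤ δ * V (m + 1) := mul_le_mul_of_nonneg_left hkV hδ0.le
    linarith
  have hkhalf : V (m + 1) / 2 ≤ |A.det| * k := by
    have h1 : δ * (|A.det| * k) ≤ 1 * (|A.det| * k) :=
      mul_le_mul_of_nonneg_right hδa (by positivity)
    linarith
  -- near position
  have hbig : ∀ x ∈ Dl (m + 1), (1 - η0) • x ∈ K' := by
    refine big_of_volume hη0 hη1 hcv' hcp'.isClosed ?_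
    rw [← ENNReal.toReal_lt_toReal hDf (ENNReal.mul_ne_top ENNReal.ofReal_ne_top vol_ne_top),
      ENNReal.toReal_mul, ENNReal.toReal_ofReal (by positivity)]
    change d < ε * V (m + 1)
    have h1 : δ * V (m + 1) ≤ ε / 2 * V (m + 1) := mul_le_mul_of_nonneg_right hδb hV.le
    have h2 : 0 < ε * V (m + 1) := by positivity
    linarith
  have hNear : Near m η0 K' :=
    ⟨hcv', hcp'.isClosed, hsub', hbig, fun i => cen_of_max hcv' hcp' hne' hsub' hMx i⟩
  have hdδ : (volume (Dl (m + 1) \ K')).toReal ≤ δ1 := by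
    change d ≤ δ1
    refine hdle.trans ?_
    rw [le_div_iff₀ hV] at hδc
    exact hδc
  have hfin := hlow K' hNear hdδ c
  have hshift : (fun x => x - c) '' K' = (fun x => A.mulVec x) '' K := by
    rw [hK', Set.image_image]
    simp
  rw [hshift, MpF_image p A hA hmK] at hfin
  refine ⟨{x | A.mulVec x + c ∈ Dl (m + 1)}, ⟨A, c, hA, rfl⟩, fun x hx => hAK x hx, ?_, ?_⟩
  · rw [volume_SimD A hA c, volume_SimD A0 hA0 c0]
    refine mul_le_mul' (ENNReal.ofReal_le_ofReal ?_) le_rfl
    exact inv_anti₀ hd00 hle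
  · refine le_trans ?_ hfin
    rw [MpF_Dl hp, volume_SimD A hA c, ENNReal.toReal_mul, ENNReal.toReal_ofReal (by positivity)]
    have hratio : |A.det|⁻¹ * (volume (Dl (m + 1))).toReal / k - 1 = d / (|A.det| * k) := by
      change |A.det|⁻¹ * V (m + 1) / k - 1 = _
      rw [hVsum]; field_simp; ring
    rw [hratio]
    have hr0 : 0 ≤ d / (|A.det| * k) := by positivity
    rw [← ENNReal.ofReal_mul (by positivity)]
    refine ENNReal.ofReal_le_ofReal ?_
    have h3 : δ * (d / (|A.det| * k)) ≤ c1 * d := by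
      have h4 : d / (|A.det| * k) ≤ d / (V (m + 1) / 2) :=
        div_le_div_of_nonneg_left hdn (by positivity) hkhalf
      calc δ * (d / (|A.det| * k)) ≤ (c1 * V (m + 1) / 2) * (d / (V (m + 1) / 2)) :=
            mul_le_mul hδd h4 hr0 (by positivity)
        _ = c1 * d := by field_simp
    have h5 : 0 ≤ V (m + 1) ^ (1 + 1 / p) * JJ p (m + 1) := by positivity
    calc (1 + δ * (d / (|A.det| * k))) * (V (m + 1) ^ (1 + 1 / p) * JJ p (m + 1))
        ≤ (1 + c1 * d) * (V (m + 1) ^ (1 + 1 / p) * JJ p (m + 1)) :=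
          mul_le_mul_of_nonneg_right (by linarith) h5
      _ = V (m + 1) ^ (1 + 1 / p) * (JJ p (m + 1) * (1 + c1 * d)) := by ring

end Pool.Agent.Helper77.LM

end
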