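import Pool.Agent.Helper77.LM.Second

/-!
The lower bound of the `L^p` Mahler volume near the centered simplex.
-/

set_option autoImplicit false

noncomputable section

open MeasureTheory Set Filter Topology
open scoped ENNReal

namespace Pool.Agent.Helper77.LM

variable {n m : ℕ}

/-- the `L^p` Mahler volume -/
def MpF (p : ℝ) (L : Set (Fin n → ℝ)) : ℝ≥0∞ := volume L *
  ∫⁻ y : Fin n → ℝ, ENNReal.ofReal
    (((∫ x in L, Real.exp (p * ∑ i, x i * y i)) / (volume L).toReal) ^ (-(1 / p)))

lemma real_final {p V0 J lam C5 : ℝ} (hp : 0 < p) (hV : 0 < V0) (hJ : 0 < J) (hlam : 0 < lam)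
    (hC5 : 0 < C5) : ∃ δ > 0, ∀ d : ℝ, 0 ≤ d → d ≤ δ →
      V0 ^ (1 + 1 / p) * (J * (1 + lam / (2 * p * J) * d))
        ≤ (V0 - d) ^ (1 + 1 / p) * (J + ((p + 1) * J / V0 + lam) * d / p - C5 * d ^ 2) := by
  set L : ℝ := (p + 1) * J / V0 + lam with hL
  have hL0 : 0 < L := by positivity
  set q : ℝ := 1 + 1 / p with hq
  have hq0 : 0 < q := by positivity
  have hq1 : 1 ≤ q := by
    have : 0 < 1 / p := by positivity
    linarith
  set M : ℝ := C5 + q * L / (p * V0) with hM
  have hM0 : 0 < M := by positivity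
  refine ⟨min V0 (min (L / (p * C5)) (lam / (2 * p * M))), by positivity, ?_⟩
  intro d hd0 hd
  have hd1 : d ≤ V0 := hd.trans (min_le_left _ _)
  have hd2 : d ≤ L / (p * C5) := hd.trans ((min_le_right _ _).trans (min_le_left _ _))
  have hd3 : d ≤ lam / (2 * p * M) := hd.trans ((min_le_right _ _).trans (min_le_right _ _))
  set B : ℝ := J + L * d / p - C5 * d ^ 2 with hB
  have hB0 : 0 ≤ B := by
    rw [le_div_iff₀ (by positivity)] at hd2
    have h1 : C5 * d ^ 2 ≤ L * d / p := by
      rw [le_div_iff₀ hp]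
      calc C5 * d ^ 2 * p = (d * (p * C5)) * d := by ring
        _ ≤ L * d := mul_le_mul_of_nonneg_right hd2 hd0
    linarith
  have h1 : V0 ^ q * (1 - q * d / V0) ≤ (V0 - d) ^ q := by
    have h2 : -1 ≤ -(d / V0) := by
      rw [neg_le_neg_iff, div_le_one hV]; exact hd1
    have h3 := one_add_mul_self_le_rpow_one_add h2 hq1
    have e1 : V0 - d = V0 * (1 + -(d / V0)) := by field_simp; ring
    rw [e1, Real.mul_rpow hV.le (by linarith)]
    refine mul_le_mul_of_nonneg_left ?_ (by positivity)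
    refine le_trans (le_of_eq ?_) h3
    ring
  refine le_trans ?_ (mul_le_mul_of_nonneg_right h1 hB0)
  have hVq : 0 ≤ V0 ^ q := by positivity
  rw [mul_assoc (V0 ^ q)]
  refine mul_le_mul_of_nonneg_left ?_ hVq
  have e2 : (1 - q * d / V0) * B = J + (L / p - q * J / V0) * d - M * d ^ 2
      + (q * C5 / V0) * d ^ 3 := by
    rw [hB, hM]; field_simp; ring
  have e3 : L / p - q * J / V0 = lam / p := by
    rw [hL, hq]; field_simp; ring
  have e4 : J * (1 + lam / (2 * p * J) * d) = J + lam / (2 * p) * d := by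
    field_simp
  rw [e2, e3, e4]
  rw [le_div_iff₀ (by positivity)] at hd3
  have h4 : M * d ^ 2 ≤ lam / (2 * p) * d := by
    rw [div_mul_eq_mul_div, le_div_iff₀ (by positivity)]
    calc M * d ^ 2 * (2 * p) = d * (2 * p * M) * d := by ring
      _ ≤ lam * d := mul_le_mul_of_nonneg_right hd3 hd0
  have h5 : 0 ≤ (q * C5 / V0) * d ^ 3 := by positivity
  have h6 : lam / p = lam / (2 * p) + lam / (2 * p) := by field_simp; ring
  rw [h6]
  linarith

lemma quad_low {κ b : ℝ} (hκ : 0 < κ) (z : Fin n → ℝ) :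
    -(n * (b ^ 2 / (4 * κ))) ≤ κ * qf z - b * ∑ i, |z i| := by
  have h1 : ∀ i : Fin n, -(b ^ 2 / (4 * κ)) ≤ κ * z i ^ 2 - b * |z i| := by
    intro i
    have h2 : 0 ≤ κ * (|z i| - b / (2 * κ)) ^ 2 := by positivity
    have h3 : κ * (|z i| - b / (2 * κ)) ^ 2 = κ * z i ^ 2 - b * |z i| + b ^ 2 / (4 * κ) := by
      rw [← sq_abs (z i)]; field_simp; ring
    linarith
  have h4 : ∑ _i : Fin n, -(b ^ 2 / (4 * κ)) ≤ ∑ i : Fin n, (κ * z i ^ 2 - b * |z i|) :=
    Finset.sum_le_sum fun i _ => h1 i
  rw [Finset.sum_sub_distrib, ← Finset.mul_sum, ← Finset.mul_sum] at h4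
  simp only [Finset.sum_const, Finset.card_univ, Fintype.card_fin, nsmul_eq_mul] at h4
  simp only [qf]
  linarith

lemma translate_integral (p : ℝ) (K : Set (Fin n → ℝ)) (z y : Fin n → ℝ) :
    ∫ x in (fun x => x - z) '' K, Real.exp (p * dp x y) = Real.exp (-(p * dp z y)) * IS p K y := by
  have e0 : (fun x : Fin n → ℝ => x - z) '' K = (fun x => x + z) ⁻¹' K := by
    ext x
    constructor
    · rintro ⟨y, hy, rfl⟩
      simpa using hy
    · intro hx
      exact ⟨x + z, hx, by simp⟩
  have h := (measurePreserving_add_right (volume : Measure (Fin n → ℝ)) z).setIntegral_preimage_emb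
    (measurableEmbedding_addRight z) (fun x => Real.exp (p * dp (x - z) y)) K
  simp only [add_sub_cancel_right] at h
  rw [e0, h, IS, ← integral_const_mul]
  refine integral_congr_ae (Filter.Eventually.of_forall fun x => ?_)
  simp only
  rw [← Real.exp_add]
  congr 1
  have : dp (x - z) y = dp x y - dp z y := by
    simp only [dp, Pi.sub_apply, sub_mul, Finset.sum_sub_distrib]
  rw [this]; ring

lemma translate_volume (K : Set (Fin n → ℝ)) (z : Fin n → ℝ) :
    volume ((fun x => x - z) '' K) = volume K := by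
  have e0 : (fun x : Fin n → ℝ => x - z) '' K = (fun x => x + z) ⁻¹' K := by
    ext x
    constructor
    · rintro ⟨y, hy, rfl⟩
      simpa using hy
    · intro hx
      exact ⟨x + z, hx, by simp⟩
  rw [e0]
  exact measure_preimage_add_right _ _ _

/-- formula for the `L^p` Mahler volume of a translate -/
lemma MpF_translate {p : ℝ} (hp : 0 < p) {K : Set (Fin n → ℝ)} (hfin : volume K ≠ ∞)
    (hpos : 0 < (volume K).toReal) (z : Fin n → ℝ) :
    MpF p ((fun x => x - z) '' K) = ENNReal.ofReal ((volume K).toReal ^ (1 + 1 / p)) *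
      ∫⁻ y : Fin n → ℝ, ENNReal.ofReal (Real.exp (dp z y) * IS p K y ^ (-(1 / p))) := by
  set k : ℝ := (volume K).toReal with hk
  rw [MpF, translate_volume]
  have e1 : ∀ y : Fin n → ℝ, ((∫ x in (fun x => x - z) '' K, Real.exp (p * ∑ i, x i * y i)) /
      (volume K).toReal) ^ (-(1 / p))
      = k ^ (1 / p) * (Real.exp (dp z y) * IS p K y ^ (-(1 / p))) := by
    intro y
    have h1 := translate_integral p K z y
    simp only [dp] at h1
    rw [h1]
    have h2 := IS_nonneg p K y
    rw [Real.div_rpow (by positivity) (by positivity), Real.mul_rpow (Real.exp_pos _).le h2,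
      ← Real.exp_mul, ← hk, Real.rpow_neg hpos.le (1 / p), div_inv_eq_mul]
    have e2 : -(p * ∑ i, z i * y i) * -(1 / p) = ∑ i, z i * y i := by field_simp
    rw [e2]
    simp only [dp]
    ring
  simp only [e1]
  have e3 : ∀ y : Fin n → ℝ, ENNReal.ofReal (k ^ (1 / p) * (Real.exp (dp z y) *
      IS p K y ^ (-(1 / p)))) = ENNReal.ofReal (k ^ (1 / p)) *
        ENNReal.ofReal (Real.exp (dp z y) * IS p K y ^ (-(1 / p))) := fun y =>
    ENNReal.ofReal_mul (by positivity)
  simp only [e3]
  rw [lintegral_const_mul' _ _ ENNReal.ofReal_ne_top, ← mul_assoc]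
  congr 1
  rw [Real.rpow_add hpos, Real.rpow_one, ENNReal.ofReal_mul hpos.le, hk,
    ENNReal.ofReal_toReal hfin]

/-- the value at the centered simplex -/
lemma MpF_Dl {p : ℝ} (hp : 0 < p) (n : ℕ) :
    MpF p (Dl n) = ENNReal.ofReal (V n ^ (1 + 1 / p) * JJ p n) := by
  have hV := V_pos n
  have h := MpF_translate hp (K := Dl n) vol_ne_top hV 0
  have e0 : (fun x : Fin n → ℝ => x - 0) '' Dl n = Dl n := by simp
  rw [e0] at h
  rw [h, ENNReal.ofReal_mul (by positivity)]
  congr 1
  rw [JJ, ofReal_integral_eq_lintegral_ofReal (integrable_uu hp n)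
    (Filter.Eventually.of_forall fun y => (uu_pos hp y).le)]
  refine lintegral_congr fun y => ?_
  have : dp (0 : Fin n → ℝ) y = 0 := by simp [dp]
  rw [this, Real.exp_zero, one_mul]
  rfl

/-- **The lower bound near the centered simplex.** -/
theorem mp_low {p : ℝ} (hp : 0 < p) (m : ℕ) : ∃ η0 δ c : ℝ, 0 < η0 ∧ η0 < 1 ∧ 0 < δ ∧ 0 < c ∧
    ∀ K : Set (Fin (m + 1) → ℝ), Near m η0 K → (volume (Dl (m + 1) \ K)).toReal ≤ δ →
      ∀ z : Fin (m + 1) → ℝ,
        ENNReal.ofReal (V (m + 1) ^ (1 + 1 / p) * (JJ p (m + 1) *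
          (1 + c * (volume (Dl (m + 1) \ K)).toReal)))
        ≤ MpF p ((fun x => x - z) '' K) := by
  obtain ⟨L, η0, hL, hη0, hη1, hfo⟩ := first_order hp m
  obtain ⟨κ, hκ, hQ1⟩ := Q1_low hp (m + 1)
  obtain ⟨C, hC, hQ2⟩ := Q2_low hp (m + 1)
  have hJ := JJ_pos hp (m + 1)
  have hV := V_pos (m + 1)
  set lam : ℝ := L - (p + 1) * JJ p (m + 1) / V (m + 1) with hlam
  have hlam0 : 0 < lam := by linarith
  have hL0 : 0 < L := lt_trans (by positivity) hL
  set C5 : ℝ := ((m + 1 : ℕ) : ℝ) * ((1 / p * C) ^ 2 / (4 * κ)) with hC5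
  have hC5p : 0 < C5 := by
    have : (0 : ℝ) < ((m + 1 : ℕ) : ℝ) := by positivity
    positivity
  obtain ⟨δ, hδ, hreal⟩ := real_final (p := p) hp hV hJ hlam0 hC5p
  refine ⟨η0, min δ (V (m + 1) / 2), lam / (2 * p * JJ p (m + 1)), hη0, hη1, by positivity,
    by positivity, ?_⟩
  intro K hK hd z
  set D : Set (Fin (m + 1) → ℝ) := Dl (m + 1) \ K with hD
  have hmD : MeasurableSet D := isClosed_Dl.measurableSet.diff hK.closed.measurableSet
  have hDs : D ⊆ Dl (m + 1) := Set.sdiff_subset
  set d : ℝ := (volume D).toReal with hdd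
  have hd0 : 0 ≤ d := ENNReal.toReal_nonneg
  have hd1 : d ≤ δ := hd.trans (min_le_left _ _)
  have hd2 : d ≤ V (m + 1) / 2 := hd.trans (min_le_right _ _)
  have hfinK : volume K ≠ ∞ :=
    ((measure_mono hK.sub).trans_lt isCompact_Dl.measure_lt_top).ne
  have hfinD : volume D ≠ ∞ :=
    ((measure_mono hDs).trans_lt isCompact_Dl.measure_lt_top).ne
  have hvol : (volume K).toReal = V (m + 1) - d := by
    have h1 : volume (Dl (m + 1)) = volume K + volume D := by
      rw [hD, ← measure_union Set.disjoint_sdiff_right hmD, Set.union_sdiff_cancel hK.sub]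
    have h2 : V (m + 1) = (volume K).toReal + d := by
      rw [V, h1, ENNReal.toReal_add hfinK hfinD]
    linarith
  have hkpos : 0 < (volume K).toReal := by rw [hvol]; linarith
  -- positivity of the exponential integral
  have hmK : MeasurableSet K := hK.closed.measurableSet
  have hISK : ∀ y, 0 < IS p K y := by
    intro y
    have h : ∫ _x in K, Real.exp (-(p * ((m + 1 : ℕ) * hh y))) ≤ IS p K y := by
      refine setIntegral_mono_on ?_ ((integrableOn_exp p y isCompact_Dl).mono_set hK.sub) hmK ?_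
      · exact integrableOn_const hfinK
      · intro x hx
        refine Real.exp_le_exp.2 ?_
        have := mul_le_mul_of_nonneg_left (le_dp (hK.sub hx) y) hp.le
        linarith
    refine lt_of_lt_of_le ?_ h
    simp only [integral_const, smul_eq_mul, Measure.real, Measure.restrict_apply_univ]
    positivity
  have hsplit : ∀ y, II p y = IS p K y + IS p D y := by
    intro y
    have h1 : II p y = ∫ x in K ∪ D, Real.exp (p * dp x y) := by
      rw [hD, Set.union_sdiff_cancel hK.sub]; rfl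
    rw [h1, setIntegral_union Set.disjoint_sdiff_right hmD
      ((integrableOn_exp p y isCompact_Dl).mono_set hK.sub)
      ((integrableOn_exp p y isCompact_Dl).mono_set hDs)]
    rfl
  have hz : -(1 / p) ≤ 0 := by
    have : 0 < 1 / p := by positivity
    linarith
  have htan : ∀ y, uu p y + 1 / p * (ww p y * IS p D y) ≤ IS p K y ^ (-(1 / p)) := by
    intro y
    have h1 := tangent (II_pos hp y) (hISK y) hz
    have h2 : IS p K y - II p y = -IS p D y := by rw [hsplit y]; ring
    rw [h2] at h1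
    refine le_trans (le_of_eq ?_) h1
    simp only [uu, ww]
    ring
  -- the integral
  have hT : ENNReal.ofReal (JJ p (m + 1) + L * d / p - C5 * d ^ 2)
      ≤ ∫⁻ y : Fin (m + 1) → ℝ, ENNReal.ofReal (Real.exp (dp z y) * IS p K y ^ (-(1 / p))) := by
    have h1 : (∫⁻ y : Fin (m + 1) → ℝ, ENNReal.ofReal (Real.exp (dp z y) * uu p y))
        + ∫⁻ y : Fin (m + 1) → ℝ, ENNReal.ofReal (Real.exp (dp z y) *
          (1 / p * (ww p y * IS p D y)))
        ≤ ∫⁻ y : Fin (m + 1) → ℝ, ENNReal.ofReal (Real.exp (dp z y) *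
          IS p K y ^ (-(1 / p))) := by
      rw [← lintegral_add_left]
      · refine lintegral_mono fun y => ?_
        have hu := uu_pos hp y
        have hw := ww_pos hp y
        have hs := IS_nonneg p D y
        rw [← ENNReal.ofReal_add (by positivity) (by positivity), ← mul_add]
        exact ENNReal.ofReal_le_ofReal (mul_le_mul_of_nonneg_left (htan y) (Real.exp_pos _).le)
      · exact ((measurable_exp_dp _).mul (measurable_uu p)).ennreal_ofReal
    refine le_trans ?_ h1
    refine le_trans ?_ (add_le_add (hQ1 z) (hQ2 D hmD hDs L (hfo K hK) z))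
    refine le_trans (ENNReal.ofReal_le_ofReal ?_) ENNReal.ofReal_add_le
    have h2 := quad_low (b := 1 / p * C * d) hκ z
    have e1 : ((m + 1 : ℕ) : ℝ) * ((1 / p * C * d) ^ 2 / (4 * κ)) = C5 * d ^ 2 := by
      rw [hC5]; ring
    rw [e1] at h2
    rw [← hdd]
    have e2 : 1 / p * (L * d - C * d * ∑ i, |z i|) = L * d / p - 1 / p * C * d * ∑ i, |z i| := by
      ring
    rw [e2]
    linarith
  rw [MpF_translate hp hfinK hkpos z]
  refine le_trans ?_ (mul_le_mul_right hT _)
  rw [← ENNReal.ofReal_mul (by positivity)]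
  refine ENNReal.ofReal_le_ofReal ?_
  rw [hvol]
  have h3 := hreal d hd0 hd1
  have e3 : (p + 1) * JJ p (m + 1) / V (m + 1) + lam = L := by rw [hlam]; ring
  rw [e3] at h3
  exact h3

end Pool.Agent.Helper77.LM

end
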