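import Pool.Agent.Helper77.LM.MpLow

/-!
Positions of a convex body in the simplex.
-/

set_option autoImplicit false

noncomputable section

open MeasureTheory Set Filter Topology
open scoped ENNReal Pointwise

namespace Pool.Agent.Helper77.LM

variable {n m : ℕ}

lemma func_eq_dp (f : (Fin n → ℝ) →L[ℝ] ℝ) (x : Fin n → ℝ) :
    f x = dp x (fun j => f (Pi.single j 1)) := by
  have h : x = ∑ j, x j • (Pi.single j 1 : Fin n → ℝ) := by
    funext i
    simp [Finset.sum_apply, Pi.single_apply]
  conv_lhs => rw [h]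
  rw [map_sum]
  simp only [map_smul, smul_eq_mul, dp]

/-- a convex set of almost full volume contains the shrunken simplex -/
lemma big_of_volume {η : ℝ} (hη0 : 0 < η) (hη1 : η < 1) {K : Set (Fin n → ℝ)}
    (hc : Convex ℝ K) (hcl : IsClosed K)
    (hvol : volume (Dl n \ K) < ENNReal.ofReal ((η / (n + 1)) ^ n) * volume (Dl n)) :
    ∀ x ∈ Dl n, (1 - η) • x ∈ K := by
  intro x hx
  by_contra hnot
  obtain ⟨f, u, hfu, hux⟩ := geometric_hahn_banach_closed_point hc hcl hnot
  set l : Fin n → ℝ := fun j => f (Pi.single j 1) with hl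
  have hf : ∀ y, f y = dp y l := func_eq_dp f
  obtain ⟨j, hj⟩ := exists_vy l
  set v : Fin n → ℝ := un (Pi.single j 1) with hv
  have hvm : v ∈ Dl n := vtx_mem j
  have hvl : dp v l = hh l := by rw [hv, dp_vtx, hj]
  set t : ℝ := η / (n + 1) with ht
  have hn : (0 : ℝ) < n + 1 := by positivity
  have hn1 : (1 : ℝ) ≤ n + 1 := by linarith [(Nat.cast_nonneg n : (0 : ℝ) ≤ n)]
  have ht0 : 0 < t := by positivity
  have ht1 : t ≤ 1 := by rw [ht, div_le_one hn]; linarith
  set S : Set (Fin n → ℝ) := (fun y => y + (-((1 - t) • v))) ⁻¹' (t • Dl n) with hS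
  have hSv : volume S = ENNReal.ofReal (t ^ n) * volume (Dl n) := by
    rw [hS, measure_preimage_add_right, Measure.addHaar_smul, Module.finrank_fin_fun,
      abs_of_pos (by positivity)]
  have hsub : S ⊆ Dl n \ K := by
    intro y hy
    obtain ⟨w, hw, hwy⟩ := hy
    have hy2 : y = t • w + (1 - t) • v := by
      simp only at hwy
      rw [hwy]; simp
    have hh0 := hh_nonneg l
    refine ⟨?_, fun hyK => ?_⟩
    · rw [hy2]
      exact convex_Dl hw hvm ht0.le (by linarith) (by ring)
    · have h1 := hfu y hyK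
      have h2 : f y = t * dp w l + (1 - t) * hh l := by
        rw [hf, hy2, dp_add_left, dp_smul_left, dp_smul_left, hvl]
      have h3 := le_dp hw l
      have h4 : f ((1 - η) • x) ≤ (1 - η) * hh l := by
        rw [hf, dp_smul_left]
        exact mul_le_mul_of_nonneg_left (dp_le hx l) (by linarith)
      have h5 := mul_le_mul_of_nonneg_left h3 ht0.le
      have h6 : t * -(n * hh l) + (1 - t) * hh l = (1 - η) * hh l := by
        rw [ht]; field_simp; ring
      linarith
  have := measure_mono (μ := volume) hsub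
  rw [hSv] at this
  exact absurd hvol (not_lt.2 this)

lemma prod_gt (u : Fin n → ℝ) (h : 0 < ∑ j, u j) :
    ∃ τ : ℝ, 0 < τ ∧ τ < 1 ∧ 1 < ∏ j, (1 + τ * u j) := by
  have hd : HasDerivAt (fun τ : ℝ => ∏ j, (1 + τ * u j)) (∑ j, u j) 0 := by
    have h1 : ∀ j ∈ (Finset.univ : Finset (Fin n)),
        HasDerivAt (fun τ : ℝ => 1 + τ * u j) (u j) 0 := by
      intro j _
      have := ((hasDerivAt_id (0 : ℝ)).mul_const (u j)).const_add 1
      simpa using this
    have h2 := HasDerivAt.fun_finsetProd h1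
    refine h2.congr_deriv ?_
    simp
  rw [hasDerivAt_iff_tendsto_slope] at hd
  have h1 := hd.eventually (lt_mem_nhds h)
  have h2 : ∀ᶠ τ : ℝ in 𝓝[>] 0, 0 < slope (fun τ : ℝ => ∏ j, (1 + τ * u j)) 0 τ :=
    h1.filter_mono (nhdsWithin_mono _ (fun x hx => (ne_of_gt hx)))
  obtain ⟨τ, hτ, hτ01⟩ := (h2.and (Ioo_mem_nhdsGT (zero_lt_one (α := ℝ)))).exists
  refine ⟨τ, hτ01.1, hτ01.2, ?_⟩
  rw [slope_def_field, div_pos_iff] at hτ
  rcases hτ with ⟨h3, _⟩ | ⟨_, h3⟩
  · simp at h3
    linarith
  · exact absurd h3 (by simp; exact hτ01.1.le)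

/-- the linear part of the barycentric coordinates -/
def Lam (n : ℕ) : (Fin n → ℝ) ≃ₗ[ℝ] (Fin n → ℝ) where
  toFun x := fun j => x j - (∑ k, x k) / (n + 1)
  map_add' x y := by
    funext j
    simp only [Pi.add_apply, Finset.sum_add_distrib]
    ring
  map_smul' c x := by
    funext j
    simp only [Pi.smul_apply, smul_eq_mul, ← Finset.mul_sum, RingHom.id_apply]
    ring
  invFun u := fun j => u j + ∑ k, u k
  left_inv x := by
    funext j
    have hn : (n : ℝ) + 1 ≠ 0 := by positivity
    simp only [Finset.sum_sub_distrib, Finset.sum_const, Finset.card_univ, Fintype.card_fin,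
      nsmul_eq_mul]
    field_simp
    ring
  right_inv u := by
    funext j
    have hn : (n : ℝ) + 1 ≠ 0 := by positivity
    simp only [Finset.sum_add_distrib, Finset.sum_const, Finset.card_univ, Fintype.card_fin,
      nsmul_eq_mul]
    field_simp
    ring

lemma Lam_apply (x : Fin n → ℝ) (j : Fin n) : Lam n x j = x j - (∑ k, x k) / (n + 1) := rfl

lemma Lam_symm_apply (u : Fin n → ℝ) (j : Fin n) : (Lam n).symm u j = u j + ∑ k, u k := rfl

lemma bary_succ_eq (x : Fin n → ℝ) (j : Fin n) : bary x j.succ = Lam n x j + 1 / (n + 1) := by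
  rw [bary_succ, Lam_apply, tt]; ring

/-- diagonal maps -/
def Dg (d : Fin n → ℝ) : (Fin n → ℝ) →ₗ[ℝ] (Fin n → ℝ) := Matrix.toLin' (Matrix.diagonal d)

lemma Dg_apply (d x : Fin n → ℝ) (j : Fin n) : Dg d x j = d j * x j := by
  simp [Dg, Matrix.mulVec_diagonal]

lemma det_Dg (d : Fin n → ℝ) : LinearMap.det (Dg d) = ∏ j, d j := by
  rw [Dg, LinearMap.det_toLin', Matrix.det_diagonal]

/-- maximal position -/
def Mx (K : Set (Fin n → ℝ)) : Prop :=
  ∀ (M : (Fin n → ℝ) →ₗ[ℝ] (Fin n → ℝ)) (c : Fin n → ℝ), (∀ x ∈ K, M x + c ∈ Dl n) →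
    |LinearMap.det M| ≤ 1

/-- scaling the barycentric coordinates -/
lemma scale_mem {d : Fin n → ℝ} (hd : ∀ j, 0 ≤ d j) {x : Fin n → ℝ} (hx : x ∈ Dl n)
    (h : ∑ j, d j * bary x j.succ ≤ 1) :
    ((Lam n).symm.toLinearMap ∘ₗ Dg d ∘ₗ (Lam n).toLinearMap) x
      + ((Lam n).symm (Dg d fun _ => 1 / (n + 1)) - fun _ => 1) ∈ Dl n := by
  set l : Fin (n + 1) → ℝ := Fin.cons (1 - ∑ j, d j * bary x j.succ)
    (fun j => d j * bary x j.succ) with hl
  have hsum : ∑ i, l i = 1 := by
    rw [Fin.sum_univ_succ]; simp [hl]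
  have e : ((Lam n).symm.toLinearMap ∘ₗ Dg d ∘ₗ (Lam n).toLinearMap) x
      + ((Lam n).symm (Dg d fun _ => 1 / (n + 1)) - fun _ => 1) = un l := by
    funext j
    simp only [LinearMap.comp_apply, LinearEquiv.coe_coe, Pi.add_apply, Pi.sub_apply,
      Lam_symm_apply, Dg_apply, un, hl, Fin.cons_zero, Fin.cons_succ, bary_succ_eq, mul_add,
      Finset.sum_add_distrib]
    ring
  rw [e]
  intro i
  rw [bary_un l hsum]
  refine Fin.cases ?_ (fun j => ?_) i
  · simp only [hl, Fin.cons_zero]; linarith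
  · simp only [hl, Fin.cons_succ]
    exact mul_nonneg (hd j) (hx _)

/-- in maximal position the body contains the centroid of the facet -/
lemma ctr_of_max {K : Set (Fin (m + 1) → ℝ)} (hc : Convex ℝ K) (hcp : IsCompact K)
    (hne : K.Nonempty) (hsub : K ⊆ Dl (m + 1)) (hmax : Mx K) : ctr m ∈ K := by
  have hm : (0 : ℝ) < m + 1 := by positivity
  set φ : (Fin (m + 1) → ℝ) → (Fin (m + 1) → ℝ) := fun x j => bary x j.succ with hφ
  have hφc : Continuous φ := continuous_pi fun j => (continuous_apply j.succ).comp continuous_bary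
  set O : Set (Fin (m + 1) → ℝ) := {u | ∀ j, u j ≤ 0} with hO
  have hOc : IsClosed O := by
    have : O = ⋂ j, {u | u j ≤ 0} := by ext; simp [hO]
    rw [this]
    exact isClosed_iInter fun j => isClosed_le (continuous_apply j) continuous_const
  have hOcv : Convex ℝ O := by
    intro x hx y hy a b ha hb hab j
    simp only [Pi.add_apply, Pi.smul_apply, smul_eq_mul]
    have := mul_nonpos_of_nonneg_of_nonpos ha (hx j)
    have := mul_nonpos_of_nonneg_of_nonpos hb (hy j)
    linarith
  have hφK : Convex ℝ (φ '' K) := by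
    rintro _ ⟨x, hx, rfl⟩ _ ⟨y, hy, rfl⟩ a b ha hb hab
    refine ⟨a • x + b • y, hc hx hy ha hb hab, ?_⟩
    funext j
    simp only [hφ, bary_add_smul x y hab]
    simp
  set W : Set (Fin (m + 1) → ℝ) := φ '' K + O with hW
  have hWcv : Convex ℝ W := hφK.add hOcv
  have hWcl : IsClosed W := hOc.add_left_of_isCompact (hcp.image hφc)
  by_cases hmem : ctr m ∈ W
  · obtain ⟨_, ⟨x, hx, rfl⟩, o, ho, hxo⟩ := hmem
    have hge : ∀ j : Fin (m + 1), 1 / ((m : ℝ) + 1) ≤ bary x j.succ := by
      intro j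
      have h1 := congrFun hxo j
      have h2 := ho j
      simp only [hφ, Pi.add_apply, ctr] at h1
      linarith
    have hsum := sum_bary x
    rw [Fin.sum_univ_succ] at hsum
    have h0 := hsub hx 0
    have hs1 : ∑ _j : Fin (m + 1), 1 / ((m : ℝ) + 1) = 1 := by
      simp only [Finset.sum_const, Finset.card_univ, Fintype.card_fin, nsmul_eq_mul]
      push_cast; field_simp
    have hle : ∑ j : Fin (m + 1), bary x j.succ ≤ ∑ _j : Fin (m + 1), 1 / ((m : ℝ) + 1) := by
      rw [hs1]; linarith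
    have heq : ∀ j : Fin (m + 1), 1 / ((m : ℝ) + 1) = bary x j.succ := by
      have h3 := (Finset.sum_eq_sum_iff_of_le (fun j (_ : j ∈ Finset.univ) => hge j)).1
        (le_antisymm (Finset.sum_le_sum fun j _ => hge j) hle)
      exact fun j => h3 j (Finset.mem_univ j)
    have h00 : bary x 0 = 0 := by
      have : ∑ j : Fin (m + 1), bary x j.succ = 1 := by
        rw [← hs1]; exact Finset.sum_congr rfl fun j _ => (heq j).symm
      linarith
    have : x = ctr m := by
      funext j
      have h4 := heq j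
      rw [bary_succ] at h4
      rw [bary_zero] at h00
      rw [h00, add_zero] at h4
      exact h4.symm
    rw [← this]
    exact hx
  · exfalso
    obtain ⟨f, u, hfu, hux⟩ := geometric_hahn_banach_closed_point hWcv hWcl hmem
    set l : Fin (m + 1) → ℝ := fun j => f (Pi.single j 1) with hl
    have hf : ∀ y, f y = dp y l := func_eq_dp f
    obtain ⟨x0, hx0⟩ := hne
    have hmemW : ∀ x ∈ K, φ x ∈ W := fun x hx =>
      ⟨φ x, ⟨x, hx, rfl⟩, 0, fun _ => le_rfl, add_zero _⟩
    have hl0 : ∀ j, 0 ≤ l j := by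
      intro j
      by_contra hneg
      rw [not_le] at hneg
      have hgap : 0 < u - f (φ x0) := by linarith [hfu _ (hmemW x0 hx0)]
      set s : ℝ := (u - f (φ x0)) / (-(l j)) with hs
      have hs0 : 0 < s := div_pos hgap (by linarith)
      have h1 : φ x0 + (-s) • (Pi.single j 1 : Fin (m + 1) → ℝ) ∈ W := by
        refine ⟨φ x0, ⟨x0, hx0, rfl⟩, _, ?_, rfl⟩
        intro k
        simp only [Pi.smul_apply, smul_eq_mul]
        by_cases hk : k = j
        · subst hk; simp; exact hs0.le
        · simp [hk]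
      have h2 := hfu _ h1
      rw [map_add, map_smul, smul_eq_mul] at h2
      have h3 : -s * f (Pi.single j 1) = u - f (φ x0) := by
        change -s * l j = _
        rw [hs]
        have : l j ≠ 0 := hneg.ne
        field_simp
      linarith
    have hlx : ∀ x ∈ K, ∑ j, l j * bary x j.succ < u := by
      intro x hx
      have h1 := hfu _ (hmemW x hx)
      rw [hf] at h1
      refine lt_of_eq_of_lt ?_ h1
      simp only [dp, hφ]
      exact Finset.sum_congr rfl fun j _ => mul_comm _ _
    have hu0 : 0 < u := by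
      refine lt_of_le_of_lt ?_ (hlx x0 hx0)
      exact Finset.sum_nonneg fun j _ => mul_nonneg (hl0 j) (hsub hx0 _)
    have hsl : ((m : ℝ) + 1) * u < ∑ j, l j := by
      have h1 : f (ctr m) = (1 / (m + 1)) * ∑ j, l j := by
        rw [hf]; simp only [dp, ctr, ← Finset.mul_sum]
      rw [h1, one_div, inv_mul_eq_div, lt_div_iff₀ hm] at hux
      linarith
    obtain ⟨τ, hτ0, hτ1, hprod⟩ := prod_gt (fun j => l j / u - 1) (by
      rw [Finset.sum_sub_distrib, ← Finset.sum_div]
      simp only [Finset.sum_const, Finset.card_univ, Fintype.card_fin, nsmul_eq_mul, mul_one]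
      push_cast
      rw [sub_pos, lt_div_iff₀ hu0]
      exact hsl)
    set d : Fin (m + 1) → ℝ := fun j => 1 + τ * (l j / u - 1) with hd
    have hd0 : ∀ j, 0 ≤ d j := by
      intro j
      have : 0 ≤ l j / u := div_nonneg (hl0 j) hu0.le
      have h2 := mul_nonneg hτ0.le this
      simp only [hd]
      nlinarith
    have hdx : ∀ x ∈ K, ∑ j, d j * bary x j.succ ≤ 1 := by
      intro x hx
      have h1 : ∑ j : Fin (m + 1), bary x j.succ ≤ 1 := by
        have := sum_bary x
        rw [Fin.sum_univ_succ] at this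
        linarith [hsub hx 0]
      have h2 := (hlx x hx).le
      have e : ∑ j, d j * bary x j.succ = (1 - τ) * ∑ j : Fin (m + 1), bary x j.succ
          + τ * ((∑ j, l j * bary x j.succ) / u) := by
        rw [Finset.mul_sum, Finset.sum_div, Finset.mul_sum, ← Finset.sum_add_distrib]
        refine Finset.sum_congr rfl fun j _ => ?_
        simp only [hd]
        ring
      have h3 : (∑ j, l j * bary x j.succ) / u ≤ 1 := by rw [div_le_one hu0]; exact h2
      rw [e]
      have h4 := mul_le_mul_of_nonneg_left h1 (by linarith : 0 ≤ 1 - τ)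
      have h5 := mul_le_mul_of_nonneg_left h3 hτ0.le
      linarith
    have h6 := hmax _ _ (fun x hx => scale_mem hd0 (hsub hx) (hdx x hx))
    have h7 : LinearMap.det ((Lam (m + 1)).symm.toLinearMap ∘ₗ Dg d ∘ₗ
        (Lam (m + 1)).toLinearMap) = ∏ j, d j := by
      have := LinearMap.det_conj (Dg d) (Lam (m + 1)).symm
      rw [LinearEquiv.symm_symm] at this
      rw [this, det_Dg]
    rw [h7] at h6
    have := (le_abs_self _).trans h6
    linarith

/-- in maximal position the body contains the centroids of all facets -/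
lemma cen_of_max {K : Set (Fin (m + 1) → ℝ)} (hc : Convex ℝ K) (hcp : IsCompact K)
    (hne : K.Nonempty) (hsub : K ⊆ Dl (m + 1)) (hmax : Mx K) (i : Fin (m + 2)) :
    Tl (Equiv.swap 0 i) (ctr m) ∈ K := by
  set T : (Fin (m + 1) → ℝ) →ₗ[ℝ] (Fin (m + 1) → ℝ) := Tl (Equiv.swap 0 i) with hT
  have hTT : ∀ x, T (T x) = x := by
    intro x
    rw [hT, Tl_Tl, Equiv.swap_mul_self, Tl_one]
  have hTc : Continuous (T : (Fin (m + 1) → ℝ) → (Fin (m + 1) → ℝ)) :=
    LinearMap.continuous_of_finiteDimensional _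
  have key : ctr m ∈ (T : (Fin (m + 1) → ℝ) → (Fin (m + 1) → ℝ)) '' K := by
    refine ctr_of_max ?_ (hcp.image hTc) (hne.image _) ?_ ?_
    · exact hc.linear_image T
    · rintro _ ⟨x, hx, rfl⟩
      exact (Tl_mem _).2 (hsub hx)
    · intro M c hM
      have h1 := hmax (M ∘ₗ T) c (fun x hx => hM (T x) ⟨x, hx, rfl⟩)
      rw [LinearMap.det_comp, abs_mul, abs_det_Tl, mul_one] at h1
      exact h1
  obtain ⟨x, hx, hxe⟩ := key
  have : T (ctr m) = x := by rw [← hxe, hTT]
  rw [this]
  exact hx

end Pool.Agent.Helper77.LM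

end
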